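import Pool.Agent.CLA.Defs

/-!
# CLA / InF: forms in three of the coordinates

PROOFS.  All are immediate from the definition: `aeval` is an algebra homomorphism; `change`: if
`u' = aeval ![u, v, s] U`, ..., then `aeval ![u', v', s'] R = aeval ![u, v, s] (aeval ![U, V, T] R)` (two algebra
homomorphisms which agree on the variables), homogeneous of degree `d * 1` (`IsHomogeneous.aeval`).
-/

set_option autoImplicit false

namespace Pool.Agent.CLA

open MvPolynomial Pool.Agent.CLU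

theorem InF.add {d : ℕ} {u v s F G : S} (hF : InF d u v s F) (hG : InF d u v s G) :
    InF d u v s (F + G) := by
  obtain ⟨R, hR, rfl⟩ := hF
  obtain ⟨T, hT, rfl⟩ := hG
  exact ⟨R + T, hR.add hT, by rw [map_add]⟩

theorem InF.sub {d : ℕ} {u v s F G : S} (hF : InF d u v s F) (hG : InF d u v s G) :
    InF d u v s (F - G) := by
  obtain ⟨R, hR, rfl⟩ := hF
  obtain ⟨T, hT, rfl⟩ := hG
  exact ⟨R - T, hR.sub hT, by rw [map_sub]⟩

theorem InF.mul {d e : ℕ} {u v s F G : S} (hF : InF d u v s F) (hG : InF e u v s G) :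
    InF (d + e) u v s (F * G) := by
  obtain ⟨R, hR, rfl⟩ := hF
  obtain ⟨T, hT, rfl⟩ := hG
  exact ⟨R * T, hR.mul hT, by rw [map_mul]⟩

theorem InF.C_mul {d : ℕ} {u v s F : S} (a : ℂ) (hF : InF d u v s F) :
    InF d u v s (C a * F) := by
  obtain ⟨R, hR, rfl⟩ := hF
  refine ⟨C a * R, ?_, ?_⟩
  · have := (isHomogeneous_C (Fin 3) a).mul hR
    rwa [zero_add] at this
  · rw [map_mul, aeval_C]
    rfl

theorem InF.zero (d : ℕ) (u v s : S) : InF d u v s 0 := by
  exact ⟨0, isHomogeneous_zero _ _ _, by rw [map_zero]⟩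

theorem InF.v0 (u v s : S) : InF 1 u v s u := by
  exact ⟨X 0, isHomogeneous_X _ _, by simp⟩

theorem InF.v1 (u v s : S) : InF 1 u v s v := by
  exact ⟨X 1, isHomogeneous_X _ _, by simp⟩

theorem InF.v2 (u v s : S) : InF 1 u v s s := by
  exact ⟨X 2, isHomogeneous_X _ _, by simp⟩

theorem InF.lin (u v s : S) (a b c : ℂ) : InF 1 u v s (C a * u + C b * v + C c * s) := by
  exact ((InF.C_mul a (InF.v0 u v s)).add (InF.C_mul b (InF.v1 u v s))).add
    (InF.C_mul c (InF.v2 u v s))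

/-- cubic monomials `u^i v^j s^k`, `i + j + k = d` -/
theorem InF.mon (u v s : S) (i j k : ℕ) : InF (i + j + k) u v s (u ^ i * v ^ j * s ^ k) := by
  refine ⟨X 0 ^ i * X 1 ^ j * X 2 ^ k, ?_, ?_⟩
  · exact ((isHomogeneous_X_pow _ _).mul (isHomogeneous_X_pow _ _)).mul (isHomogeneous_X_pow _ _)
  · simp

theorem InF.change {d : ℕ} {u v s u' v' s' F : S} (h0 : InF 1 u v s u') (h1 : InF 1 u v s v')
    (h2 : InF 1 u v s s') (hF : InF d u' v' s' F) : InF d u v s F := by
  obtain ⟨U, hU, rfl⟩ := h0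
  obtain ⟨V, hV, rfl⟩ := h1
  obtain ⟨T, hT, rfl⟩ := h2
  obtain ⟨R, hR, rfl⟩ := hF
  refine ⟨aeval ![U, V, T] R, ?_, ?_⟩
  · have h3 := hR.aeval (![U, V, T]) (n := 1) (fun i => by
      fin_cases i
      · exact hU
      · exact hV
      · exact hT)
    rwa [one_mul] at h3
  · have h4 : (aeval ![aeval ![u, v, s] U, aeval ![u, v, s] V, aeval ![u, v, s] T] :
        MvPolynomial (Fin 3) ℂ →ₐ[ℂ] S) = (aeval ![u, v, s]).comp (aeval ![U, V, T]) := by
      apply algHom_ext
      intro i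
      fin_cases i <;> simp
    rw [h4]
    rfl

end Pool.Agent.CLA
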