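import Mathlib

/-!
# CLA / Roots: roots of explicit complex polynomials

PROOFS.  `exists_root4`: the polynomial `C a4 * X^4 + ... + C a0` has positive degree, `IsAlgClosed.exists_root`
(or `Complex.exists_root`).  `exists_root3`: the case `a4 = 0`.
`two_roots`: if `R = 0` then `A ≠ 0`, `u^2 = -A`, `v = -u`.  If `R ≠ 0`: all roots are `≠ 0`; let `u` be a root, then
`x^3 + A x + R = (x - u)(x^2 + u x + (u^2 + A))`; a root `v` of the second factor; if `v = u` then the other root of the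
second factor is `-2u ≠ u`.
`kappa_root`: `w^3 - g κ w - g β`; if `β ≠ 0` every root is `≠ 0`; if `β = 0` take `w^2 = g κ`.
-/

set_option autoImplicit false

namespace Pool.Agent.CLA

theorem exists_root4 (a4 a3 a2 a1 a0 : ℂ) (h : ¬ (a4 = 0 ∧ a3 = 0 ∧ a2 = 0 ∧ a1 = 0)) :
    ∃ t : ℂ, a4 * t ^ 4 + a3 * t ^ 3 + a2 * t ^ 2 + a1 * t + a0 = 0 := by
  obtain ⟨P, hP⟩ : ∃ P : Polynomial ℂ, P = Polynomial.C a4 * Polynomial.X ^ 4 +
      Polynomial.C a3 * Polynomial.X ^ 3 + Polynomial.C a2 * Polynomial.X ^ 2 +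
      Polynomial.C a1 * Polynomial.X + Polynomial.C a0 := ⟨_, rfl⟩
  have hdeg : P.degree ≠ 0 := by
    intro hd
    apply h
    have h1 : ∀ n : ℕ, 0 < n → P.coeff n = 0 := fun n hn =>
      Polynomial.coeff_eq_zero_of_degree_lt (by rw [hd]; exact_mod_cast hn)
    have e4 := h1 4 (by norm_num)
    have e3 := h1 3 (by norm_num)
    have e2 := h1 2 (by norm_num)
    have e1 := h1 1 (by norm_num)
    rw [hP] at e4 e3 e2 e1
    simp [Polynomial.coeff_C] at e4 e3 e2 e1
    exact ⟨e4, e3, e2, e1⟩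
  obtain ⟨t, ht⟩ := IsAlgClosed.exists_root P hdeg
  refine ⟨t, ?_⟩
  rw [Polynomial.IsRoot.def, hP] at ht
  simpa using ht

theorem exists_root3 (a3 a2 a1 a0 : ℂ) (h : ¬ (a3 = 0 ∧ a2 = 0 ∧ a1 = 0)) :
    ∃ t : ℂ, a3 * t ^ 3 + a2 * t ^ 2 + a1 * t + a0 = 0 := by
  obtain ⟨t, ht⟩ := exists_root4 0 a3 a2 a1 a0 (fun h' => h h'.2)
  exact ⟨t, by linear_combination ht⟩

theorem exists_cube (N : ℂ) : ∃ w : ℂ, w ^ 3 = N := by
  obtain ⟨t, ht⟩ := exists_root3 1 0 0 (-N) (fun h => one_ne_zero h.1)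
  exact ⟨t, by linear_combination ht⟩

theorem exists_sq (N : ℂ) : ∃ w : ℂ, w ^ 2 = N := by
  obtain ⟨t, ht⟩ := exists_root3 0 1 0 (-N) (fun h => one_ne_zero h.2.1)
  exact ⟨t, by linear_combination ht⟩

theorem two_roots (A R : ℂ) (h : ¬ (A = 0 ∧ R = 0)) :
    ∃ u v : ℂ, u ≠ 0 ∧ v ≠ 0 ∧ u ≠ v ∧ u ^ 3 + A * u + R = 0 ∧ v ^ 3 + A * v + R = 0 := by
  by_cases hR : R = 0
  · have hA : A ≠ 0 := fun hA => h ⟨hA, hR⟩
    obtain ⟨u, hu⟩ := exists_sq (-A)
    have hu0 : u ≠ 0 := by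
      rintro rfl
      apply hA
      linear_combination hu
    refine ⟨u, -u, hu0, neg_ne_zero.2 hu0, ?_, ?_, ?_⟩
    · intro he
      apply hu0
      linear_combination he / 2
    · rw [hR]
      linear_combination u * hu
    · rw [hR]
      linear_combination (-u) * hu
  · have hroot : ∀ x : ℂ, x ^ 3 + A * x + R = 0 → x ≠ 0 := by
      rintro x hx rfl
      apply hR
      linear_combination hx
    obtain ⟨u, hu⟩ := exists_root3 1 0 A R (fun h => one_ne_zero h.1)
    have hu' : u ^ 3 + A * u + R = 0 := by linear_combination hu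
    have hu0 := hroot u hu'
    obtain ⟨v, hv⟩ := exists_root3 0 1 u (u ^ 2 + A) (fun h => one_ne_zero h.2.1)
    have hv' : v ^ 2 + u * v + (u ^ 2 + A) = 0 := by linear_combination hv
    have hv3 : v ^ 3 + A * v + R = 0 := by
      linear_combination (v - u) * hv' + hu'
    by_cases huv : u = v
    · refine ⟨u, -2 * u, hu0, ?_, ?_, hu', ?_⟩
      · exact mul_ne_zero (by norm_num) hu0
      · intro he
        apply hu0
        linear_combination he / 3
      · have h3 : 3 * u ^ 2 + A = 0 := by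
          rw [← huv] at hv'
          linear_combination hv'
        linear_combination hu' - 3 * u * h3
    · exact ⟨u, v, hu0, hroot v hv3, huv, hu', hv3⟩

theorem kappa_root (g κ β : ℂ) (hg : g ≠ 0) (hκ : κ ≠ 0) :
    ∃ w : ℂ, w ≠ 0 ∧ w ^ 3 = g * (κ * w + β) := by
  by_cases hβ : β = 0
  · obtain ⟨w, hw⟩ := exists_sq (g * κ)
    refine ⟨w, ?_, ?_⟩
    · rintro rfl
      apply mul_ne_zero hg hκ
      linear_combination -hw
    · rw [hβ]
      linear_combination w * hw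
  · obtain ⟨w, hw⟩ := exists_root3 1 0 (-(g * κ)) (-(g * β)) (fun h => one_ne_zero h.1)
    refine ⟨w, ?_, ?_⟩
    · rintro rfl
      apply mul_ne_zero hg hβ
      linear_combination -hw
    · linear_combination hw

/-- a primitive cube root of unity -/
theorem exists_om : ∃ w : ℂ, w ^ 2 + w + 1 = 0 ∧ w ^ 3 = 1 ∧ w ≠ 1 := by
  obtain ⟨w, hw⟩ := exists_root3 0 1 1 1 (fun h => one_ne_zero h.2.1)
  have h1 : w ^ 2 + w + 1 = 0 := by linear_combination hw
  refine ⟨w, h1, by linear_combination (w - 1) * h1, ?_⟩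
  rintro rfl
  norm_num at h1

end Pool.Agent.CLA
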