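import Pool.Agent.CLA.Lin
import Pool.Agent.CLA.InF
import Pool.Agent.CLA.Roots

/-!
# CLA / Base: singular base loci

PROOFS.  Let `p_0, ..., p_3` be the dual points (`Lin4.exists_dual`) of the forms.
* `dbl_point`: `F = κ x y z + G`, `G` a cubic form in `y, z, w`.  At `p = p_0` (`x = 1`, `y = z = w = 0`): the gradient is `0`
  (`pderiv j` of a product of forms; `y, z, w` vanish at `p`, every monomial has at least two of them), and the Hessian
  matrix `H` at `p` satisfies `∑ u_i v_j H_ij = κ (y(u) z(v) + z(u) y(v))` for all `u, v`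
  (second derivative; the terms of `G` have three of the factors `y, z, w`).  With `u, v ∈ {p_1, p_2}` the Gram matrix
  is `κ (0 1; 1 0)`, invertible, so `H` has rank at least `2` (`H p_1`, `H p_2` are independent).
* `no_cube`: let `p` be a point with `c(p) = 0`, `w(p) = 0`, `p ≠ 0` (exists: `c` is a form in `x, y, z`; restrict it to
  the line `z = w = 0`, a binary cubic has a nontrivial zero); there `f = C e * c + w^3 ` vanishes and the gradient of `f` is
  `e` times the gradient of `c` (`pderiv j (w^3) = 3 w^2 ...` vanishes): not `SmB`.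
* `no_two_cubes`: `f - C e * c = w^3 + C a * z^3`, `c = x^3 + y^3 + z^3`: take `p` with `x = 1, y = -1, z = w = 0`.
-/

set_option autoImplicit false

namespace Pool.Agent.CLA

open MvPolynomial Pool.Agent.CLU

theorem base_ev (p : Fin 4 → ℂ) (x y z : S) (R : MvPolynomial (Fin 3) ℂ) :
    eval p (aeval ![x, y, z] R) = eval ![eval p x, eval p y, eval p z] R := by
  induction R using MvPolynomial.induction_on with
  | C a => simp
  | add P Q hP hQ => rw [map_add, map_add, hP, hQ, map_add]
  | mul_X P i hP =>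
    rw [map_mul, map_mul, hP, map_mul, aeval_X, eval_X]
    congr 1
    fin_cases i <;> rfl

theorem base_evP (t : ℂ) (g : Fin 3 → Polynomial ℂ) (R : MvPolynomial (Fin 3) ℂ) :
    Polynomial.eval t (aeval g R) = eval (fun i => Polynomial.eval t (g i)) R := by
  induction R using MvPolynomial.induction_on with
  | C a => simp
  | add P Q hP hQ => rw [map_add, Polynomial.eval_add, hP, hQ, map_add]
  | mul_X P i hP => rw [map_mul, Polynomial.eval_mul, hP, map_mul, aeval_X, eval_X]

theorem base_hom {d : ℕ} {R : MvPolynomial (Fin 3) ℂ} (hR : R.IsHomogeneous d) (s : ℂ) (v : Fin 3 → ℂ) :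
    eval (fun i => s * v i) R = s ^ d * eval v R := by
  rw [eval_eq, eval_eq, Finset.mul_sum]
  refine Finset.sum_congr rfl fun m hm => ?_
  have h1 : m.degree = d := by
    have h2 := hR (mem_support_iff.1 hm)
    rw [Finsupp.degree_eq_weight_one]
    exact h2
  simp only [mul_pow]
  rw [Finset.prod_mul_distrib, Finset.prod_pow_eq_pow_sum]
  have h3 : ∑ i ∈ m.support, m i = d := h1
  rw [h3]
  ring

/-- a ternary cubic form has a zero on the line `z = 0` -/
theorem base_root {R : MvPolynomial (Fin 3) ℂ} (hR : R.IsHomogeneous 3) :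
    ∃ u v : ℂ, (u ≠ 0 ∨ v ≠ 0) ∧ eval ![u, v, 0] R = 0 := by
  by_cases h : ∃ t : ℂ, eval ![1, t, 0] R = 0
  · obtain ⟨t, ht⟩ := h
    exact ⟨1, t, Or.inl one_ne_zero, ht⟩
  push Not at h
  have hP : ∀ t : ℂ, Polynomial.eval t (aeval ![(1 : Polynomial ℂ), Polynomial.X, 0] R) = eval ![1, t, 0] R := by
    intro t
    rw [base_evP]
    congr 2
    funext i
    fin_cases i <;> simp
  have hQ : ∀ u : ℂ, Polynomial.eval u (aeval ![(Polynomial.X : Polynomial ℂ), 1, 0] R) = eval ![u, 1, 0] R := by
    intro t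
    rw [base_evP]
    congr 2
    funext i
    fin_cases i <;> simp
  have hdeg : (aeval ![(1 : Polynomial ℂ), Polynomial.X, 0] R : Polynomial ℂ).degree = 0 := by
    by_contra hd
    obtain ⟨t, ht⟩ := IsAlgClosed.exists_root _ hd
    rw [Polynomial.IsRoot.def, hP] at ht
    exact h t ht
  obtain ⟨c, hc⟩ : ∃ c : ℂ, (aeval ![(1 : Polynomial ℂ), Polynomial.X, 0] R : Polynomial ℂ) = Polynomial.C c :=
    ⟨_, Polynomial.eq_C_of_degree_eq_zero hdeg⟩
  have hc' : ∀ t : ℂ, eval ![1, t, 0] R = c := by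
    intro t
    rw [← hP, hc, Polynomial.eval_C]
  have hQe : (aeval ![(Polynomial.X : Polynomial ℂ), 1, 0] R : Polynomial ℂ) = Polynomial.C c * Polynomial.X ^ 3 := by
    refine Polynomial.eq_of_infinite_eval_eq _ _ (Set.Infinite.mono ?_ (Set.finite_singleton (0 : ℂ)).infinite_compl)
    intro u hu
    have hu0 : u ≠ 0 := hu
    show Polynomial.eval u _ = Polynomial.eval u _
    rw [hQ]
    have h1 : (![u, 1, 0] : Fin 3 → ℂ) = fun i => u * (![1, 1 / u, 0] : Fin 3 → ℂ) i := by
      funext i
      fin_cases i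
      · simp
      · simp [hu0]
      · simp
    rw [h1, base_hom hR, hc']
    simp
    ring
  refine ⟨0, 1, Or.inr one_ne_zero, ?_⟩
  rw [← hQ, hQe]
  simp


theorem base_zero {F : S} (hF : F.IsHomogeneous 1) : eval (0 : Fin 4 → ℂ) F = 0 := by
  rw [eval_eq]
  refine Finset.sum_eq_zero fun m hm => ?_
  have h1 : m.degree = 1 := by
    have h2 := hF (mem_support_iff.1 hm)
    rw [Finsupp.degree_eq_weight_one]
    exact h2
  have h3 : ∑ i ∈ m.support, m i = 1 := h1
  have h4 : m.support.Nonempty := by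
    by_contra hne
    rw [Finset.not_nonempty_iff_eq_empty] at hne
    rw [hne, Finset.sum_empty] at h3
    exact zero_ne_one h3
  obtain ⟨i, hi⟩ := h4
  rw [Finset.prod_eq_zero hi, mul_zero]
  rw [Pi.zero_apply, zero_pow (Finsupp.mem_support_iff.1 hi)]

theorem no_cube {x y z w c f : S} (h : Lin4 x y z w) (hc : InF 3 x y z c) (e : ℂ)
    (hf : f = C e * c + w ^ 3) : ¬ SmB c f := by
  intro hS
  obtain ⟨R, hR, rfl⟩ := hc
  obtain ⟨u, v, huv, h0⟩ := base_root hR
  obtain ⟨p, hx, hy, hz, hw⟩ := h.exists_point u v 0 0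
  have hp : p ≠ 0 := by
    rintro rfl
    rw [base_zero h.hom.1] at hx
    rw [base_zero h.hom.2.1] at hy
    rcases huv with h1 | h1
    · exact h1 hx.symm
    · exact h1 hy.symm
  have hc0 : eval p (aeval ![x, y, z] R) = 0 := by
    rw [base_ev, hx, hy, hz, h0]
  have hf0 : eval p f = 0 := by
    rw [hf, map_add, map_mul, hc0, map_pow, hw]
    simp
  have hL := hS p hp hc0 hf0
  rw [LinearIndependent.pair_iff] at hL
  have e2 := (hL (-e) 1 (by
    funext i
    rw [hf]
    simp [hw]
    )).2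
  exact one_ne_zero e2

theorem no_two_cubes {x y z w f : S} (h : Lin4 x y z w) (e a : ℂ)
    (hf : f = C e * (x ^ 3 + y ^ 3 + z ^ 3) + (w ^ 3 + C a * z ^ 3)) :
    ¬ SmB (x ^ 3 + y ^ 3 + z ^ 3) f := by
  intro hS
  obtain ⟨p, hx, hy, hz, hw⟩ := h.exists_point 1 (-1) 0 0
  have hp : p ≠ 0 := by
    rintro rfl
    rw [base_zero h.hom.1] at hx
    exact one_ne_zero hx.symm
  have hc0 : eval p (x ^ 3 + y ^ 3 + z ^ 3) = 0 := by
    simp only [map_add, map_pow, hx, hy, hz]
    norm_num
  have hf0 : eval p f = 0 := by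
    rw [hf]
    simp only [map_add, map_mul, map_pow, hx, hy, hz, hw, eval_C]
    norm_num
  have hL := hS p hp hc0 hf0
  rw [LinearIndependent.pair_iff] at hL
  have e2 := (hL (-e) 1 (by
    funext i
    rw [hf]
    simp [hw, hz]
    )).2
  exact one_ne_zero e2

end Pool.Agent.CLA
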