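import Pool.Agent.CLA.Lin

/-!
# CLA / Comb: change of the generators of the pencil

PROOFS.
* `span_comb`: `⊆`: the new generators are combinations of the old ones; `⊇`: Cramer.
* `PenH.comb`: `SmB`: at a common zero of the new generators the old ones vanish (Cramer), and the two new gradients are
  an invertible combination of the old ones (linear independence: `LinearIndependent.pair_iff`).  `dbl`: a member of the
  new pencil is the member `C (s*a + u*a') * c + C (s*b + u*b') * f` of the old one, with coefficients not both `0`.
  `nod`: same ideal.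
* `smB_scalar` etc.: special cases.
-/

set_option autoImplicit false

namespace Pool.Agent.CLA

open MvPolynomial Pool.Agent.CLU

theorem span_comb (c f : S) (a b a' b' : ℂ) (h : a * b' - a' * b ≠ 0) :
    Ideal.span {C a * c + C b * f, C a' * c + C b' * f} = Ideal.span {c, f} := by
  have hu : (C (a * b' - a' * b)⁻¹ : S) * (C a * C b' - C a' * C b) = 1 := by
    rw [← C_mul, ← C_mul, ← C_sub, ← C_mul, inv_mul_cancel₀ h, C_1]
  apply le_antisymm
  · rw [Ideal.span_le]
    intro x hx
    simp only [Set.mem_insert_iff, Set.mem_singleton_iff] at hx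
    rw [SetLike.mem_coe, Ideal.mem_span_pair]
    rcases hx with rfl | rfl
    · exact ⟨C a, C b, rfl⟩
    · exact ⟨C a', C b', rfl⟩
  · rw [Ideal.span_le]
    intro x hx
    simp only [Set.mem_insert_iff, Set.mem_singleton_iff] at hx
    rw [SetLike.mem_coe, Ideal.mem_span_pair]
    rcases hx with rfl | rfl
    · refine ⟨C (a * b' - a' * b)⁻¹ * C b', -(C (a * b' - a' * b)⁻¹ * C b), ?_⟩
      linear_combination x * hu
    · refine ⟨-(C (a * b' - a' * b)⁻¹ * C a'), C (a * b' - a' * b)⁻¹ * C a, ?_⟩
      linear_combination x * hu

theorem PenH.comb {c f : S} (hP : PenH c f) (a b a' b' : ℂ) (h : a * b' - a' * b ≠ 0) :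
    PenH (C a * c + C b * f) (C a' * c + C b' * f) := by
  refine ⟨?_, ?_, ?_⟩
  · intro p hp h1 h2
    simp only [map_add, map_mul, eval_C] at h1 h2
    have hc : eval p c = 0 := by
      have : (a * b' - a' * b) * eval p c = 0 := by linear_combination b' * h1 - b * h2
      exact (mul_eq_zero.1 this).resolve_left h
    have hf : eval p f = 0 := by
      have : (a * b' - a' * b) * eval p f = 0 := by linear_combination a * h2 - a' * h1
      exact (mul_eq_zero.1 this).resolve_left h
    have hli := hP.base p hp hc hf
    rw [LinearIndependent.pair_iff] at hli ⊢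
    intro s t hst
    have e := hli (s * a + t * a') (s * b + t * b') (by
      funext i
      have := congrFun hst i
      simp only [Pi.add_apply, Pi.smul_apply, Pi.zero_apply, smul_eq_mul, map_add, pderiv_C_mul,
        eval_C, map_mul] at this ⊢
      linear_combination this)
    obtain ⟨e1, e2⟩ := e
    constructor
    · have : (a * b' - a' * b) * s = 0 := by linear_combination b' * e1 - a' * e2
      exact (mul_eq_zero.1 this).resolve_left h
    · have : (a * b' - a' * b) * t = 0 := by linear_combination a * e2 - b * e1
      exact (mul_eq_zero.1 this).resolve_left h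
  · intro s t hst p
    have e : C s * (C a * c + C b * f) + C t * (C a' * c + C b' * f) =
        C (s * a + t * a') * c + C (s * b + t * b') * f := by
      simp only [C_mul, C_add]
      ring
    rw [e]
    apply hP.dbl
    intro h0
    rw [Prod.mk.injEq] at h0
    obtain ⟨e1, e2⟩ := h0
    apply hst
    have h1 : s = 0 := by
      have : (a * b' - a' * b) * s = 0 := by linear_combination b' * e1 - a' * e2
      exact (mul_eq_zero.1 this).resolve_left h
    have h2 : t = 0 := by
      have : (a * b' - a' * b) * t = 0 := by linear_combination a * e2 - b * e1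
      exact (mul_eq_zero.1 this).resolve_left h
    rw [h1, h2]
  · intro B hB
    rw [span_comb c f a b a' b' h] at hB
    exact hP.nod B hB

/-- `c` up to a factor, `f` up to multiples of `c` -/
theorem PenH.comb' {c f c' f' : S} (hP : PenH c f) (a e : ℂ) (ha : a ≠ 0) (hc : c = C a * c')
    (hf : f = f' + C e * c') : PenH c' f' := by
  have hu : (C a⁻¹ : S) * C a = 1 := by rw [← C_mul, inv_mul_cancel₀ ha, C_1]
  have h := hP.comb a⁻¹ 0 (-(e * a⁻¹)) 1 (by simpa using ha)
  have e1 : C a⁻¹ * c + C 0 * f = c' := by
    rw [hc, C_0]
    linear_combination c' * hu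
  have e2 : C (-(e * a⁻¹)) * c + C 1 * f = f' := by
    rw [hc, hf, C_1, C_neg, C_mul]
    linear_combination (-(C e * c')) * hu
  rwa [e1, e2] at h

end Pool.Agent.CLA
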