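import Pool.Agent.CLA.Lin
import Pool.Agent.CLA.InF
import Pool.Agent.CLA.Roots

/-!
# CLA / ConeD: decomposition of cubic forms

PROOFS.
* `decomp`: every cubic form `F` is `C a * w^3 + w^2 * l + w * q + r` with forms `l, q, r` of degrees `1, 2, 3` in `x, y, z`:
  write `X j` as combinations of `x, y, z, w` (`Lin4` is a basis of the linear forms), so `F = aeval ![x,y,z,w] G` with a
  quaternary cubic form `G`; sort `G` by powers of the last variable (`finSuccEquiv` or sums over monomials).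
* `cone_form`: extend `p` to a basis of `ℂ^4`, let `w, x, y, z` be the dual linear forms, `w(p) = 1`, `x(p) = y(p) = z(p) = 0`.
  `decomp` for `g`: `a = g(p) = 0` (Euler), `l = 0` as its coefficients are the derivatives of `g` at `p`, and `q = 0` as its
  coefficients are second derivatives of `g` at `p` (evaluate the gradient and the Hessian of
  `a w^3 + w^2 l + w q + r` at `p`; use the dual points of `Lin4.exists_dual` as directions).
* `second_form`: `decomp`, `a = g(p) ≠ 0`; let `k^3 = a`, `w' = k w + (1/(3 k^2)) l`: `w'^3 = a w^3 + w^2 l + ...` (the remaining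
  terms are `w` times a quadratic form plus a cubic form in `x, y, z`), and `w = (w' - (1/(3k^2)) l)/k`.
* `smooth_tern`: suppose `p3 ≠ 0` is a singular point of `c`; choose `w0` with `w0^3 + w0 q(p3) + r(p3) = 0` (`exists_root3`) and `P`
  with `(x, y, z)(P) = p3`, `w(P) = w0` (`Lin4.exists_point`); `g0(P) = c(p3) = 0` (Euler), `g1(P) = 0`, `P ≠ 0`, and all
  derivatives of `g0 = aeval ![x, y, z] c` vanish at `P` (chain rule): contradiction to `SmB`.
* `vertex_ne`: if `g1(p) = 0` at the vertex `p` (`x = y = z = 0`, `w = 1`) then `g0(p) = 0`, and the gradient of `g0` at `p` is `0`: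
  contradiction to `SmB`.
* `lift3`: `Lin3 l` and `Lin4 x y z w` give `Lin4 (aeval ![x,y,z] (l 0)) ... w`.
-/

set_option autoImplicit false

namespace Pool.Agent.CLA

open MvPolynomial Pool.Agent.CLU


/-- A form of degree zero is a constant. -/
private theorem inF_zero {u v s F : S} (h : InF 0 u v s F) : ∃ a : ℂ, F = C a := by
  obtain ⟨R, hR, rfl⟩ := h
  have h1 : R.totalDegree = 0 := by
    rcases eq_or_ne R 0 with h | h
    · rw [h, totalDegree_zero]
    · exact hR.totalDegree h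
  rw [totalDegree_eq_zero_iff_eq_C] at h1
  refine ⟨coeff 0 R, ?_⟩
  rw [h1]
  simp [MvPolynomial.algebraMap_eq]

theorem decomp {x y z w : S} (h : Lin4 x y z w) (F : S) (hF : F.IsHomogeneous 3) :
    ∃ (a : ℂ) (l q r : S), InF 1 x y z l ∧ InF 2 x y z q ∧ InF 3 x y z r ∧
      F = C a * w ^ 3 + w ^ 2 * l + w * q + r := by
  obtain ⟨l', hl', -, h1, -⟩ := exists_inverse ![x, y, z, w] h.1 h.2
  have hG : (aeval l' F : S).IsHomogeneous 3 := by
    have := hF.aeval l' hl'
    simpa using this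
  set G : S := aeval l' F with hGdef
  have hm : ∀ m ∈ G.support, m 0 + m 1 + m 2 + m 3 = 3 := by
    intro m hm
    have h2 := hG (mem_support_iff.1 hm)
    simpa [Finsupp.weight_apply, Finsupp.sum_fintype, Fin.sum_univ_four] using h2
  obtain ⟨P, hP⟩ : ∃ P : ℕ → MvPolynomial (Fin 3) ℂ, ∀ k, P k =
      ∑ m ∈ G.support with m 3 = k, C (coeff m G) * (X 0 ^ m 0 * X 1 ^ m 1 * X 2 ^ m 2) :=
    ⟨_, fun k => rfl⟩
  have hPh : ∀ k, k ≤ 3 → (P k).IsHomogeneous (3 - k) := by
    intro k hk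
    rw [hP]
    refine IsHomogeneous.sum _ _ _ fun m hm' => ?_
    rw [Finset.mem_filter] at hm'
    have h2 := hm m hm'.1
    refine IsHomogeneous.C_mul ?_ _
    have h3 := (((isHomogeneous_X ℂ (0 : Fin 3)).pow (m 0)).mul
      ((isHomogeneous_X ℂ (1 : Fin 3)).pow (m 1))).mul ((isHomogeneous_X ℂ (2 : Fin 3)).pow (m 2))
    have h4 : 1 * m 0 + 1 * m 1 + 1 * m 2 = 3 - k := by omega
    rwa [h4] at h3
  have key : F = ∑ k ∈ Finset.range 4, w ^ k * aeval ![x, y, z] (P k) := by
    rw [← h1 F, ← hGdef, aeval_def, eval₂_eq']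
    rw [← Finset.sum_fiberwise_of_maps_to (s := G.support) (t := Finset.range 4)
      (g := fun m => m 3) (by
        intro m hm'
        have := hm m hm'
        rw [Finset.mem_range]
        show m 3 < 4
        omega)]
    refine Finset.sum_congr rfl fun k _ => ?_
    rw [hP, map_sum, Finset.mul_sum]
    refine Finset.sum_congr rfl fun m hm' => ?_
    rw [Finset.mem_filter] at hm'
    rw [Fin.prod_univ_four]
    simp only [map_mul, map_pow, aeval_X, aeval_C, Matrix.cons_val_zero, Matrix.cons_val_one,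
      Matrix.cons_val]
    rw [← hm'.2]
    ring
  have h0 : InF 0 x y z (aeval ![x, y, z] (P 3)) := ⟨P 3, by simpa using hPh 3 le_rfl, rfl⟩
  obtain ⟨a, ha⟩ := inF_zero h0
  refine ⟨a, _, _, _, ⟨P 2, by simpa using hPh 2 (by norm_num), rfl⟩,
    ⟨P 1, by simpa using hPh 1 (by norm_num), rfl⟩,
    ⟨P 0, by simpa using hPh 0 (by norm_num), rfl⟩, ?_⟩
  rw [key, Finset.sum_range_succ, Finset.sum_range_succ, Finset.sum_range_succ,
    Finset.sum_range_one, ha]
  ring

/-- A form of positive degree vanishes where the three coordinates vanish. -/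
theorem coneD_eval {d : ℕ} (hd : d ≠ 0) {x y z F : S} (hF : InF d x y z F) (p : Fin 4 → ℂ)
    (hx : eval p x = 0) (hy : eval p y = 0) (hz : eval p z = 0) : eval p F = 0 := by
  obtain ⟨R, hR, rfl⟩ := hF
  have h1 : eval p (aeval ![x, y, z] R) = eval (0 : Fin 3 → ℂ) R := by
    have h2 : ((aeval p : S →ₐ[ℂ] ℂ).comp (aeval ![x, y, z])) =
        (aeval (0 : Fin 3 → ℂ) : MvPolynomial (Fin 3) ℂ →ₐ[ℂ] ℂ) := by
      apply algHom_ext
      intro i
      rw [AlgHom.comp_apply, aeval_X, aeval_X]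
      fin_cases i
      · simpa [coe_aeval_eq_eval] using hx
      · simpa [coe_aeval_eq_eval] using hy
      · simpa [coe_aeval_eq_eval] using hz
    have h3 := DFunLike.congr_fun h2 R
    simpa [coe_aeval_eq_eval] using h3
  rw [h1]
  have h4 : coeff 0 R = 0 := by
    by_contra hne
    have := hR hne
    simp at this
    exact hd this.symm
  rw [← h4, ← constantCoeff_eq]
  simp [MvPolynomial.eval_zero]

/-- A linear form in three coordinates. -/
theorem coneD_lin {x y z l : S} (hl : InF 1 x y z l) :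
    ∃ a b c : ℂ, l = C a * x + C b * y + C c * z := by
  obtain ⟨R, hR, rfl⟩ := hl
  have h1 : R ∈ homogeneousSubmodule (Fin 3) ℂ 1 := hR
  rw [homogeneousSubmodule_one_eq_span_X] at h1
  obtain ⟨c, hc⟩ := (Submodule.mem_span_range_iff_exists_fun ℂ).1 h1
  refine ⟨c 0, c 1, c 2, ?_⟩
  rw [← hc, Fin.sum_univ_three]
  simp [smul_eq_C_mul, MvPolynomial.algebraMap_eq]

theorem second_form {x y z w : S} (h : Lin4 x y z w) (g : S) (hg : g.IsHomogeneous 3)
    (p : Fin 4 → ℂ) (hx : eval p x = 0) (hy : eval p y = 0) (hz : eval p z = 0)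
    (hw : eval p w = 1) (hne : eval p g ≠ 0) :
    ∃ (w' q r : S), Lin4 x y z w' ∧ InF 2 x y z q ∧ InF 3 x y z r ∧ g = w' ^ 3 + w' * q + r := by
  obtain ⟨a, l, q, r, hl, hq, hr, he⟩ := decomp h g hg
  have ha : a ≠ 0 := by
    rintro rfl
    apply hne
    rw [he]
    simp only [map_add, map_mul, map_pow, hw, coneD_eval one_ne_zero hl p hx hy hz,
      coneD_eval two_ne_zero hq p hx hy hz, coneD_eval three_ne_zero hr p hx hy hz, eval_C]
    ring
  obtain ⟨k, hk⟩ := exists_cube a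
  have hk0 : k ≠ 0 := by
    rintro rfl
    apply ha
    rw [← hk]
    ring
  obtain ⟨c0, c1, c2, hl'⟩ := coneD_lin hl
  obtain ⟨hx1, hy1, hz1, hw1⟩ := h.hom
  have hlh : l.IsHomogeneous 1 := by
    have := h.hom_comb c0 c1 c2 0
    rw [hl']
    simpa using this
  -- constants
  obtain ⟨e, hke⟩ : ∃ e : ℂ, k * e = 1 := ⟨k⁻¹, mul_inv_cancel₀ hk0⟩
  have hCk : (C k : S) * C e = 1 := by rw [← C_mul, hke, C_1]
  have hC3 : (C (3 : ℂ) : S) * C (1 / 3) = 1 := by
    rw [← C_mul]
    norm_num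
  have hCa : (C a : S) = C k ^ 3 := by rw [← hk, C_pow]
  have h3 : (C (3 : ℂ) : S) = 3 := map_ofNat C 3
  rw [h3] at hC3
  obtain ⟨K, hK⟩ : ∃ K : S, K = C k := ⟨_, rfl⟩
  obtain ⟨E, hE⟩ : ∃ E : S, E = C e := ⟨_, rfl⟩
  obtain ⟨T, hT⟩ : ∃ T : S, T = C (1 / 3) := ⟨_, rfl⟩
  rw [← hK, ← hE] at hCk
  rw [← hT] at hC3
  rw [← hK] at hCa
  refine ⟨C k * w + C (1 / 3 * e ^ 2) * l,
    C e * (q - C (1 / 3 * e ^ 3) * (l * l)),
    r - C (1 / 27 * e ^ 6) * (l * (l * l)) -
      C (1 / 3 * e ^ 3) * (l * (q - C (1 / 3 * e ^ 3) * (l * l))), ?_, ?_, ?_, ?_⟩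
  · refine h.of_span hx1 hy1 hz1 ?_ ![![1, 0, 0, 0], ![0, 1, 0, 0], ![0, 0, 1, 0],
      ![-(1 / 3 * e ^ 3) * c0, -(1 / 3 * e ^ 3) * c1, -(1 / 3 * e ^ 3) * c2, e]] ?_
    · have h5 := (hw1.C_mul k).add (hlh.C_mul (1 / 3 * e ^ 2))
      exact h5
    · intro i
      fin_cases i
      · simp
      · simp
      · simp
      · have h6 : (w : S) = E * (K * w + T * E ^ 2 * l) - T * E ^ 3 * l := by
          linear_combination (-w) * hCk
        show w = _
        conv_lhs => rw [h6]
        show _ = C (-(1 / 3 * e ^ 3) * c0) * x + C (-(1 / 3 * e ^ 3) * c1) * y +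
          C (-(1 / 3 * e ^ 3) * c2) * z + C e * (C k * w + C (1 / 3 * e ^ 2) * l)
        have h7 : (C c0 * x + C c1 * y + C c2 * z : S) = l := hl'.symm
        simp only [C_neg, C_mul, C_pow, ← hK, ← hE, ← hT]
        linear_combination (T * E ^ 3) * h7
  · exact (hq.sub ((hl.mul hl).C_mul _)).C_mul _
  · exact (hr.sub ((hl.mul (hl.mul hl)).C_mul _)).sub
      ((hl.mul (hq.sub ((hl.mul hl).C_mul _))).C_mul _)
  · have hT27 : (C (1 / 27 : ℂ) : S) = T ^ 3 := by
      rw [hT, ← C_pow]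
      norm_num
    rw [he]
    simp only [C_mul, C_pow, hT27, ← hK, ← hE, ← hT, hCa]
    linear_combination (-(w ^ 2 * l) - w * l ^ 2 * K * T * E ^ 4) * hC3 +
      (-(3 * T * (K * E + 1) * w ^ 2 * l) - w * q) * hCk

end Pool.Agent.CLA
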