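import Pool.Agent.CLA.ConeD

/-!
# CLA / ConeF: a pencil with a cone member

PROOFS.
* `decomp`: every cubic form `F` is `C a * w^3 + w^2 * l + w * q + r` with forms `l, q, r` of degrees `1, 2, 3` in `x, y, z`:
  write `X j` as combinations of `x, y, z, w` (`Lin4` is a basis of the linear forms), so `F = aeval ![x,y,z,w] G` with a
  quaternary cubic form `G`; sort `G` by powers of the last variable (`finSuccEquiv` or sums over monomials).
* `cone_form`: extend `p` to a basis of `ℂ^4`, let `w, x, y, z` be the dual linear forms, `w(p) = 1`, `x(p) = y(p) = z(p) = 0`.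
  `decomp` for `g`: `a = g(p) = 0` (Euler), `l = 0` as its coefficients are the derivatives of `g` at `p`, and `q = 0` as its
  coefficients are second derivatives of `g` at `p` (evaluate the gradient and the Hessian of
  `a w^3 + w^2 l + w q + r` at `p`; use the dual points of `Lin4.exists_dual` as directions).
* `second_form`: `decomp`, `a = g(p) ≠ 0`; let `k^3 = a`, `w' = k w + (1/(3 k^2)) l`: `w'^3 = a w^3 + w^2 l + ...` (the remaining
  terms are `w` times a quadratic form plus a cubic form in `x, y, z`), and `w = (w' - (1/(3k^2)) l)/k`.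
* `smooth_tern`: suppose `p3 ≠ 0` is a singular point of `c`; choose `w0` with `w0^3 + w0 q(p3) + r(p3) = 0` (`exists_root3`) and `P`
  with `(x, y, z)(P) = p3`, `w(P) = w0` (`Lin4.exists_point`); `g0(P) = c(p3) = 0` (Euler), `g1(P) = 0`, `P ≠ 0`, and all
  derivatives of `g0 = aeval ![x, y, z] c` vanish at `P` (chain rule): contradiction to `SmB`.
* `vertex_ne`: if `g1(p) = 0` at the vertex `p` (`x = y = z = 0`, `w = 1`) then `g0(p) = 0`, and the gradient of `g0` at `p` is `0`:
  contradiction to `SmB`.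
* `lift3`: `Lin3 l` and `Lin4 x y z w` give `Lin4 (aeval ![x,y,z] (l 0)) ... w`.
-/

set_option autoImplicit false

namespace Pool.Agent.CLA

open MvPolynomial Pool.Agent.CLU


/-- The chain rule. -/
private theorem pd_aeval (v : Fin 3 → S) (R : MvPolynomial (Fin 3) ℂ) (j : Fin 4) :
    pderiv j (aeval v R) = ∑ k, aeval v (pderiv k R) * pderiv j (v k) := by
  induction R using MvPolynomial.induction_on with
  | C a => simp [MvPolynomial.algebraMap_eq]
  | add p q hp hq =>
    simp only [map_add, hp, hq, add_mul, Finset.sum_add_distrib]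
  | mul_X p n hp =>
    simp only [map_mul, aeval_X, Derivation.leibniz, smul_eq_mul, hp, pderiv_X, map_add, add_mul,
      Finset.sum_add_distrib]
    have h1 : ∑ k, aeval v p * aeval v
        ((Pi.single k 1 : Fin 3 → MvPolynomial (Fin 3) ℂ) n) *
        pderiv j (v k) = aeval v p * pderiv j (v n) := by
      rw [Finset.sum_eq_single n]
      · simp
      · intro k _ hk
        rw [Pi.single_eq_of_ne hk.symm]
        simp
      · intro h
        exact absurd (Finset.mem_univ n) h
    rw [h1, Finset.mul_sum]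
    congr 1
    refine Finset.sum_congr rfl fun k _ => ?_
    ring

private theorem pd_lin {x : S} (hx : x.IsHomogeneous 1) (j : Fin 4) : ∃ c : ℂ, pderiv j x = C c := by
  obtain ⟨c, rfl⟩ := exists_lf x hx
  refine ⟨c j, ?_⟩
  rw [lf_apply, map_sum, Finset.sum_eq_single j]
  · simp [Derivation.leibniz, pderiv_X]
  · intro k _ hk
    simp [Derivation.leibniz, pderiv_X, Pi.single_eq_of_ne hk]
  · intro h
    exact absurd (Finset.mem_univ j) h

/-- Derivatives of a form in three coordinates. -/
theorem InF.pd {d : ℕ} {x y z F : S} (hx : x.IsHomogeneous 1) (hy : y.IsHomogeneous 1)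
    (hz : z.IsHomogeneous 1) (hF : InF (d + 1) x y z F) (j : Fin 4) :
    InF d x y z (pderiv j F) := by
  obtain ⟨R, hR, rfl⟩ := hF
  rw [pd_aeval, Fin.sum_univ_three]
  have h1 : ∀ k, InF d x y z (aeval ![x, y, z] (pderiv k R)) := fun k =>
    ⟨_, by simpa using hR.pderiv (i := k), rfl⟩
  obtain ⟨c0, h0⟩ := pd_lin hx j
  obtain ⟨c1, h2⟩ := pd_lin hy j
  obtain ⟨c2, h3⟩ := pd_lin hz j
  have e0 : pderiv j ((![x, y, z] : Fin 3 → S) 0) = C c0 := h0
  have e1 : pderiv j ((![x, y, z] : Fin 3 → S) 1) = C c1 := h2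
  have e2 : pderiv j ((![x, y, z] : Fin 3 → S) 2) = C c2 := h3
  rw [e0, e1, e2, mul_comm _ (C c0), mul_comm _ (C c1), mul_comm _ (C c2)]
  exact (((h1 0).C_mul _).add ((h1 1).C_mul _)).add ((h1 2).C_mul _)

private theorem lin_zero {φ : S} (hφ : φ.IsHomogeneous 1) (p : Fin 4 → ℂ)
    (h : ∀ j, eval p (pderiv j φ) = 0) : φ = 0 := by
  obtain ⟨c, rfl⟩ := exists_lf φ hφ
  have h1 : c = 0 := by
    funext j
    have h2 := h j
    rw [lf_apply, map_sum, Finset.sum_eq_single j] at h2
    · simpa [Derivation.leibniz, pderiv_X] using h2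
    · intro k _ hk
      simp [Derivation.leibniz, pderiv_X, Pi.single_eq_of_ne hk]
    · intro h
      exact absurd (Finset.mem_univ j) h
  rw [h1, map_zero]

private theorem quad_zero {φ : S} (hφ : φ.IsHomogeneous 2) (p : Fin 4 → ℂ)
    (h : ∀ i j, eval p (pderiv i (pderiv j φ)) = 0) : φ = 0 := by
  have h1 : ∀ j, pderiv j φ = 0 := fun j => lin_zero (by simpa using hφ.pderiv (i := j)) p
    fun i => h i j
  have h2 := hφ.sum_X_mul_pderiv
  simp only [h1, mul_zero, Finset.sum_const_zero] at h2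
  have h3 : (2 : S) * φ = 0 := by
    rw [two_nsmul] at h2
    linear_combination -h2
  have h4 : (2 : S) ≠ 0 := two_ne_zero
  exact (mul_eq_zero.1 h3).resolve_left h4

private theorem exists_coords (p : Fin 4 → ℂ) (hp : p ≠ 0) :
    ∃ x y z w : S, Lin4 x y z w ∧ eval p x = 0 ∧ eval p y = 0 ∧ eval p z = 0 ∧ eval p w = 1 := by
  obtain ⟨j, hj⟩ := Function.ne_iff.1 hp
  rw [Pi.zero_apply] at hj
  obtain ⟨e, he⟩ : ∃ e : Fin 4 ≃ Fin 4, e 3 = j := ⟨Equiv.swap 3 j, Equiv.swap_apply_left 3 j⟩
  have hX : Lin4 (X (e 0)) (X (e 1)) (X (e 2)) (X (e 3)) := by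
    have h0 : (![X (e 0), X (e 1), X (e 2), X (e 3)] : Fin 4 → S) = fun i => X (e i) := by
      funext i
      fin_cases i <;> rfl
    refine ⟨?_, ?_⟩
    · intro i
      rw [h0]
      exact isHomogeneous_X _ _
    · rw [h0]
      have h1 : (fun i => X (e i) : Fin 4 → S) = fun i => lf (Pi.single (e i) 1) := by
        funext i
        rw [lf_apply, Finset.sum_eq_single (e i)]
        · simp
        · intro k _ hk
          simp [Pi.single_eq_of_ne hk]
        · intro h
          exact absurd (Finset.mem_univ _) h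
      rw [h1, li_lf]
      have h2 := (Pi.basisFun ℂ (Fin 4)).linearIndependent.comp e e.injective
      have h3 : (⇑(Pi.basisFun ℂ (Fin 4)) ∘ ⇑e) = fun i => (Pi.single (e i) 1 : Fin 4 → ℂ) := by
        funext i
        simp
      rwa [h3] at h2
  obtain ⟨hx1, hy1, hz1, hw1⟩ := hX.hom
  rw [he] at hX hw1
  have hjj : p j * (1 / p j) = 1 := by field_simp
  have hC : (C (p j) : S) * C (1 / p j) = 1 := by rw [← C_mul, hjj, C_1]
  refine ⟨X (e 0) - C (p (e 0)) * (C (1 / p j) * X j), X (e 1) - C (p (e 1)) * (C (1 / p j) * X j),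
    X (e 2) - C (p (e 2)) * (C (1 / p j) * X j), C (1 / p j) * X j, ?_, ?_, ?_, ?_, ?_⟩
  · have hw2 := hw1.C_mul (1 / p j)
    refine hX.of_span (hx1.sub (hw2.C_mul _)) (hy1.sub (hw2.C_mul _)) (hz1.sub (hw2.C_mul _)) hw2
      ![![1, 0, 0, p (e 0)], ![0, 1, 0, p (e 1)], ![0, 0, 1, p (e 2)], ![0, 0, 0, p j]] ?_
    intro i
    fin_cases i
    · simp
    · simp
    · simp
    · show (X j : S) = C 0 * _ + C 0 * _ + C 0 * _ + C (p j) * (C (1 / p j) * X j)
      rw [C_0]
      linear_combination (-(X j : S)) * hC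
  · simp only [map_sub, map_mul, eval_X, eval_C]
    linear_combination (-p (e 0)) * hjj
  · simp only [map_sub, map_mul, eval_X, eval_C]
    linear_combination (-p (e 1)) * hjj
  · simp only [map_sub, map_mul, eval_X, eval_C]
    linear_combination (-p (e 2)) * hjj
  · simp only [map_mul, eval_X, eval_C]
    linear_combination hjj

theorem cone_form (g : S) (hg : g.IsHomogeneous 3) (p : Fin 4 → ℂ) (hp : p ≠ 0)
    (h1 : ∀ j, eval p (pderiv j g) = 0) (h2 : hess g p = 0) :
    ∃ x y z w : S, Lin4 x y z w ∧ eval p x = 0 ∧ eval p y = 0 ∧ eval p z = 0 ∧ eval p w = 1 ∧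
      InF 3 x y z g := by
  obtain ⟨x, y, z, w, hL, hx, hy, hz, hw⟩ := exists_coords p hp
  refine ⟨x, y, z, w, hL, hx, hy, hz, hw, ?_⟩
  obtain ⟨hx1, hy1, hz1, hw1⟩ := hL.hom
  obtain ⟨a, l, q, r, hl, hq, hr, he⟩ := decomp hL g hg
  obtain ⟨c0, c1, c2, hl'⟩ := coneD_lin hl
  have hq0 : ∀ j, eval p (pderiv j q) = 0 := fun j =>
    coneD_eval one_ne_zero (InF.pd hx1 hy1 hz1 hq j) p hx hy hz
  have hr0 : ∀ j, eval p (pderiv j r) = 0 := fun j =>
    coneD_eval two_ne_zero (InF.pd hx1 hy1 hz1 hr j) p hx hy hz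
  have hr00 : ∀ i j, eval p (pderiv i (pderiv j r)) = 0 := fun i j =>
    coneD_eval one_ne_zero (InF.pd hx1 hy1 hz1 (InF.pd hx1 hy1 hz1 hr j) i) p hx hy hz
  have hle : eval p l = 0 := coneD_eval one_ne_zero hl p hx hy hz
  have hqe : eval p q = 0 := coneD_eval two_ne_zero hq p hx hy hz
  -- the linear part
  have hφ : (C (3 * a) * w + l : S) = 0 := by
    apply lin_zero (p := p)
    · have h3 := hL.hom_comb c0 c1 c2 (3 * a)
      rw [hl']
      have h4 : (C (3 * a) * w + (C c0 * x + C c1 * y + C c2 * z) : S) =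
          C c0 * x + C c1 * y + C c2 * z + C (3 * a) * w := by ring
      rw [h4]
      exact h3
    · intro j
      have h3 := h1 j
      rw [he] at h3
      simp only [map_add, Derivation.leibniz, pow_succ, pow_zero, one_mul, smul_eq_mul, map_mul,
        pderiv_C, mul_zero, add_zero, hw, hle, hqe, hq0 j, hr0 j, eval_C, mul_one, zero_add,
        zero_mul] at h3
      simp only [map_add, Derivation.leibniz, smul_eq_mul, pderiv_C, mul_zero, add_zero, map_mul,
        eval_C]
      linear_combination h3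
  have hcoef : 3 * a = 0 ∧ c0 = 0 ∧ c1 = 0 ∧ c2 = 0 := by
    have h3 := (Fintype.linearIndependent_iff.1 hL.2) ![c0, c1, c2, 3 * a] (by
      rw [Fin.sum_univ_four]
      simp only [smul_eq_C_mul, Matrix.cons_val]
      rw [hl'] at hφ
      linear_combination hφ)
    exact ⟨h3 3, h3 0, h3 1, h3 2⟩
  have ha : a = 0 := by
    have := hcoef.1
    simpa using this
  have hl0 : l = 0 := by
    rw [hl', hcoef.2.1, hcoef.2.2.1, hcoef.2.2.2]
    simp
  -- the quadratic part
  have hq2 : q.IsHomogeneous 2 := by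
    obtain ⟨R, hR, rfl⟩ := hq
    have h3 := hR.aeval (n := 1) ![x, y, z] (by
      intro i
      fin_cases i
      · exact hx1
      · exact hy1
      · exact hz1)
    simpa using h3
  have hqz : q = 0 := by
    apply quad_zero hq2 p
    intro i j
    have h3 : eval p (pderiv i (pderiv j g)) = 0 := by
      have := congrFun (congrFun h2 i) j
      simpa [hess] using this
    rw [he, ha, hl0] at h3
    simp only [map_add, Derivation.leibniz, smul_eq_mul, map_mul, C_0, zero_mul, mul_zero,
      map_zero, zero_add, hw, hqe, hq0 i, hq0 j, hr00 i j, add_zero, one_mul] at h3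
    exact h3
  rw [he, ha, hl0, hqz]
  simpa using hr

end Pool.Agent.CLA
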