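import Mathlib

/-!
# CLA / Tern: ternary forms

PROOFS.
* `exists_dual3`: for a basis `![e, k, h]` of `ℂ^3` there are linear forms `l i` with `l_i(v)` = the `i`-th coordinate of `v`:
  rows of the inverse matrix, `l i = ∑ j, C (N i j) * X j`.
* `tern_weier`: `exists_tensor`, smoothness of `T` from `∑ i, eval p (pderiv i c) * v i = 3 tri T p p v`, `weier_basis`,
  `weier_disc`, `exists_dual3`; the polynomials agree because they agree at all points `p = x e + y k + z h`
  (`MvPolynomial.funext`, `tri_cube`).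
* `tern_q`, `tern_r`: `l` is a basis of the linear forms, so `X j = ∑ i, C (M j i) * l i`; a homogeneous polynomial of degree
  `2` (`3`) is a combination of the monomials `X_i X_j` (`X_i X_j X_k`) (for example by Euler's identity, or
  `exists_tensor` for degree three), substitute and collect.
-/

set_option autoImplicit false

namespace Pool.Agent.CLA

open MvPolynomial

/-- smooth ternary forms -/
def Sm3 (c : MvPolynomial (Fin 3) ℂ) : Prop :=
  ∀ p : Fin 3 → ℂ, p ≠ 0 → ∃ i, eval p (pderiv i c) ≠ 0

/-- three linearly independent linear forms -/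
def Lin3 (l : Fin 3 → MvPolynomial (Fin 3) ℂ) : Prop :=
  (∀ i, (l i).IsHomogeneous 1) ∧ LinearIndependent ℂ l

theorem exists_dual3 (v : Fin 3 → Fin 3 → ℂ) (hv : LinearIndependent ℂ v) :
    ∃ l : Fin 3 → MvPolynomial (Fin 3) ℂ, Lin3 l ∧
      ∀ p : Fin 3 → ℂ, p = ∑ i, eval p (l i) • v i := by
  obtain ⟨b, hb⟩ : ∃ b : Module.Basis (Fin 3) ℂ (Fin 3 → ℂ), ∀ i, b i = v i :=
    ⟨basisOfLinearIndependentOfCardEqFinrank hv (by simp), fun i => by simp⟩
  have hev : ∀ (i : Fin 3) (p : Fin 3 → ℂ),
      eval p (∑ j, C (b.coord i (Pi.single j 1)) * X j : MvPolynomial (Fin 3) ℂ) =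
        b.coord i p := by
    intro i p
    rw [map_sum]
    have h1 : p = ∑ j, p j • (Pi.single j (1 : ℂ) : Fin 3 → ℂ) := by
      funext k
      simp [Finset.sum_apply, Pi.single_apply]
    conv_rhs => rw [h1]
    rw [map_sum]
    refine Finset.sum_congr rfl fun j _ => ?_
    rw [map_smul, map_mul, eval_C, eval_X, smul_eq_mul, mul_comm]
  refine ⟨fun i => ∑ j, C (b.coord i (Pi.single j 1)) * X j, ⟨fun i => ?_, ?_⟩, fun p => ?_⟩
  · exact IsHomogeneous.sum _ _ _ fun j _ => isHomogeneous_C_mul_X _ _
  · rw [Fintype.linearIndependent_iff]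
    intro g hg k
    have h1 := congrArg (eval (b k)) hg
    rw [map_sum, map_zero] at h1
    have h2 : ∀ i ∈ (Finset.univ : Finset (Fin 3)), eval (b k) (g i •
        (∑ j, C (b.coord i (Pi.single j 1)) * X j : MvPolynomial (Fin 3) ℂ)) =
        if i = k then g k else 0 := by
      intro i _
      rw [smul_eval, hev, b.coord_apply, b.repr_self, Finsupp.single_apply]
      by_cases h : k = i
      · subst h
        simp
      · rw [if_neg h, if_neg (fun h' => h h'.symm), mul_zero]
    rw [Finset.sum_congr rfl h2, Finset.sum_ite_eq' Finset.univ k] at h1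
    simpa using h1
  · have h1 := (b.sum_repr p).symm
    conv_lhs => rw [h1]
    refine Finset.sum_congr rfl fun i _ => ?_
    show _ = eval p (∑ j, C (b.coord i (Pi.single j 1)) * X j : MvPolynomial (Fin 3) ℂ) • v i
    rw [hev, b.coord_apply, hb]

end Pool.Agent.CLA
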