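import Pool.Agent.CLA.Lin
import Pool.Agent.CLA.InF
import Pool.Agent.CLA.Roots
import Pool.Agent.CLA.Tern

/-!
# CLA / ConeS: the plane cubic is smooth

PROOFS.
* `decomp`: every cubic form `F` is `C a * w^3 + w^2 * l + w * q + r` with forms `l, q, r` of degrees `1, 2, 3` in `x, y, z`:
  write `X j` as combinations of `x, y, z, w` (`Lin4` is a basis of the linear forms), so `F = aeval ![x,y,z,w] G` with a
  quaternary cubic form `G`; sort `G` by powers of the last variable (`finSuccEquiv` or sums over monomials).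
* `cone_form`: extend `p` to a basis of `ℂ^4`, let `w, x, y, z` be the dual linear forms, `w(p) = 1`, `x(p) = y(p) = z(p) = 0`.
  `decomp` for `g`: `a = g(p) = 0` (Euler), `l = 0` as its coefficients are the derivatives of `g` at `p`, and `q = 0` as its
  coefficients are second derivatives of `g` at `p` (evaluate the gradient and the Hessian of
  `a w^3 + w^2 l + w q + r` at `p`; use the dual points of `Lin4.exists_dual` as directions).
* `second_form`: `decomp`, `a = g(p) ≠ 0`; let `k^3 = a`, `w' = k w + (1/(3 k^2)) l`: `w'^3 = a w^3 + w^2 l + ...` (the remaining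
  terms are `w` times a quadratic form plus a cubic form in `x, y, z`), and `w = (w' - (1/(3k^2)) l)/k`.
* `smooth_tern`: suppose `p3 ≠ 0` is a singular point of `c`; choose `w0` with `w0^3 + w0 q(p3) + r(p3) = 0` (`exists_root3`) and `P`
  with `(x, y, z)(P) = p3`, `w(P) = w0` (`Lin4.exists_point`); `g0(P) = c(p3) = 0` (Euler), `g1(P) = 0`, `P ≠ 0`, and all
  derivatives of `g0 = aeval ![x, y, z] c` vanish at `P` (chain rule): contradiction to `SmB`.
* `vertex_ne`: if `g1(p) = 0` at the vertex `p` (`x = y = z = 0`, `w = 1`) then `g0(p) = 0`, and the gradient of `g0` at `p` is `0`: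
  contradiction to `SmB`.
* `lift3`: `Lin3 l` and `Lin4 x y z w` give `Lin4 (aeval ![x,y,z] (l 0)) ... w`.
-/

set_option autoImplicit false

namespace Pool.Agent.CLA

open MvPolynomial Pool.Agent.CLU

private theorem cs_chain (x : Fin 3 → S) (R : MvPolynomial (Fin 3) ℂ) (k : Fin 4) :
    pderiv k (aeval x R) = ∑ j, aeval x (pderiv j R) * pderiv k (x j) := by
  classical
  induction R using MvPolynomial.induction_on with
  | C a =>
    rw [aeval_C, MvPolynomial.algebraMap_eq, pderiv_C]
    symm
    apply Finset.sum_eq_zero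
    intro j _
    rw [pderiv_C, map_zero, zero_mul]
  | add p q hp hq =>
    rw [map_add, map_add, hp, hq, ← Finset.sum_add_distrib]
    apply Finset.sum_congr rfl
    intro j _
    rw [map_add, map_add, add_mul]
  | mul_X p i hp =>
    rw [map_mul, aeval_X, pderiv_mul, hp, Finset.sum_mul]
    have h1 : ∀ j, aeval x (pderiv j (p * X i)) * pderiv k (x j) =
        aeval x (pderiv j p) * pderiv k (x j) * x i +
          aeval x p * ((if j = i then (1 : S) else 0) * pderiv k (x j)) := by
      intro j
      rw [pderiv_mul, map_add, map_mul, map_mul, aeval_X]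
      by_cases hji : j = i
      · subst hji
        rw [pderiv_X_self, map_one, if_pos rfl]
        ring
      · rw [pderiv_X_of_ne (fun h => hji h.symm), map_zero, if_neg hji]
        ring
    rw [Finset.sum_congr rfl (fun j _ => h1 j), Finset.sum_add_distrib, ← Finset.mul_sum]
    congr 2
    rw [Finset.sum_eq_single i]
    · rw [if_pos rfl, one_mul]
    · intro b _ hb
      rw [if_neg hb, zero_mul]
    · intro h
      exact absurd (Finset.mem_univ i) h

private theorem cs_eval (P : Fin 4 → ℂ) (x : Fin 3 → S) (R : MvPolynomial (Fin 3) ℂ) :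
    eval P (aeval x R) = eval (fun j => eval P (x j)) R := by
  have h : ((aeval P : S →ₐ[ℂ] ℂ).comp (aeval x)) = aeval (fun j => eval P (x j)) := by
    apply algHom_ext
    intro i
    rw [AlgHom.comp_apply, aeval_X, aeval_X]
    rfl
  exact DFunLike.congr_fun h R

private theorem cs_zero {σ : Type} {R : MvPolynomial σ ℂ} {n : ℕ} (h : R.IsHomogeneous n)
    (hn : n ≠ 0) : eval (0 : σ → ℂ) R = 0 := by
  have h1 : eval (0 : σ → ℂ) R = constantCoeff R := by
    simp
  rw [h1, constantCoeff_eq]
  refine h.coeff_eq_zero ?_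
  rw [map_zero]
  exact hn.symm

private theorem cs_grad (P : Fin 4 → ℂ) (x : Fin 3 → S) (R : MvPolynomial (Fin 3) ℂ)
    (h : ∀ j, eval (fun j => eval P (x j)) (pderiv j R) = 0) (k : Fin 4) :
    eval P (pderiv k (aeval x R)) = 0 := by
  rw [cs_chain, map_sum]
  refine Finset.sum_eq_zero fun j _ => ?_
  rw [map_mul, cs_eval, h j, zero_mul]

private theorem cs_smb {g0 g1 : S} (hS : SmB g0 g1) (P : Fin 4 → ℂ) (hP : P ≠ 0)
    (h0 : eval P g0 = 0) (h1 : eval P g1 = 0) (hg : ∀ k, eval P (pderiv k g0) = 0) : False := by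
  have h2 := (hS P hP h0 h1).ne_zero 0
  apply h2
  funext k
  exact hg k

theorem vertex_ne {x y z w : S} (h : Lin4 x y z w) (g0 g1 : S) (p : Fin 4 → ℂ)
    (hx : eval p x = 0) (hy : eval p y = 0) (hz : eval p z = 0) (hw : eval p w = 1)
    (h0 : InF 3 x y z g0) (hS : SmB g0 g1) : eval p g1 ≠ 0 := by
  intro h1
  obtain ⟨R, hR, hg0⟩ := h0
  have hv : (fun j => eval p (![x, y, z] j)) = (0 : Fin 3 → ℂ) := by
    funext j
    fin_cases j
    · exact hx
    · exact hy
    · exact hz
  have hp : p ≠ 0 := by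
    rintro rfl
    have h2 := cs_zero h.hom.2.2.2 one_ne_zero
    rw [h2] at hw
    exact zero_ne_one hw
  refine cs_smb hS p hp ?_ h1 ?_
  · rw [hg0, cs_eval, hv]
    exact cs_zero hR (by norm_num)
  · rw [hg0]
    refine cs_grad p _ R ?_
    intro j
    rw [hv]
    exact cs_zero (hR.pderiv (i := j)) (by norm_num)

theorem smooth_tern {x y z w : S} (h : Lin4 x y z w) (c : MvPolynomial (Fin 3) ℂ)
    (hc : c.IsHomogeneous 3) (q r : S) (hq : InF 2 x y z q) (hr : InF 3 x y z r)
    (hS : SmB (aeval ![x, y, z] c) (w ^ 3 + w * q + r)) : Sm3 c := by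
  intro p3 hp3
  by_contra hcon
  push Not at hcon
  obtain ⟨Q, hQ, rfl⟩ := hq
  obtain ⟨R, hR, rfl⟩ := hr
  obtain ⟨w0, hw0⟩ := exists_root3 1 0 (eval p3 Q) (eval p3 R) (fun h => one_ne_zero h.1)
  obtain ⟨P, hPx, hPy, hPz, hPw⟩ := h.exists_point (p3 0) (p3 1) (p3 2) w0
  have hv : (fun j => eval P (![x, y, z] j)) = p3 := by
    funext j
    fin_cases j
    · exact hPx
    · exact hPy
    · exact hPz
  have hP : P ≠ 0 := by
    rintro rfl
    apply hp3
    obtain ⟨hx, hy, hz, -⟩ := h.hom
    rw [cs_zero hx one_ne_zero] at hPx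
    rw [cs_zero hy one_ne_zero] at hPy
    rw [cs_zero hz one_ne_zero] at hPz
    funext j
    fin_cases j
    · exact hPx.symm
    · exact hPy.symm
    · exact hPz.symm
  refine cs_smb hS P hP ?_ ?_ ?_
  · rw [cs_eval, hv]
    have h1 := hc.sum_X_mul_pderiv
    have h2 := congrArg (eval p3) h1
    rw [map_sum, Finset.sum_eq_zero (fun j _ => by rw [map_mul, hcon j, mul_zero]), map_nsmul,
      nsmul_eq_mul] at h2
    have h3 : ((3 : ℕ) : ℂ) ≠ 0 := by norm_num
    exact (mul_eq_zero.1 h2.symm).resolve_left h3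
  · rw [map_add, map_add, map_mul, map_pow, cs_eval, cs_eval, hv, hPw]
    linear_combination hw0
  · refine cs_grad P _ c ?_
    intro j
    rw [hv]
    exact hcon j

theorem lift3 {x y z w : S} (h : Lin4 x y z w) (l : Fin 3 → MvPolynomial (Fin 3) ℂ)
    (hl : Lin3 l) :
    Lin4 (aeval ![x, y, z] (l 0)) (aeval ![x, y, z] (l 1)) (aeval ![x, y, z] (l 2)) w := by
  obtain ⟨hx, hy, hz, hw⟩ := h.hom
  refine ⟨?_, ?_⟩
  · have hv : ∀ i, (![x, y, z] i).IsHomogeneous 1 := by
      intro i
      fin_cases i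
      · exact hx
      · exact hy
      · exact hz
    have ha : ∀ i, (aeval ![x, y, z] (l i)).IsHomogeneous 1 := fun i => by
      have h1 := (hl.1 i).aeval ![x, y, z] hv
      simpa using h1
    intro i
    fin_cases i
    · exact ha 0
    · exact ha 1
    · exact ha 2
    · exact hw
  · rw [Fintype.linearIndependent_iff]
    intro g hg
    have hg' : g 0 • aeval ![x, y, z] (l 0) + g 1 • aeval ![x, y, z] (l 1) +
        g 2 • aeval ![x, y, z] (l 2) + g 3 • w = 0 := by
      rw [Fin.sum_univ_four] at hg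
      exact hg
    have hL : g 0 • l 0 + g 1 • l 1 + g 2 • l 2 ∈ homogeneousSubmodule (Fin 3) ℂ 1 :=
      Submodule.add_mem _ (Submodule.add_mem _ (Submodule.smul_mem _ _ (hl.1 0))
        (Submodule.smul_mem _ _ (hl.1 1))) (Submodule.smul_mem _ _ (hl.1 2))
    rw [homogeneousSubmodule_one_eq_span_X, Submodule.mem_span_range_iff_exists_fun] at hL
    obtain ⟨c, hc⟩ := hL
    rw [Fin.sum_univ_three] at hc
    have h1 := congrArg (aeval ![x, y, z]) hc
    simp only [map_add, map_smul, aeval_X] at h1
    have h2 : c 0 • x + c 1 • y + c 2 • z + g 3 • w = 0 := by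
      rw [← hg', ← h1]
      rfl
    have h3 := Fintype.linearIndependent_iff.1 h.2 ![c 0, c 1, c 2, g 3] (by
      rw [Fin.sum_univ_four]
      exact h2)
    have c0 : c 0 = 0 := h3 0
    have c1 : c 1 = 0 := h3 1
    have c2 : c 2 = 0 := h3 2
    have g3 : g 3 = 0 := h3 3
    rw [c0, c1, c2, zero_smul, zero_smul, zero_smul, add_zero, add_zero] at hc
    have h4 := Fintype.linearIndependent_iff.1 hl.2 ![g 0, g 1, g 2] (by
      rw [Fin.sum_univ_three]
      exact hc.symm)
    intro i
    fin_cases i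
    · exact h4 0
    · exact h4 1
    · exact h4 2
    · exact g3

end Pool.Agent.CLA
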