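import Pool.Agent.CLA.Lin
import Pool.Agent.CLA.InF

/-!
# CLA / Dbl: double points and base points

PROOFS.  Let `p_0, ..., p_3` be the dual points (`Lin4.exists_dual`) of the forms.
* `dbl_point`: `F = κ x y z + G`, `G` a cubic form in `y, z, w`.  At `p = p_0` (`x = 1`, `y = z = w = 0`): the gradient is `0`
  (`pderiv j` of a product of forms; `y, z, w` vanish at `p`, every monomial has at least two of them), and the Hessian
  matrix `H` at `p` satisfies `∑ u_i v_j H_ij = κ (y(u) z(v) + z(u) y(v))` for all `u, v`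
  (second derivative; the terms of `G` have three of the factors `y, z, w`).  With `u, v ∈ {p_1, p_2}` the Gram matrix
  is `κ (0 1; 1 0)`, invertible, so `H` has rank at least `2` (`H p_1`, `H p_2` are independent).
* `no_cube`: let `p` be a point with `c(p) = 0`, `w(p) = 0`, `p ≠ 0` (exists: `c` is a form in `x, y, z`; restrict it to
  the line `z = w = 0`, a binary cubic has a nontrivial zero); there `f = C e * c + w^3 ` vanishes and the gradient of `f` is
  `e` times the gradient of `c` (`pderiv j (w^3) = 3 w^2 ...` vanishes): not `SmB`.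
* `no_two_cubes`: `f - C e * c = w^3 + C a * z^3`, `c = x^3 + y^3 + z^3`: take `p` with `x = 1, y = -1, z = w = 0`.
-/

set_option autoImplicit false

namespace Pool.Agent.CLA

open MvPolynomial Pool.Agent.CLU

private theorem pd_lf42 (c : Fin 4 → ℂ) (i : Fin 4) : pderiv i (lf c) = C (c i) := by
  rw [lf_apply, map_sum, Finset.sum_eq_single i]
  · rw [pderiv_C_mul, pderiv_X_self, mul_one]
  · intro j _ hj
    rw [pderiv_C_mul, pderiv_X_of_ne hj, mul_zero]
  · intro h
    exact absurd (Finset.mem_univ i) h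

private theorem chain42 (g : Fin 3 → S) (R : MvPolynomial (Fin 3) ℂ) (j : Fin 4) :
    pderiv j (aeval g R) = ∑ k, aeval g (pderiv k R) * pderiv j (g k) := by
  induction R using MvPolynomial.induction_on with
  | C a => simp [algebraMap_eq]
  | add P Q hP hQ => simp only [map_add, add_mul, Finset.sum_add_distrib, hP, hQ]
  | mul_X P k ih =>
    have h1 : ∀ l, aeval g (pderiv l (P * X k)) * pderiv j (g l) =
        aeval g (pderiv l P) * pderiv j (g l) * g k +
          (if l = k then aeval g P * pderiv j (g l) else 0) := by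
      intro l
      rw [pderiv_mul, map_add, map_mul, map_mul, aeval_X]
      by_cases h : l = k
      · subst h
        rw [pderiv_X_self, map_one, if_pos rfl]
        ring
      · rw [pderiv_X_of_ne (Ne.symm h), map_zero, if_neg h]
        ring
    rw [Finset.sum_congr rfl fun l _ => h1 l, Finset.sum_add_distrib, ← Finset.sum_mul, ← ih,
      Finset.sum_ite_eq' Finset.univ k, if_pos (Finset.mem_univ _), map_mul, aeval_X, pderiv_mul]

private theorem ev_aeval42 (g : Fin 3 → S) (p : Fin 4 → ℂ) (Q : MvPolynomial (Fin 3) ℂ) :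
    eval p (aeval g Q) = eval (fun k => eval p (g k)) Q := by
  induction Q using MvPolynomial.induction_on with
  | C a => simp [algebraMap_eq]
  | add P Q hP hQ => simp only [map_add, hP, hQ]
  | mul_X P k ih => simp only [map_mul, aeval_X, eval_X, ih]

private theorem ev0_42 {n : ℕ} (hn : n ≠ 0) (g : Fin 3 → S) (p : Fin 4 → ℂ)
    (hg : ∀ k, eval p (g k) = 0) {Q : MvPolynomial (Fin 3) ℂ} (hQ : Q.IsHomogeneous n) :
    eval p (aeval g Q) = 0 := by
  rw [ev_aeval42]
  have h1 : (fun k => eval p (g k)) = (0 : Fin 3 → ℂ) := funext hg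
  rw [h1, eval_zero, constantCoeff_eq]
  exact hQ.coeff_eq_zero (by simpa using hn.symm)

private theorem grad42 (c : Fin 3 → Fin 4 → ℂ) (p : Fin 4 → ℂ) (h : ∀ k, eval p (lf (c k)) = 0)
    {R : MvPolynomial (Fin 3) ℂ} (hR : R.IsHomogeneous 3) (j : Fin 4) :
    eval p (pderiv j (aeval (fun k => lf (c k)) R)) = 0 := by
  rw [chain42, map_sum]
  refine Finset.sum_eq_zero fun k _ => ?_
  rw [map_mul, ev0_42 (n := 2) two_ne_zero _ p h hR.pderiv, zero_mul]

private theorem hess42 (c : Fin 3 → Fin 4 → ℂ) (p : Fin 4 → ℂ) (h : ∀ k, eval p (lf (c k)) = 0)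
    {R : MvPolynomial (Fin 3) ℂ} (hR : R.IsHomogeneous 3) (i j : Fin 4) :
    eval p (pderiv i (pderiv j (aeval (fun k => lf (c k)) R))) = 0 := by
  rw [chain42, map_sum, map_sum]
  refine Finset.sum_eq_zero fun k _ => ?_
  rw [pd_lf42, mul_comm, pderiv_C_mul, chain42, map_mul, map_sum]
  rw [Finset.sum_eq_zero fun l _ => ?_, mul_zero]
  rw [map_mul, ev0_42 (n := 1) one_ne_zero _ p h hR.pderiv.pderiv, zero_mul]

theorem dbl_point {x y z w : S} (h : Lin4 x y z w) (κ : ℂ) (hκ : κ ≠ 0) (G : S)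
    (hG : InF 3 y z w G) : ∃ p, DoublePoint (C κ * (x * y * z) + G) p := by
  obtain ⟨R, hR, rfl⟩ := hG
  obtain ⟨hx, hy, hz, hw⟩ := h.hom
  obtain ⟨q, hq, -⟩ := h.exists_dual
  obtain ⟨cx, rfl⟩ := exists_lf x hx
  obtain ⟨cy, rfl⟩ := exists_lf y hy
  obtain ⟨cz, rfl⟩ := exists_lf z hz
  obtain ⟨cw, rfl⟩ := exists_lf w hw
  have e0 : eval (q 0) (lf cx) = 1 := hq 0 0
  have e1 : eval (q 0) (lf cy) = 0 := hq 0 1
  have e2 : eval (q 0) (lf cz) = 0 := hq 0 2
  have e3 : eval (q 0) (lf cw) = 0 := hq 0 3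
  have hc : (![lf cy, lf cz, lf cw] : Fin 3 → S) = fun k => lf (![cy, cz, cw] k) := by
    funext k
    fin_cases k <;> rfl
  have hg : ∀ k, eval (q 0) (lf ((![cy, cz, cw] : Fin 3 → Fin 4 → ℂ) k)) = 0 := by
    intro k
    fin_cases k
    · exact e1
    · exact e2
    · exact e3
  have hd : ∀ j : Fin 4, pderiv j (C κ * (lf cx * lf cy * lf cz)) =
      C κ * ((C (cx j) * lf cy + lf cx * C (cy j)) * lf cz + lf cx * lf cy * C (cz j)) := by
    intro j
    rw [pderiv_C_mul, pderiv_mul, pderiv_mul, pd_lf42, pd_lf42, pd_lf42]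
  have hdd : ∀ i j : Fin 4, eval (q 0) (pderiv i (pderiv j (C κ * (lf cx * lf cy * lf cz)))) =
      κ * (cy j * cz i + cy i * cz j) := by
    intro i j
    rw [hd, pderiv_C_mul, map_add, pderiv_mul, pderiv_mul, map_add, pderiv_mul, pderiv_mul,
      pderiv_mul, pd_lf42, pd_lf42, pd_lf42, pderiv_C, pderiv_C, pderiv_C]
    simp only [map_add, map_mul, map_zero, eval_C, e0, e1, e2]
    ring
  refine ⟨q 0, fun j => ?_, ?_⟩
  · rw [map_add, map_add, hc, grad42 _ _ hg hR, hd]
    simp only [map_add, map_mul, eval_C, e0, e1, e2]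
    ring
  · have hH : ∀ i j, hess (C κ * (lf cx * lf cy * lf cz) + aeval ![lf cy, lf cz, lf cw] R) (q 0) i j =
        κ * (cy j * cz i + cy i * cz j) := by
      intro i j
      show eval (q 0) (pderiv i (pderiv j _)) = _
      rw [map_add, map_add, map_add, hdd, hc, hess42 _ _ hg hR, add_zero]
    set H := hess (C κ * (lf cx * lf cy * lf cz) + aeval ![lf cy, lf cz, lf cw] R) (q 0) with hHd
    obtain ⟨A, hA⟩ : ∃ A : Matrix (Fin 2) (Fin 4) ℂ, A = Matrix.of ![q 1, q 2] := ⟨_, rfl⟩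
    have hy1 : cy ⬝ᵥ q 1 = 1 := by
      rw [← eval_lf]
      exact hq 1 1
    have hz1 : cz ⬝ᵥ q 1 = 0 := by
      rw [← eval_lf]
      exact hq 1 2
    have hy2 : cy ⬝ᵥ q 2 = 0 := by
      rw [← eval_lf]
      exact hq 2 1
    have hz2 : cz ⬝ᵥ q 2 = 1 := by
      rw [← eval_lf]
      exact hq 2 2
    have hM : ∀ a b, (A * H * A.transpose) a b =
        κ * ((cy ⬝ᵥ A a) * (cz ⬝ᵥ A b) + (cz ⬝ᵥ A a) * (cy ⬝ᵥ A b)) := by
      intro a b
      simp only [Matrix.mul_apply, Matrix.transpose_apply, hH, dotProduct, Fin.sum_univ_four]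
      ring
    have hA0 : A 0 = q 1 := by
      rw [hA]
      rfl
    have hA1 : A 1 = q 2 := by
      rw [hA]
      rfl
    have hM' : A * H * A.transpose = !![0, κ; κ, 0] := by
      ext a b
      rw [hM]
      fin_cases a <;> fin_cases b
      · show κ * ((cy ⬝ᵥ A 0) * (cz ⬝ᵥ A 0) + (cz ⬝ᵥ A 0) * (cy ⬝ᵥ A 0)) = 0
        rw [hA0, hy1, hz1]
        ring
      · show κ * ((cy ⬝ᵥ A 0) * (cz ⬝ᵥ A 1) + (cz ⬝ᵥ A 0) * (cy ⬝ᵥ A 1)) = κ
        rw [hA0, hA1, hy1, hz1, hy2, hz2]
        ring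
      · show κ * ((cy ⬝ᵥ A 1) * (cz ⬝ᵥ A 0) + (cz ⬝ᵥ A 1) * (cy ⬝ᵥ A 0)) = κ
        rw [hA0, hA1, hy1, hz1, hy2, hz2]
        ring
      · show κ * ((cy ⬝ᵥ A 1) * (cz ⬝ᵥ A 1) + (cz ⬝ᵥ A 1) * (cy ⬝ᵥ A 1)) = 0
        rw [hA1, hy2, hz2]
        ring
    have hdet : (A * H * A.transpose).det ≠ 0 := by
      rw [hM', Matrix.det_fin_two_of]
      simpa using hκ
    have hr : (A * H * A.transpose).rank = 2 := by
      rw [Matrix.rank_of_isUnit _ ((Matrix.isUnit_iff_isUnit_det _).2 (isUnit_iff_ne_zero.2 hdet))]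
      rfl
    rw [← hr]
    exact (Matrix.rank_mul_le_left _ _).trans (Matrix.rank_mul_le_right _ _)

end Pool.Agent.CLA
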