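import Pool.Agent.CLU.Pencil

/-!
# CLA / Defs: pencils of cubic surfaces with a cone member

The complete paper proof is in the team store, file cla_proof.md.
`S` is the polynomial ring in four variables over `ℂ` (`CLU/Defs`).
-/

set_option autoImplicit false

namespace Pool.Agent.CLA

open MvPolynomial Pool.Agent.CLU

/-- Four linearly independent linear forms. -/
def Lin4 (x y z w : S) : Prop :=
  (∀ i, (![x, y, z, w] i).IsHomogeneous 1) ∧ LinearIndependent ℂ ![x, y, z, w]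

/-- `F` is a form of degree `d` in `u, v, s`. -/
def InF (d : ℕ) (u v s F : S) : Prop :=
  ∃ R : MvPolynomial (Fin 3) ℂ, R.IsHomogeneous d ∧ F = aeval ![u, v, s] R

/-- No nodal quartic in the ideal of the pencil. -/
def NoNod (c f : S) : Prop := ∀ B ∈ Ideal.span {c, f}, ¬ NodalQuartic B

/-- The base locus `c = f = 0` is a smooth complete intersection curve (same as
`ISO.SmoothBase`). -/
def SmB (c f : S) : Prop :=
  ∀ p : Fin 4 → ℂ, p ≠ 0 → eval p c = 0 → eval p f = 0 →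
    LinearIndependent ℂ ![fun i => eval p (pderiv i c), fun i => eval p (pderiv i f)]

/-- The hypotheses on the pencil. -/
structure PenH (c f : S) : Prop where
  base : SmB c f
  dbl : ∀ a b : ℂ, (a, b) ≠ (0, 0) → ∀ p, ¬ DoublePoint (C a * c + C b * f) p
  nod : NoNod c f

/-- The pencil is diagonal (same as `CLN.IsDiagonal`). -/
def Dia (P : Ideal S) : Prop :=
  ∃ (l : Fin 4 → S) (a : Fin 4 → ℂ), (∀ i, (l i).IsHomogeneous 1) ∧ LinearIndependent ℂ l ∧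
    Function.Injective a ∧ P = Ideal.span {∑ i, l i ^ 3, ∑ i, C (a i) * l i ^ 3}

/-- Quadratic forms in `x, y, z`. -/
noncomputable def qd (A B D E F G : ℂ) (x y z : S) : S :=
  C A * x ^ 2 + C (2 * B) * (x * y) + C D * y ^ 2 + C (2 * E) * (x * z) + C (2 * F) * (y * z) +
    C G * z ^ 2

/-- Cubic forms in `x, y, z`. -/
noncomputable def cu (R s1 s2 p0 p1 p2 t0 t1 t2 t3 : ℂ) (x y z : S) : S :=
  C R * x ^ 3 + x ^ 2 * (C s1 * y + C s2 * z) + x * (C p0 * y ^ 2 + C p1 * (y * z) + C p2 * z ^ 2) +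
    (C t0 * y ^ 3 + C t1 * (y ^ 2 * z) + C t2 * (y * z ^ 2) + C t3 * z ^ 3)

/-- The normal form of a plane cubic at a flex. -/
noncomputable def wei (a ε ζ : ℂ) (x y z : S) : S :=
  x ^ 2 * z + C a * y ^ 3 + C ε * (y * z ^ 2) + C ζ * z ^ 3

/-- The Hesse form. -/
noncomputable def hes (m : ℂ) (X Y Z : S) : S := X ^ 3 + Y ^ 3 + Z ^ 3 + C (3 * m) * (X * Y * Z)

/-- The coefficients of a quadratic form. -/
structure Qf where
  q1 : ℂ
  q2 : ℂ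
  q3 : ℂ
  q12 : ℂ
  q13 : ℂ
  q23 : ℂ

/-- The coefficients of a cubic form. -/
structure Cf where
  a1 : ℂ
  a2 : ℂ
  a3 : ℂ
  b12 : ℂ
  b13 : ℂ
  b21 : ℂ
  b23 : ℂ
  b31 : ℂ
  b32 : ℂ
  d : ℂ

/-- The quadratic form with coefficients `q`. -/
noncomputable def Qf.ev (q : Qf) (X Y Z : S) : S :=
  C q.q1 * X ^ 2 + C q.q2 * Y ^ 2 + C q.q3 * Z ^ 2 + C (2 * q.q12) * (X * Y) +
    C (2 * q.q13) * (X * Z) + C (2 * q.q23) * (Y * Z)

/-- The cubic form with coefficients `r`. -/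
noncomputable def Cf.ev (r : Cf) (X Y Z : S) : S :=
  C r.a1 * X ^ 3 + C r.a2 * Y ^ 3 + C r.a3 * Z ^ 3 + C r.b12 * (X ^ 2 * Y) +
    C r.b13 * (X ^ 2 * Z) + C r.b21 * (Y ^ 2 * X) + C r.b23 * (Y ^ 2 * Z) +
    C r.b31 * (Z ^ 2 * X) + C r.b32 * (Z ^ 2 * Y) + C r.d * (X * Y * Z)

/-- The pencil `⟨X^3+Y^3+Z^3+3mXYZ, W^3+Wq+r⟩`, second generator. -/
noncomputable def gen (q : Qf) (r : Cf) (X Y Z W : S) : S := W ^ 3 + W * q.ev X Y Z + r.ev X Y Z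

/-- Cyclic permutation: `q.ev X Y Z = q.cyc.ev Y Z X`. -/
def Qf.cyc (q : Qf) : Qf := ⟨q.q2, q.q3, q.q1, q.q23, q.q12, q.q13⟩

/-- Cyclic permutation: `r.ev X Y Z = r.cyc.ev Y Z X`. -/
def Cf.cyc (r : Cf) : Cf :=
  ⟨r.a2, r.a3, r.a1, r.b23, r.b21, r.b32, r.b31, r.b12, r.b13, r.d⟩

/-- Twist: `q.ev X (t Y) (t^2 Z) = (q.tw t).ev X Y Z` if `t^3 = 1`. -/
def Qf.tw (t : ℂ) (q : Qf) : Qf :=
  ⟨q.q1, t ^ 2 * q.q2, t * q.q3, t * q.q12, t ^ 2 * q.q13, q.q23⟩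

/-- Twist: `r.ev X (t Y) (t^2 Z) = (r.tw t).ev X Y Z` if `t^3 = 1`. -/
def Cf.tw (t : ℂ) (r : Cf) : Cf :=
  ⟨r.a1, r.a2, r.a3, t * r.b12, t ^ 2 * r.b13, t ^ 2 * r.b21, t * r.b23, t * r.b31,
    t ^ 2 * r.b32, r.d⟩

/-- The zero quadratic form. -/
def Qf.zero : Qf := ⟨0, 0, 0, 0, 0, 0⟩

/-- The coefficients at the flex `(0, 1, -1)`. -/
def Cf.fa (r : Cf) : ℂ := r.b12 - r.b13
/-- The coefficients at the flex `(0, 1, -1)`. -/
def Cf.fb (r : Cf) : ℂ := r.b21 - r.b31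
/-- The coefficients at the flex `(0, 1, -1)`. -/
def Cf.fc (r : Cf) : ℂ := 3 * (r.a2 - r.a3) + (r.b23 - r.b32)
/-- The coefficients at the flex `(0, 1, -1)`. -/
def Cf.fr (r : Cf) : ℂ := (r.a2 - r.a3) - (r.b23 - r.b32)

/-- The directions `(A', B', C')` and `(A*, B*, C*)`. -/
def dA (m : ℂ) : ℂ := -m ^ 2 * (80 + 52 * m ^ 3 - m ^ 6)
/-- The directions `(A', B', C')` and `(A*, B*, C*)`. -/
def dB (m : ℂ) : ℂ := m * (64 + 20 * m ^ 3 + 10 * m ^ 6)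
/-- The directions `(A', B', C')` and `(A*, B*, C*)`. -/
def dC (m : ℂ) : ℂ := 64 + 128 * m ^ 3 - 44 * m ^ 6
/-- The directions `(A', B', C')` and `(A*, B*, C*)`. -/
def eA (m : ℂ) : ℂ := -m ^ 2 * (m ^ 3 + 28)
/-- The directions `(A', B', C')` and `(A*, B*, C*)`. -/
def eB (m : ℂ) : ℂ := m * (11 * m ^ 3 - 16)
/-- The directions `(A', B', C')` and `(A*, B*, C*)`. -/
def eC (m : ℂ) : ℂ := -(3 * m ^ 6 - 8 * m ^ 3 + 16)

/-- The pencil with the coefficients `m, q, r`, in some coordinates. -/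
def HP (m : ℂ) (q : Qf) (r : Cf) : Prop :=
  ∃ X Y Z W : S, Lin4 X Y Z W ∧ PenH (hes m X Y Z) (gen q r X Y Z W)

/-- The general parameters of the Hesse pencil. -/
def Gen (m : ℂ) : Prop := m ≠ 0 ∧ m ^ 3 ≠ 8 ∧ 1 + m ^ 3 ≠ 0

/-- The coordinate `x` at the flex `(0, 1, -1)`. -/
noncomputable def fx (Y Z : S) : S := C (1 / 2) * (Y - Z)

/-- The coordinate `y` at the flex `(0, 1, -1)`. -/
noncomputable def fy (m : ℂ) (X Y Z : S) : S := C (4 + m ^ 3) * X + C (3 * m ^ 2) * (Y + Z)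

/-- The coordinate `z` at the flex `(0, 1, -1)`. -/
noncomputable def fz (m : ℂ) (X Y Z : S) : S := C 3 * (Y + Z) - C (3 * m) * X

end Pool.Agent.CLA
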