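import Pool.Agent.CLA.FlT

/-!
# CLA / FlZ: the case `r = 0`

Here `TyR` with `r = 0` says `ρ(t) = 0` and `ρ'(t) = 0`.

PROOF of `flex_z0` (`p0 = 0`).  If `p1 = p2 = 0` done.  Otherwise `W` has a root `t` (`exists_root3`).  Type `TyR`: `p1 = 0`,
`p2 = 0`.  Type `TyT`: `3 N t = 0`, `N ≠ 0`, so `t = 0`, `p1 = N ε`, `p2 = N ζ`: done.

PROOF of `flex_z1` (`p0 ≠ 0`).  It suffices to find two different roots of `W` of type `TyT` (`two_T`).
(i) There is a root of type `TyT`: otherwise all roots of `W` (there is one, `exists_root4`) have `ρ(t) = ρ'(t) = 0`, so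
they are equal to `t = -p1/(2 p0)`, `ρ = p0 (y - t)^2`, and `W(y) = p0 (y - t) K(y)`,
`K(y) = - y^3 + 3 t y^2 + ε y + (2 ζ + ε t)`.  `K` has a root (`exists_root3`), it must be `t`: `0 = K(t) = 2 c(t)`;
`K(y) = (y - t) (- y^2 + 2 t y + (ε + 2 t^2))` (using `K(t) = 0`); a root `t'` of the second factor is `t`, so
`t^2 + ε + 2 t^2 = 0`, `c'(t) = 0`: contradiction to `cc_ne`.
(ii) Let `t1` be of type `TyT` (with `N1 ≠ 0`, as `p0 ≠ 0`).  `W(y) = (y - t1)^2 V(y)`,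
`V(y) = (y - t1) ρ'(y) - 3 ρ(y) = - p0 y^2 - 2 (p1 + p0 t1) y - (p1 t1 + 3 p2)`.
Claim: `V` has a root `t3 ≠ t1` of type `TyT`.
 (α) If `V(t1) = 0` then `ρ(t1) = 0`; the other root of `V` is `t3 = - 2 (p1 + p0 t1)/p0 - t1`, i.e. `t3 = 2 μ - t1` with
 `μ = - p1/p0 - t1` the other root of `ρ`.  `ρ'(t1) ≠ 0`: otherwise `N1 c(t1) = ρ(t1) = 0` and `N1 c'(t1) = ρ'(t1) = 0`
 (from `TyT`), contradiction to `cc_ne`; so `μ ≠ t1`, `t3 ≠ t1`.  `t3` is a root of `W`; it is of type `TyT`, because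
 `ρ(t3) = ρ'(t3) = 0` is impossible (`ρ` has two different roots `t1, μ`).
 (β) If `V(t1) ≠ 0`, let `t2` be a root of `V` (`exists_root3`), `t2 ≠ t1`.  If it is of type `TyT` done.  Otherwise
 `ρ = p0 (y - t2)^2` and `V(y) = p0 (y - t2) (- y - 2 t1 + 3 t2)`: put `t3 = 3 t2 - 2 t1`, `t3 ≠ t1`, `t3 ≠ t2`, a root of
 `V`; it is of type `TyT`, because `ρ'(t3) ≠ 0`.
-/

set_option autoImplicit false

namespace Pool.Agent.CLA

variable {ε ζ p0 p1 p2 : ℂ}

theorem flex_z0 (hd : 4 * ε ^ 3 + 27 * ζ ^ 2 ≠ 0) (hF : FH ε ζ 0 p0 p1 p2) (h0 : p0 = 0) :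
    ε * p2 = ζ * p1 := by
  subst h0
  by_cases h : p1 = 0 ∧ p2 = 0
  · rw [h.1, h.2, mul_zero, mul_zero]
  · obtain ⟨t, ht⟩ := exists_root3 (-2 * p1) (-3 * p2) 0 (ζ * p1 - ε * p2) (by
      rintro ⟨a, b, -⟩
      apply h
      exact ⟨by linear_combination (-1 / 2) * a, by linear_combination (-1 / 3) * b⟩)
    have hW : Wr ε ζ 0 p1 p2 t = 0 := by
      unfold Wr
      linear_combination ht
    rcases root_type hd hF t hW with ⟨N, h0, h1, h2⟩ | ⟨h1, h2⟩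
    · have h3 : N * t = 0 := by linear_combination (-1 / 3) * h0
      rcases mul_eq_zero.1 h3 with h4 | h4
      · rw [h1, h2, h4]
        ring
      · rw [h1, h2, h4]
        ring
    · exfalso
      apply h
      have hp1 : p1 = 0 := by linear_combination -h2
      refine ⟨hp1, ?_⟩
      linear_combination -h1 - t * hp1

private theorem exists_tyT (hd : 4 * ε ^ 3 + 27 * ζ ^ 2 ≠ 0) (hF : FH ε ζ 0 p0 p1 p2)
    (h0 : p0 ≠ 0) : ∃ N t : ℂ, TyT ε ζ p0 p1 p2 N t := by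
  by_contra hno
  have hall : ∀ y : ℂ, Wr ε ζ p0 p1 p2 y = 0 →
      p0 * y ^ 2 + p1 * y + p2 = 0 ∧ 2 * p0 * y + p1 = 0 := by
    intro y hy
    rcases root_type hd hF y hy with ⟨N, hN⟩ | ⟨h1, h2⟩
    · exact absurd ⟨N, y, hN⟩ hno
    · exact ⟨by linear_combination -h1, by linear_combination -h2⟩
  obtain ⟨t, ht⟩ := exists_root4 (-p0) (-2 * p1) (ε * p0 - 3 * p2) (2 * ζ * p0)
    (ζ * p1 - ε * p2) (fun h => h0 (neg_eq_zero.1 h.1))
  have hWt : Wr ε ζ p0 p1 p2 t = 0 := by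
    unfold Wr
    linear_combination ht
  obtain ⟨ha, hb⟩ := hall t hWt
  have hp1 : p1 = -2 * p0 * t := by linear_combination hb
  have hp2 : p2 = p0 * t ^ 2 := by linear_combination ha - t * hb
  have huniq : ∀ y : ℂ, -y ^ 3 + 3 * t * y ^ 2 + ε * y + (2 * ζ + ε * t) = 0 → y = t := by
    intro y hy
    have hWy : Wr ε ζ p0 p1 p2 y = 0 := by
      unfold Wr
      rw [hp1, hp2]
      linear_combination p0 * (y - t) * hy
    have h2 := (hall y hWy).2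
    have h3 : p0 * (y - t) = 0 := by
      rw [hp1] at h2
      linear_combination (1 / 2) * h2
    exact sub_eq_zero.1 ((mul_eq_zero.1 h3).resolve_left h0)
  obtain ⟨y1, hy1⟩ := exists_root3 (-1) (3 * t) ε (2 * ζ + ε * t)
    (fun h => by
      have := h.1
      norm_num at this)
  have hy1' : -y1 ^ 3 + 3 * t * y1 ^ 2 + ε * y1 + (2 * ζ + ε * t) = 0 := by
    linear_combination hy1
  have e1 := huniq y1 hy1'
  rw [e1] at hy1'
  have hc : t ^ 3 + ε * t + ζ = 0 := by linear_combination (1 / 2) * hy1'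
  obtain ⟨y2, hy2⟩ := exists_root3 0 (-1) (2 * t) (ε + 2 * t ^ 2)
    (fun h => by
      have := h.2.1
      norm_num at this)
  have hy2' : -y2 ^ 3 + 3 * t * y2 ^ 2 + ε * y2 + (2 * ζ + ε * t) = 0 := by
    linear_combination (y2 - t) * hy2 + 2 * hc
  have e2 := huniq y2 hy2'
  rw [e2] at hy2
  exact cc_ne hd t hc (by linear_combination hy2)

theorem flex_z1 (hd : 4 * ε ^ 3 + 27 * ζ ^ 2 ≠ 0) (hF : FH ε ζ 0 p0 p1 p2) (h0 : p0 ≠ 0) :
    ε ≠ 0 ∧ ε * p1 = 3 * ζ * p0 ∧ 9 * ε ^ 2 * p2 = (27 * ζ ^ 2 + ε ^ 3) * p0 := by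
  obtain ⟨N1, t1, hT⟩ := exists_tyT hd hF h0
  have hN1 : N1 ≠ 0 := by
    rintro rfl
    apply h0
    rw [hT.1]
    ring
  have hW := tyT_root N1 t1 hT hN1
  have key : ∀ y : ℂ, y ≠ t1 →
      -p0 * y ^ 2 - 2 * (p1 + p0 * t1) * y - (p1 * t1 + 3 * p2) = 0 →
      ¬ (p0 * y ^ 2 + p1 * y + p2 = 0 ∧ 2 * p0 * y + p1 = 0) →
      ε ≠ 0 ∧ ε * p1 = 3 * ζ * p0 ∧ 9 * ε ^ 2 * p2 = (27 * ζ ^ 2 + ε ^ 3) * p0 := by
    intro y hy hV hR
    have hWy : Wr ε ζ p0 p1 p2 y = 0 := by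
      rw [hW y]
      linear_combination (y - t1) ^ 2 * hV
    rcases root_type hd hF y hWy with ⟨N, hN⟩ | ⟨h1, h2⟩
    · exact two_T h0 N1 N t1 y hT hN (Ne.symm hy)
    · exact absurd ⟨by linear_combination -h1, by linear_combination -h2⟩ hR
  by_cases hV : -p0 * t1 ^ 2 - 2 * (p1 + p0 * t1) * t1 - (p1 * t1 + 3 * p2) = 0
  · have hρ : p0 * t1 ^ 2 + p1 * t1 + p2 = 0 := by linear_combination (-1 / 3) * hV
    have hc : t1 ^ 3 + ε * t1 + ζ = 0 := by
      have h1 : N1 * (t1 ^ 3 + ε * t1 + ζ) = 0 := by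
        obtain ⟨a, b, c⟩ := hT
        rw [a, b, c] at hρ
        linear_combination hρ
      exact (mul_eq_zero.1 h1).resolve_left hN1
    have hρ' : 2 * p0 * t1 + p1 ≠ 0 := by
      intro h
      apply cc_ne hd t1 hc
      have h1 : N1 * (3 * t1 ^ 2 + ε) = 0 := by
        obtain ⟨a, b, c⟩ := hT
        rw [a, b] at h
        linear_combination h
      exact (mul_eq_zero.1 h1).resolve_left hN1
    obtain ⟨t3, ht3⟩ : ∃ t3 : ℂ, p0 * t3 = -2 * (p1 + p0 * t1) - p0 * t1 :=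
      ⟨(-2 * (p1 + p0 * t1) - p0 * t1) / p0, mul_div_cancel₀ _ h0⟩
    have hne : t3 ≠ t1 := by
      intro h
      rw [h] at ht3
      apply hρ'
      linear_combination (1 / 2) * ht3
    apply key t3 hne
    · linear_combination hV - (t3 - t1) * ht3
    · rintro ⟨h1, h2⟩
      have h3 : p0 * (t1 - t3) ^ 2 = 0 := by
        linear_combination hρ - h1 - (t1 - t3) * h2
      have h4 := (mul_eq_zero.1 h3).resolve_left h0
      exact hne (sub_eq_zero.1 (pow_eq_zero_iff (two_ne_zero) |>.1 h4)).symm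
  · obtain ⟨t2, ht2⟩ := exists_root3 0 (-p0) (-2 * (p1 + p0 * t1)) (-(p1 * t1 + 3 * p2))
      (fun h => h0 (neg_eq_zero.1 h.2.1))
    have ht2' : -p0 * t2 ^ 2 - 2 * (p1 + p0 * t1) * t2 - (p1 * t1 + 3 * p2) = 0 := by
      linear_combination ht2
    have hne : t2 ≠ t1 := by
      intro h
      rw [h] at ht2'
      exact hV ht2'
    by_cases hR : p0 * t2 ^ 2 + p1 * t2 + p2 = 0 ∧ 2 * p0 * t2 + p1 = 0
    · obtain ⟨h1, h2⟩ := hR
      have hp1 : p1 = -2 * p0 * t2 := by linear_combination h2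
      have hp2 : p2 = p0 * t2 ^ 2 := by linear_combination h1 - t2 * h2
      apply key (3 * t2 - 2 * t1)
      · intro h
        apply hne
        linear_combination (1 / 3) * h
      · rw [hp1, hp2]
        ring
      · rintro ⟨-, h4⟩
        rw [hp1] at h4
        have h5 : p0 * (t2 - t1) = 0 := by linear_combination (1 / 4) * h4
        exact hne (sub_eq_zero.1 ((mul_eq_zero.1 h5).resolve_left h0))
    · exact key t2 hne ht2' hR

end Pool.Agent.CLA
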