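import Pool.Agent.CLA.FlR
import Pool.Agent.CLA.FlZ

/-!
# CLA / FlA: the flex lemma

PROOF.  Apply `flex_r`, `flex_z0`, `flex_z1` to `ε/a, ζ/a`, `r = a R` and the same `p0, p1, p2`: the cubic
`N' (y^3 + (ε/a) y + ζ/a) - ρ` is `N (a y^3 + ε y + ζ) - ρ` with `N' = a N`.
-/

set_option autoImplicit false

namespace Pool.Agent.CLA

theorem flex_alg {a ε ζ R p0 p1 p2 : ℂ} (ha : a ≠ 0) (hd : 4 * ε ^ 3 + 27 * a * ζ ^ 2 ≠ 0)
    (h0 : R ≠ 0 → p0 = 0)
    (hH : ∀ N η : ℂ, N ≠ R →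
      N * a * η ^ 3 - p0 * η ^ 2 + (N * ε - p1) * η + (N * ζ - p2) = 0 →
      3 * N * a * η ^ 2 - 2 * p0 * η + (N * ε - p1) = 0 → 3 * N * a * η - p0 = 0) :
    (p0 = 0 ∧ ε * p2 = ζ * p1) ∨
      (R = 0 ∧ ε ≠ 0 ∧ ε * p1 = 3 * ζ * p0 ∧
        9 * a * ε ^ 2 * p2 = (27 * a * ζ ^ 2 + ε ^ 3) * p0) := by
  have hd' : 4 * (ε / a) ^ 3 + 27 * (ζ / a) ^ 2 ≠ 0 := by
    intro h
    apply hd
    have h1 : 4 * ε ^ 3 + 27 * a * ζ ^ 2 = a ^ 3 * (4 * (ε / a) ^ 3 + 27 * (ζ / a) ^ 2) := by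
      field_simp
    rw [h1, h, mul_zero]
  have hF : FH (ε / a) (ζ / a) (a * R) p0 p1 p2 := by
    intro N t hN e1 e2
    have hN' : N / a ≠ R := by
      intro h
      apply hN
      rw [← h]
      field_simp
    have h1 : N / a * a = N := by field_simp
    have h2 : N / a * ε = N * (ε / a) := by ring
    have h3 : N / a * ζ = N * (ζ / a) := by ring
    have h4 := hH (N / a) t hN' (by rw [h1, h2, h3]; exact e1)
      (by
        have : 3 * (N / a) * a = 3 * N := by rw [mul_assoc, h1]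
        rw [this, h2]
        exact e2)
    have h5 : 3 * (N / a) * a = 3 * N := by rw [mul_assoc, h1]
    rw [h5] at h4
    exact h4
  by_cases hR : R = 0
  · subst hR
    rw [mul_zero] at hF
    by_cases hp : p0 = 0
    · left
      refine ⟨hp, ?_⟩
      have h := flex_z0 hd' hF hp
      have h' : ε * p2 = a * (ε / a * p2) := by field_simp
      rw [h', h]
      field_simp
    · right
      obtain ⟨g1, g2, g3⟩ := flex_z1 hd' hF hp
      refine ⟨rfl, ?_, ?_, ?_⟩
      · rintro rfl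
        exact g1 (zero_div a)
      · have h' : ε * p1 = a * (ε / a * p1) := by field_simp
        rw [h', g2]
        field_simp
      · have h' : 9 * a * ε ^ 2 * p2 = a ^ 3 * (9 * (ε / a) ^ 2 * p2) := by field_simp
        rw [h', g3]
        field_simp
  · left
    have hp := h0 hR
    refine ⟨hp, ?_⟩
    have h := flex_r hd' hF (mul_ne_zero ha hR) hp
    have h' : ε * p2 = a * (ε / a * p2) := by field_simp
    rw [h', h]
    field_simp

end Pool.Agent.CLA
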