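import Pool.Agent.CLA.NodeC

/-!
# CLA / Flex1: the quartics `B_P` at a flex

PROOFS.  `c = wei a ε ζ x y z = x^2 z + c~(y,z)`, `f = w^3 + w q + r`.  Put `w = w0 x + o` (`o = w - C w0 * x`), then
`f = N x^3 + x^2 lam + x Q + R3` with `N = w0^3 + w0 A + R`, `lam = (3 w0^2 + A) o + (2 w0 B + s1) y + (2 w0 E + s2) z`,
`Q = 3 w0 o^2 + 2 o (B y + E z) + (w0 D + p0) y^2 + (2 w0 F + p1) y z + (w0 G + p2) z^2`,
`R3 = o^3 + o (D y^2 + 2 F y z + G z^2) + t0 y^3 + t1 y^2 z + t2 y z^2 + t3 z^3`.  The quartic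
`B_P = z f - (N x + lam) c = x (z Q - N c~) + (z R3 - lam c~)` is in the ideal; `z R3 - lam c~` is a quartic form in
`y, z, o` (`InF`).  The coordinates `x, y, z, o` are independent (`Lin4.of_span`).
* `flex1`: `w0 = 0`: `z Q - N c~ = w z (2 B y + 2 E z) + (cubic in y, z)`, `node1` if `B ≠ 0`.
* `flex2`: `B = 0`, `N = 0`: `node3` with `s0 = 3 w0`, `t0 = w0 D + p0`, `α = 2 E`, `β = 2 w0 F + p1`, `γ = w0 G + p2`.
* `flex3`: `B = E = 0`: `z Q - N c~ = 3 w0 z o^2 - (g0 y^3 + g1 y^2 z + g2 y z^2 + g3 z^3)` with `g0 = N a`,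
  `g1 = -(w0 D + p0)`, `g2 = N ε - (2 w0 F + p1)`, `g3 = N ζ - (w0 G + p2)`: `node2`.
-/

set_option autoImplicit false

namespace Pool.Agent.CLA

open MvPolynomial Pool.Agent.CLU

variable {x y z w : S} {a ε ζ A B D E F G R s1 s2 p0 p1 p2 t0 t1 t2 t3 : ℂ}

private theorem fl1_lin (h : Lin4 x y z w) (w0 : ℂ) : Lin4 x y z (w - C w0 * x) := by
  obtain ⟨hx, hy, hz, hw⟩ := h.hom
  have ho : (w - C w0 * x).IsHomogeneous 1 := by
    have h1 := h.hom_comb (-w0) 0 0 1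
    have e : C (-w0) * x + C 0 * y + C 0 * z + C 1 * w = w - C w0 * x := by
      rw [C_neg, C_0, C_1]
      ring
    rwa [e] at h1
  refine h.of_span hx hy hz ho ![![1, 0, 0, 0], ![0, 1, 0, 0], ![0, 0, 1, 0], ![w0, 0, 0, 1]] ?_
  intro i
  fin_cases i
  · simp
  · simp
  · simp
  · simp

private theorem fl1_ct (y z o : S) (a ε ζ : ℂ) :
    InF 3 y z o (C a * y ^ 3 + C ε * (y * z ^ 2) + C ζ * z ^ 3) := by
  have m1 : InF 3 y z o (y ^ 3) := by simpa using InF.mon y z o 3 0 0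
  have m2 : InF 3 y z o (y * z ^ 2) := by simpa using InF.mon y z o 1 2 0
  have m3 : InF 3 y z o (z ^ 3) := by simpa using InF.mon y z o 0 3 0
  exact ((m1.C_mul a).add (m2.C_mul ε)).add (m3.C_mul ζ)

private theorem fl1_R3 (y z o : S) (D F G t0 t1 t2 t3 : ℂ) :
    InF 3 y z o (o ^ 3 + o * (C D * y ^ 2 + C (2 * F) * (y * z) + C G * z ^ 2) +
      (C t0 * y ^ 3 + C t1 * (y ^ 2 * z) + C t2 * (y * z ^ 2) + C t3 * z ^ 3)) := by
  have m0 : InF 3 y z o (o ^ 3) := by simpa using InF.mon y z o 0 0 3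
  have m1 : InF 3 y z o (y ^ 3) := by simpa using InF.mon y z o 3 0 0
  have m2 : InF 3 y z o (y ^ 2 * z) := by simpa using InF.mon y z o 2 1 0
  have m3 : InF 3 y z o (y * z ^ 2) := by simpa using InF.mon y z o 1 2 0
  have m4 : InF 3 y z o (z ^ 3) := by simpa using InF.mon y z o 0 3 0
  have k1 : InF 2 y z o (y ^ 2) := by simpa using InF.mon y z o 2 0 0
  have k2 : InF 2 y z o (y * z) := by simpa using InF.mon y z o 1 1 0
  have k3 : InF 2 y z o (z ^ 2) := by simpa using InF.mon y z o 0 2 0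
  have q : InF 3 y z o (o * (C D * y ^ 2 + C (2 * F) * (y * z) + C G * z ^ 2)) :=
    (InF.v2 y z o).mul (((k1.C_mul D).add (k2.C_mul (2 * F))).add (k3.C_mul G))
  exact (m0.add q).add ((((m1.C_mul t0).add (m2.C_mul t1)).add (m3.C_mul t2)).add (m4.C_mul t3))

private theorem fl1_rest (y z o : S) (a ε ζ D F G t0 t1 t2 t3 l1 l2 l3 : ℂ) :
    InF 4 y z o (z * (o ^ 3 + o * (C D * y ^ 2 + C (2 * F) * (y * z) + C G * z ^ 2) +
      (C t0 * y ^ 3 + C t1 * (y ^ 2 * z) + C t2 * (y * z ^ 2) + C t3 * z ^ 3)) -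
      (C l1 * y + C l2 * z + C l3 * o) * (C a * y ^ 3 + C ε * (y * z ^ 2) + C ζ * z ^ 3)) :=
  ((InF.v1 y z o).mul (fl1_R3 y z o D F G t0 t1 t2 t3)).sub
    ((InF.lin y z o l1 l2 l3).mul (fl1_ct y z o a ε ζ))

/-- the quartic `B_P` -/
private theorem fl1_BP (w0 N : ℂ) (hNe : N = w0 ^ 3 + A * w0 + R) :
    z * (w ^ 3 + w * qd A B D E F G x y z + cu R s1 s2 p0 p1 p2 t0 t1 t2 t3 x y z) -
      (C N * x + (C (2 * w0 * B + s1) * y + C (2 * w0 * E + s2) * z +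
        C (3 * w0 ^ 2 + A) * (w - C w0 * x))) * wei a ε ζ x y z =
    x * (z * (C (3 * w0) * (w - C w0 * x) ^ 2 + (w - C w0 * x) * (C (2 * B) * y + C (2 * E) * z) +
        C (w0 * D + p0) * y ^ 2 + C (2 * w0 * F + p1) * (y * z) + C (w0 * G + p2) * z ^ 2) -
        C N * (C a * y ^ 3 + C ε * (y * z ^ 2) + C ζ * z ^ 3)) +
      (z * ((w - C w0 * x) ^ 3 + (w - C w0 * x) *
        (C D * y ^ 2 + C (2 * F) * (y * z) + C G * z ^ 2) +
        (C t0 * y ^ 3 + C t1 * (y ^ 2 * z) + C t2 * (y * z ^ 2) + C t3 * z ^ 3)) -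
      (C (2 * w0 * B + s1) * y + C (2 * w0 * E + s2) * z + C (3 * w0 ^ 2 + A) * (w - C w0 * x)) *
        (C a * y ^ 3 + C ε * (y * z ^ 2) + C ζ * z ^ 3)) := by
  subst hNe
  unfold wei qd cu
  have c2 : (C 2 : S) = 2 := map_ofNat C 2
  have c3 : (C 3 : S) = 3 := map_ofNat C 3
  simp only [map_add, map_mul, map_pow, c2, c3]
  ring

private theorem fl1_mem (c f L : S) : z * f - L * c ∈ Ideal.span {c, f} := by
  refine Ideal.sub_mem _ (Ideal.mul_mem_left _ _ (Ideal.subset_span ?_))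
    (Ideal.mul_mem_left _ _ (Ideal.subset_span ?_))
  · simp
  · simp

theorem flex1 (h : Lin4 x y z w)
    (hN : NoNod (wei a ε ζ x y z)
      (w ^ 3 + w * qd A B D E F G x y z + cu R s1 s2 p0 p1 p2 t0 t1 t2 t3 x y z)) : B = 0 := by
  by_contra hB
  have h0 := fl1_lin h 0
  have hno := node1 h0 (2 * B) (2 * E) (mul_ne_zero two_ne_zero hB) (-(R * a)) p0 (p1 - R * ε)
    (p2 - R * ζ) _ (fl1_rest y z (w - C 0 * x) a ε ζ D F G t0 t1 t2 t3 (2 * 0 * B + s1)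
      (2 * 0 * E + s2) (3 * 0 ^ 2 + A))
  have hm := fl1_mem (z := z) (wei a ε ζ x y z)
    (w ^ 3 + w * qd A B D E F G x y z + cu R s1 s2 p0 p1 p2 t0 t1 t2 t3 x y z)
    (C (0 ^ 3 + A * 0 + R) * x + (C (2 * 0 * B + s1) * y + C (2 * 0 * E + s2) * z +
        C (3 * 0 ^ 2 + A) * (w - C 0 * x)))
  rw [fl1_BP 0 _ rfl] at hm
  refine hN _ hm ?_
  convert hno using 2
  simp only [map_add, map_mul, map_pow, map_neg, map_sub]
  simp only [C_0]
  ring

theorem flex2 (h : Lin4 x y z w)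
    (hN : NoNod (wei a ε ζ x y z)
      (w ^ 3 + w * qd A B D E F G x y z + cu R s1 s2 p0 p1 p2 t0 t1 t2 t3 x y z))
    (hB : B = 0) (w0 : ℂ) (hw : w0 ≠ 0) (hr : w0 ^ 3 + A * w0 + R = 0) : w0 * D + p0 = 0 := by
  by_contra ht
  have h0 := fl1_lin h w0
  have hno := node3 h0 (3 * w0) (w0 * D + p0) (2 * E) (2 * w0 * F + p1) (w0 * G + p2)
    (mul_ne_zero three_ne_zero hw) ht _ (fl1_rest y z (w - C w0 * x) a ε ζ D F G t0 t1 t2 t3
      (2 * w0 * B + s1) (2 * w0 * E + s2) (3 * w0 ^ 2 + A))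
  have hm := fl1_mem (z := z) (wei a ε ζ x y z)
    (w ^ 3 + w * qd A B D E F G x y z + cu R s1 s2 p0 p1 p2 t0 t1 t2 t3 x y z)
    (C 0 * x + (C (2 * w0 * B + s1) * y + C (2 * w0 * E + s2) * z +
        C (3 * w0 ^ 2 + A) * (w - C w0 * x)))
  rw [fl1_BP w0 0 hr.symm] at hm
  refine hN _ hm ?_
  convert hno using 2
  subst hB
  simp only [map_add, map_mul, map_pow, map_neg, map_sub]
  simp only [C_0]
  ring

theorem flex3 (h : Lin4 x y z w)
    (hN : NoNod (wei a ε ζ x y z)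
      (w ^ 3 + w * qd A B D E F G x y z + cu R s1 s2 p0 p1 p2 t0 t1 t2 t3 x y z))
    (hB : B = 0) (hE : E = 0) (w0 η N : ℂ) (hw : w0 ≠ 0) (hNe : N = w0 ^ 3 + A * w0 + R)
    (h1 : N * a * η ^ 3 - (w0 * D + p0) * η ^ 2 + (N * ε - (2 * w0 * F + p1)) * η +
      (N * ζ - (w0 * G + p2)) = 0)
    (h2 : 3 * N * a * η ^ 2 - 2 * (w0 * D + p0) * η + (N * ε - (2 * w0 * F + p1)) = 0) :
    3 * N * a * η - (w0 * D + p0) = 0 := by
  by_contra ht
  have h0 := fl1_lin h w0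
  have hno := node2 h0 (3 * w0) (N * a) (-(w0 * D + p0)) (N * ε - (2 * w0 * F + p1))
    (N * ζ - (w0 * G + p2)) η (mul_ne_zero three_ne_zero hw) (by linear_combination h1)
    (by linear_combination h2) (fun h3 => ht (by linear_combination h3)) _
    (fl1_rest y z (w - C w0 * x) a ε ζ D F G t0 t1 t2 t3
      (2 * w0 * B + s1) (2 * w0 * E + s2) (3 * w0 ^ 2 + A))
  have hm := fl1_mem (z := z) (wei a ε ζ x y z)
    (w ^ 3 + w * qd A B D E F G x y z + cu R s1 s2 p0 p1 p2 t0 t1 t2 t3 x y z)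
    (C N * x + (C (2 * w0 * B + s1) * y + C (2 * w0 * E + s2) * z +
        C (3 * w0 ^ 2 + A) * (w - C w0 * x)))
  rw [fl1_BP w0 N hNe] at hm
  refine hN _ hm ?_
  convert hno using 2
  subst hB hE
  simp only [map_add, map_mul, map_pow, map_neg, map_sub]
  simp only [C_0]
  ring

end Pool.Agent.CLA
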