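import Pool.Agent.CLA.HesG
import Pool.Agent.CLA.Flex1
import Pool.Agent.CLA.FlA

/-!
# CLA / HesD: the case `q = 0` at the flex `(0, 1, -1)`

PROOFS.  Rewrite the pencil by `hes_wei`, `q_wei`, `r_wei` (`gen q r X Y Z W = W^3 + W * q.ev + r.ev`) and use the
coordinates `fx, fy, fz, W` (`fx_lin`).
* `hB`: `flex1`.
* `hDich`: if `A = q2+q3-2q23` and `R = fr` are not both `0`, `two_roots A R` gives `u ≠ v`, both `≠ 0`; `flex2` (with `B = 0`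
  by `hB`) gives `u D + p0 = 0 = v D + p0`, so `D = 0`, `p0 = 0`; clear denominators.
* `hRho` (`q = 0`, so `A = B = D = 0` and also `E = F = G = 0`, because `Qf.zero.ev = 0 = qd 0 0 0 0 0 0`: rewrite with this
  instead of `q_wei`): `flex_alg` with `hH`: for `N ≠ R` choose `w0` with `w0^3 = N - R` (`exists_cube`), `w0 ≠ 0`, `flex3`;
  for `R ≠ 0` choose `w0^3 = -R`, `flex2` gives `p0 = 0`.  Discriminant: `hes_disc`.  Then translate: with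
  `p0, p1, p2` as in `r_wei` (multiplied by `D^2` resp.) one has
  `fa = (4+n)^2 p0 - 3 m (4+n) p1 + 9 m^2 p2`, `fb = 6 m^2 (4+n) p0 + (12-6n) p1 - 18 m p2`, `fc = 36 m^4 p0 + 36 m^2 p1 + 36 p2`.
  First case `p0 = 0`, `ε p2 = ζ p1`: as `(ε, ζ) ≠ (0, 0)` there is `g` with `p1 = 9 m (8-n) g`, `p2 = 2 (8-20n-n^2) g`
  (`ε : ζ = 9 m (8-n) : 2 (8-20n-n^2)`), and then `(fa, fb, fc) = 9 g (dA, dB, dC)`.
  Second case: with `u = m (8-n) ≠ 0`, `v = 8-20n-n^2`: `p1 = (2 v/(3u)) p0`, `p2 = (4 v^2+u^3)/(27 u^2) p0`; with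
  `p0 = 27 u^2 t` one gets `(fa, fb, fc) = -576 (1+n)^2 t (eA, eB, eC)`, for example
  `27u^2(4+n)^2 - 54 m (4+n) u v + 9 m^2 (4v^2+u^3) = 576 m^2 (1+n)^2 (n+28)`.
-/

set_option autoImplicit false

namespace Pool.Agent.CLA

open MvPolynomial Pool.Agent.CLU

variable {X Y Z W : S} {m : ℂ} {q : Qf} {r : Cf}

private theorem alg_a {m n fa fb fc p0 p1 p2 : ℂ} (hn : n = m ^ 3) (hD : (1 + n) ^ 2 ≠ 0)
    (e0 : 64 * (1 + n) ^ 2 * p0 = 4 * fa + 4 * m * fb + m ^ 2 * fc)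
    (e1 : 96 * (1 + n) ^ 2 * p1 = -12 * m ^ 2 * fa + 2 * (4 - 2 * n) * fb + m * (4 + n) * fc)
    (e2 : 576 * (1 + n) ^ 2 * p2 =
      36 * m ^ 4 * fa - 12 * m ^ 2 * (4 + n) * fb + (4 + n) ^ 2 * fc) :
    fa = (4 + n) ^ 2 * p0 - 3 * m * (4 + n) * p1 + 9 * m ^ 2 * p2 ∧
    fb = 6 * m ^ 2 * (4 + n) * p0 + (12 - 6 * n) * p1 - 18 * m * p2 ∧
    fc = 36 * m ^ 4 * p0 + 36 * m ^ 2 * p1 + 36 * p2 := by
  refine ⟨?_, ?_, ?_⟩
  · apply mul_left_cancel₀ hD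
    subst hn
    linear_combination (-(4 + m ^ 3) ^ 2 / 64) * e0 + (3 * m * (4 + m ^ 3) / 96) * e1 -
      (9 * m ^ 2 / 576) * e2
  · apply mul_left_cancel₀ hD
    subst hn
    linear_combination (-(6 * m ^ 2 * (4 + m ^ 3)) / 64) * e0 - ((12 - 6 * m ^ 3) / 96) * e1 +
      (18 * m / 576) * e2
  · apply mul_left_cancel₀ hD
    subst hn
    linear_combination (-(36 * m ^ 4) / 64) * e0 - (36 * m ^ 2 / 96) * e1 -
      (36 / 576) * e2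

private theorem case1 {m p0 p1 p2 fa fb fc : ℂ}
    (hd : ¬ (m * (8 - m ^ 3) = 0 ∧ 8 - 20 * m ^ 3 - m ^ 6 = 0))
    (h0 : p0 = 0) (h1 : 9 * (m * (8 - m ^ 3)) * p2 = 2 * (8 - 20 * m ^ 3 - m ^ 6) * p1)
    (ha : fa = (4 + m ^ 3) ^ 2 * p0 - 3 * m * (4 + m ^ 3) * p1 + 9 * m ^ 2 * p2)
    (hb : fb = 6 * m ^ 2 * (4 + m ^ 3) * p0 + (12 - 6 * m ^ 3) * p1 - 18 * m * p2)
    (hc : fc = 36 * m ^ 4 * p0 + 36 * m ^ 2 * p1 + 36 * p2) :
    ∃ g, fa = g * dA m ∧ fb = g * dB m ∧ fc = g * dC m := by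
  have key : ∃ g : ℂ, p1 = 9 * (m * (8 - m ^ 3)) * g ∧ p2 = 2 * (8 - 20 * m ^ 3 - m ^ 6) * g := by
    by_cases hu : m * (8 - m ^ 3) = 0
    · have hv : 8 - 20 * m ^ 3 - m ^ 6 ≠ 0 := fun hv => hd ⟨hu, hv⟩
      refine ⟨p2 / (2 * (8 - 20 * m ^ 3 - m ^ 6)), ?_, ?_⟩
      · have h2 : 2 * (8 - 20 * m ^ 3 - m ^ 6) * p1 = 0 := by rw [← h1, hu]; ring
        have h3 : p1 = 0 := by
          rcases mul_eq_zero.1 h2 with h4 | h4
          · exact absurd h4 (mul_ne_zero two_ne_zero hv)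
          · exact h4
        rw [hu, h3]; ring
      · field_simp
    · refine ⟨p1 / (9 * (m * (8 - m ^ 3))), ?_, ?_⟩
      · rw [mul_div_cancel₀]
        exact mul_ne_zero (by norm_num) hu
      · have h9 : 9 * (m * (8 - m ^ 3)) ≠ 0 := mul_ne_zero (by norm_num) hu
        rw [← mul_div_assoc, eq_div_iff h9, ← h1]; ring
  obtain ⟨g, hg1, hg2⟩ := key
  refine ⟨9 * g, ?_, ?_, ?_⟩
  · rw [ha, h0, hg1, hg2, dA]; ring
  · rw [hb, h0, hg1, hg2, dB]; ring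
  · rw [hc, h0, hg1, hg2, dC]; ring

private theorem case2 {m p0 p1 p2 fa fb fc : ℂ} (hu : m * (8 - m ^ 3) ≠ 0)
    (h1 : 3 * (m * (8 - m ^ 3)) * p1 = 2 * (8 - 20 * m ^ 3 - m ^ 6) * p0)
    (h2 : 27 * (m * (8 - m ^ 3)) ^ 2 * p2 =
      (4 * (8 - 20 * m ^ 3 - m ^ 6) ^ 2 + (m * (8 - m ^ 3)) ^ 3) * p0)
    (ha : fa = (4 + m ^ 3) ^ 2 * p0 - 3 * m * (4 + m ^ 3) * p1 + 9 * m ^ 2 * p2)
    (hb : fb = 6 * m ^ 2 * (4 + m ^ 3) * p0 + (12 - 6 * m ^ 3) * p1 - 18 * m * p2)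
    (hc : fc = 36 * m ^ 4 * p0 + 36 * m ^ 2 * p1 + 36 * p2) :
    ∃ g, fa = g * eA m ∧ fb = g * eB m ∧ fc = g * eC m := by
  obtain ⟨t, ht⟩ : ∃ t : ℂ, p0 = 27 * (m * (8 - m ^ 3)) ^ 2 * t := by
    refine ⟨p0 / (27 * (m * (8 - m ^ 3)) ^ 2), ?_⟩
    rw [mul_div_cancel₀]
    exact mul_ne_zero (by norm_num) (pow_ne_zero 2 hu)
  have h3 : 3 * (m * (8 - m ^ 3)) ≠ 0 := mul_ne_zero (by norm_num) hu
  have h27 : 27 * (m * (8 - m ^ 3)) ^ 2 ≠ 0 := mul_ne_zero (by norm_num) (pow_ne_zero 2 hu)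
  have hp1 : p1 = 18 * (m * (8 - m ^ 3)) * (8 - 20 * m ^ 3 - m ^ 6) * t := by
    apply mul_left_cancel₀ h3
    rw [h1, ht]; ring
  have hp2 : p2 = (4 * (8 - 20 * m ^ 3 - m ^ 6) ^ 2 + (m * (8 - m ^ 3)) ^ 3) * t := by
    apply mul_left_cancel₀ h27
    rw [h2, ht]; ring
  refine ⟨-576 * (1 + m ^ 3) ^ 2 * t, ?_, ?_, ?_⟩
  · rw [ha, hp1, hp2, ht, eA]; ring
  · rw [hb, hp1, hp2, ht, eB]; ring
  · rw [hc, hp1, hp2, ht, eC]; ring

theorem hRho (hD : 1 + m ^ 3 ≠ 0) (h : Lin4 X Y Z W)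
    (hN : NoNod (hes m X Y Z) (gen Qf.zero r X Y Z W)) :
    (∃ g, r.fa = g * dA m ∧ r.fb = g * dB m ∧ r.fc = g * dC m) ∨
    (r.fr = 0 ∧ ∃ g, r.fa = g * eA m ∧ r.fb = g * eB m ∧ r.fc = g * eC m) := by
  have hD2 : (1 + m ^ 3) ^ 2 ≠ 0 := pow_ne_zero 2 hD
  obtain ⟨s1, s2, t0, t1, t2, t3, hr⟩ := r_wei hD r X Y Z
  have hgen : gen Qf.zero r X Y Z W = W ^ 3 + W * qd 0 0 0 0 0 0 (fx Y Z) (fy m X Y Z)
      (fz m X Y Z) + r.ev X Y Z := by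
    simp [gen, Qf.zero, Qf.ev, qd]
  have hlin := fx_lin hD h
  rw [hgen, hes_wei hD, hr] at hN
  have hdisc := hes_disc (m := m) hD
  generalize hp0 : (4 * r.fa + 4 * m * r.fb + m ^ 2 * r.fc) / (64 * (1 + m ^ 3) ^ 2) = p0 at hN
  generalize hp1 : (-12 * m ^ 2 * r.fa + 2 * (4 - 2 * m ^ 3) * r.fb + m * (4 + m ^ 3) * r.fc) /
        (96 * (1 + m ^ 3) ^ 2) = p1 at hN
  generalize hp2 : (36 * m ^ 4 * r.fa - 12 * m ^ 2 * (4 + m ^ 3) * r.fb +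
        (4 + m ^ 3) ^ 2 * r.fc) / (576 * (1 + m ^ 3) ^ 2) = p2 at hN
  have ha : (1 / (64 * (1 + m ^ 3) ^ 2) : ℂ) ≠ 0 :=
    one_div_ne_zero (mul_ne_zero (by norm_num) hD2)
  have e0 : 64 * (1 + m ^ 3) ^ 2 * p0 = 4 * r.fa + 4 * m * r.fb + m ^ 2 * r.fc := by
    rw [← hp0]; field_simp
  have e1 : 96 * (1 + m ^ 3) ^ 2 * p1 =
      -12 * m ^ 2 * r.fa + 2 * (4 - 2 * m ^ 3) * r.fb + m * (4 + m ^ 3) * r.fc := by
    rw [← hp1]; field_simp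
  have e2 : 576 * (1 + m ^ 3) ^ 2 * p2 =
      36 * m ^ 4 * r.fa - 12 * m ^ 2 * (4 + m ^ 3) * r.fb + (4 + m ^ 3) ^ 2 * r.fc := by
    rw [← hp2]; field_simp
  obtain ⟨fa', fb', fc'⟩ := alg_a (n := m ^ 3) rfl hD2 e0 e1 e2
  have main := flex_alg (R := r.fr) (p0 := p0) (p1 := p1) (p2 := p2) ha hdisc
    (by
      intro hR
      obtain ⟨w0, hw⟩ := exists_cube (-r.fr)
      have hw0 : w0 ≠ 0 := by
        rintro rfl
        apply hR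
        have : -r.fr = 0 := by rw [← hw]; ring
        exact neg_eq_zero.1 this
      have := flex2 hlin hN rfl w0 hw0 (by rw [hw]; ring)
      simpa using this)
    (by
      intro N η hNR h1 h2
      obtain ⟨w0, hw⟩ := exists_cube (N - r.fr)
      have hw0 : w0 ≠ 0 := by
        rintro rfl
        apply hNR
        have : N - r.fr = 0 := by rw [← hw]; ring
        exact sub_eq_zero.1 this
      have := flex3 hlin hN rfl rfl w0 η N hw0 (by rw [hw]; ring)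
        (by simpa using h1) (by simpa using h2)
      simpa using this)
  rcases main with ⟨h0, h1⟩ | ⟨h0, hε, h1, h2⟩
  · left
    refine case1 (p0 := p0) (p1 := p1) (p2 := p2) ?_ h0 ?_ fa' fb' fc'
    · rintro ⟨hu, hv⟩
      apply hdisc
      rw [hu, hv]; ring
    · have h4 : (m * (8 - m ^ 3)) * p2 / 192 = (8 - 20 * m ^ 3 - m ^ 6) * p1 / 864 := by
        have h5 := congrArg (fun z => z * (1 + m ^ 3) ^ 2) h1
        beta_reduce at h5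
        have h6 : m * (8 - m ^ 3) / (192 * (1 + m ^ 3) ^ 2) * p2 * (1 + m ^ 3) ^ 2 =
            (m * (8 - m ^ 3)) * p2 / 192 := by
          field_simp
        have h7 : (8 - 20 * m ^ 3 - m ^ 6) / (864 * (1 + m ^ 3) ^ 2) * p1 * (1 + m ^ 3) ^ 2 =
            (8 - 20 * m ^ 3 - m ^ 6) * p1 / 864 := by
          field_simp
        rw [← h6, ← h7]; exact h5
      linear_combination 1728 * h4
  · right
    refine ⟨h0, case2 (p0 := p0) (p1 := p1) (p2 := p2) ?_ ?_ ?_ fa' fb' fc'⟩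
    · intro hu
      apply hε
      rw [hu]; ring
    · have h4 : (m * (8 - m ^ 3)) * p1 / 192 = 3 * (8 - 20 * m ^ 3 - m ^ 6) * p0 / 864 := by
        have h5 := congrArg (fun z => z * (1 + m ^ 3) ^ 2) h1
        beta_reduce at h5
        have h6 : m * (8 - m ^ 3) / (192 * (1 + m ^ 3) ^ 2) * p1 * (1 + m ^ 3) ^ 2 =
            (m * (8 - m ^ 3)) * p1 / 192 := by
          field_simp
        have h7 : 3 * ((8 - 20 * m ^ 3 - m ^ 6) / (864 * (1 + m ^ 3) ^ 2)) * p0 *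
            (1 + m ^ 3) ^ 2 = 3 * (8 - 20 * m ^ 3 - m ^ 6) * p0 / 864 := by
          field_simp
        rw [← h6, ← h7]; exact h5
      linear_combination 576 * h4
    · have h6 : 9 * (1 / (64 * (1 + m ^ 3) ^ 2)) * (m * (8 - m ^ 3) / (192 * (1 + m ^ 3) ^ 2)) ^ 2 *
          p2 * (192 ^ 3 * ((1 + m ^ 3) ^ 2) ^ 3) = 27 * (m * (8 - m ^ 3)) ^ 2 * p2 := by
        field_simp; ring
      have h7 : (27 * (1 / (64 * (1 + m ^ 3) ^ 2)) *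
          ((8 - 20 * m ^ 3 - m ^ 6) / (864 * (1 + m ^ 3) ^ 2)) ^ 2 +
          (m * (8 - m ^ 3) / (192 * (1 + m ^ 3) ^ 2)) ^ 3) * p0 *
          (192 ^ 3 * ((1 + m ^ 3) ^ 2) ^ 3) =
          (4 * (8 - 20 * m ^ 3 - m ^ 6) ^ 2 + (m * (8 - m ^ 3)) ^ 3) * p0 := by
        field_simp; ring
      rw [← h6, ← h7]
      exact congrArg (fun z => z * (192 ^ 3 * ((1 + m ^ 3) ^ 2) ^ 3)) h2

end Pool.Agent.CLA
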