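import Pool.Agent.CLA.Lin

/-!
# CLA / Sym: symmetries of the Hesse form

PROOFS.
* `qcyc`, `rcyc`: expand.  `qtw`, `rtw`: expand, using `t^3 = 1`: with `Y' = t^2 Y`, `Z' = t Z` one has `Y = t Y'`,
  `Z = t^2 Z'` (`C t * C (t^2) = C (t^3) = 1`).
* `HP.cyc`: coordinates `Y, Z, X, W` (`Lin4.of_span`), the two generators are the same polynomials.
* `HP.tw`: coordinates `X, C (t^2) * Y, C t * Z, W`; the generators are the same polynomials:
  `hes m X (t^2 Y) (t Z) = hes m X Y Z`, `gen q r X Y Z W = gen (q.tw t) (r.tw t) X (t^2 Y) (t Z) W`.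
* `HP.rot` (`m` replaced by `t m`): coordinates `X, C (t^2) * Y, Z, W`: `X Y Z = t X (t^2 Y) Z`, so
  `hes m X Y Z = hes (t m) X (t^2 Y) Z`, and `r.ev X Y Z = (r.rot t).ev X (t^2 Y) Z` (replace `Y = t Y'`).
-/

set_option autoImplicit false

namespace Pool.Agent.CLA

open MvPolynomial Pool.Agent.CLU

/-- `r.ev X (t Y) Z = (r.rot t).ev X Y Z` if `t^3 = 1`. -/
def Cf.rot (t : ℂ) (r : Cf) : Cf :=
  ⟨r.a1, r.a2, r.a3, t * r.b12, r.b13, t ^ 2 * r.b21, t ^ 2 * r.b23, r.b31, t * r.b32, t * r.d⟩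

theorem qcyc (q : Qf) (X Y Z : S) : q.ev X Y Z = q.cyc.ev Y Z X := by
  simp only [Qf.ev, Qf.cyc]
  ring

theorem rcyc (r : Cf) (X Y Z : S) : r.ev X Y Z = r.cyc.ev Y Z X := by
  simp only [Cf.ev, Cf.cyc]
  ring

private theorem sym_C3 (t : ℂ) (ht : t ^ 3 = 1) : (C t : S) ^ 3 = 1 := by
  rw [← map_pow, ht, map_one]

theorem qtw (q : Qf) (t : ℂ) (ht : t ^ 3 = 1) (X Y Z : S) :
    q.ev X Y Z = (q.tw t).ev X (C (t ^ 2) * Y) (C t * Z) := by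
  have hT := sym_C3 t ht
  simp only [Qf.ev, Qf.tw, map_mul, map_pow, map_ofNat]
  linear_combination (-(C q.q2 * Y ^ 2 * ((C t : S) ^ 3 + 1)) - (C q.q3 * Z ^ 2 +
    2 * C q.q12 * X * Y + 2 * C q.q13 * X * Z + 2 * C q.q23 * Y * Z)) * hT

theorem rtw (r : Cf) (t : ℂ) (ht : t ^ 3 = 1) (X Y Z : S) :
    r.ev X Y Z = (r.tw t).ev X (C (t ^ 2) * Y) (C t * Z) := by
  have hT := sym_C3 t ht
  simp only [Cf.ev, Cf.tw, map_mul, map_pow]
  linear_combination (-((C r.a2 * Y ^ 3 + C r.b21 * Y ^ 2 * X + C r.b23 * Y ^ 2 * Z +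
    C r.b32 * Z ^ 2 * Y) * ((C t : S) ^ 3 + 1)) - (C r.a3 * Z ^ 3 + C r.b12 * X ^ 2 * Y +
    C r.b13 * X ^ 2 * Z + C r.b31 * Z ^ 2 * X + C r.d * X * Y * Z)) * hT

theorem HP.cyc {m : ℂ} {q : Qf} {r : Cf} (h : HP m q r) : HP m q.cyc r.cyc := by
  obtain ⟨X, Y, Z, W, hL, hP⟩ := h
  obtain ⟨hX, hY, hZ, hW⟩ := hL.hom
  refine ⟨Y, Z, X, W, hL.of_span hY hZ hX hW
    ![![0, 0, 1, 0], ![1, 0, 0, 0], ![0, 1, 0, 0], ![0, 0, 0, 1]] ?_, ?_⟩
  · intro i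
    fin_cases i <;> simp
  · have e1 : hes m Y Z X = hes m X Y Z := by
      simp only [hes]
      ring
    have e2 : gen q.cyc r.cyc Y Z X W = gen q r X Y Z W := by
      simp only [gen]
      rw [← qcyc, ← rcyc]
    rw [e1, e2]
    exact hP

theorem HP.tw {m : ℂ} {q : Qf} {r : Cf} (h : HP m q r) (t : ℂ) (ht : t ^ 3 = 1) :
    HP m (q.tw t) (r.tw t) := by
  obtain ⟨X, Y, Z, W, hL, hP⟩ := h
  obtain ⟨hX, hY, hZ, hW⟩ := hL.hom
  have hT := sym_C3 t ht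
  refine ⟨X, C (t ^ 2) * Y, C t * Z, W, hL.of_span hX (hY.C_mul _) (hZ.C_mul _) hW
    ![![1, 0, 0, 0], ![0, t, 0, 0], ![0, 0, t ^ 2, 0], ![0, 0, 0, 1]] ?_, ?_⟩
  · intro i
    fin_cases i
    · simp
    · simp
      linear_combination (-Y) * hT
    · simp
      linear_combination (-Z) * hT
    · simp
  · have e1 : hes m X (C (t ^ 2) * Y) (C t * Z) = hes m X Y Z := by
      simp only [hes, map_mul, map_pow]
      linear_combination (Y ^ 3 * ((C t : S) ^ 3 + 1) + Z ^ 3 + C 3 * C m * X * Y * Z) * hT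
    have e2 : gen (q.tw t) (r.tw t) X (C (t ^ 2) * Y) (C t * Z) W = gen q r X Y Z W := by
      simp only [gen]
      rw [← qtw q t ht, ← rtw r t ht]
    rw [e1, e2]
    exact hP

theorem HP.rot {m : ℂ} {r : Cf} (h : HP m Qf.zero r) (t : ℂ) (ht : t ^ 3 = 1) :
    HP (t * m) Qf.zero (r.rot t) := by
  obtain ⟨X, Y, Z, W, hL, hP⟩ := h
  obtain ⟨hX, hY, hZ, hW⟩ := hL.hom
  have hT := sym_C3 t ht
  refine ⟨X, C (t ^ 2) * Y, Z, W, hL.of_span hX (hY.C_mul _) hZ hW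
    ![![1, 0, 0, 0], ![0, t, 0, 0], ![0, 0, 1, 0], ![0, 0, 0, 1]] ?_, ?_⟩
  · intro i
    fin_cases i
    · simp
    · simp
      linear_combination (-Y) * hT
    · simp
    · simp
  · have e1 : hes (t * m) X (C (t ^ 2) * Y) Z = hes m X Y Z := by
      simp only [hes, map_mul, map_pow]
      linear_combination (Y ^ 3 * ((C t : S) ^ 3 + 1) + C 3 * C m * X * Y * Z) * hT
    have e2 : gen Qf.zero (r.rot t) X (C (t ^ 2) * Y) Z W = gen Qf.zero r X Y Z W := by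
      simp only [gen, Qf.zero, Qf.ev, Cf.rot, Cf.ev, map_mul, map_pow, map_zero]
      linear_combination ((C r.a2 * Y ^ 3 + C r.b21 * Y ^ 2 * X + C r.b23 * Y ^ 2 * Z) *
        ((C t : S) ^ 3 + 1) + (C r.b12 * X ^ 2 * Y + C r.b32 * Z ^ 2 * Y + C r.d * X * Y * Z)) * hT
    rw [e1, e2]
    exact hP

end Pool.Agent.CLA
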