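import Pool.Agent.CLA.LemA
import Pool.Agent.CLA.HesD
import Pool.Agent.CLA.Sym

/-!
# CLA / LemL: general `m`, `q = 0`: the coefficients `a1, a2, a3` are equal

PROOFS.
* `lem_alg`: pure algebra.  For `i : Fin 3` write `(A i, B i, C i) = g_i (dA, dB, dC) + s_i (eA, eB, eC)` with `s_i = 0`, or
  `g_i = 0` and `R i = 0`, in which case `s_i eC = C i = 4 δ`.  Sum over `i`, `G = ∑ g_i`, `T = ∑ s_i`:
  `G dA + T eA = 0`, `G dB + T eB = 0`, `G dC + T eC = 9 δ`, and `T eC = 4 j δ`, `j` the number of `i` with `s_i`-type,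
  `j = 0, 1, 2, 3`.  Identity: `eA dB - eB dA = -3 m^3 (m^3-8)^2 (7 m^3+16)`, so `T * (that) = 0`.
  If `7 m^3 + 16 ≠ 0`: `T = 0`, then `G dA = G dB = 0`, and `dA, dB` are not both `0` (`80+52n-n^2 = 0` and
  `64+20n+10n^2 = 0` give `n = -8/5`, contradiction), so `G = 0`, `9 δ = 0`.
  If `7 m^3 = -16`: from `G dA = - T eA` and `9 δ = G dC + T eC`: `9 δ dA = T (eC dA - eA dC)`; with `n = -16/7`:
  `dA = -m^2 (80+52n-n^2) = m^2 2160/49`, `eA = - m^2 180/7`, `dC = -22464/49`, `eC = -2448/49`; so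
  `eA dC = -(91/17) eC dA`, `9 δ = T eC (1 + 91/17) = 4 j δ 108/17`, `δ (153 - 432 j) = 0`, `δ = 0`.
* `lemL`: apply `hRho` to `HP.tw` for `t = 1, w, w^2`: `A i = t b12 - t^2 b13`, `B i = t^2 b21 - t b31`,
  `C i = 3 δ + (t b23 - t^2 b32)`, `R i = δ - (t b23 - t^2 b32)`, `δ = a2 - a3`; the sums over the three cube roots of unity
  are `0, 0, 9 δ`, and `C i + R i = 4 δ`.
* `lemL3`: `lemL` for `HP.cyc`, `HP.cyc.cyc`.
-/

set_option autoImplicit false

namespace Pool.Agent.CLA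

open MvPolynomial Pool.Agent.CLU

theorem lemL {m : ℂ} {r : Cf} (hG : Gen m) (h : HP m Qf.zero r) : r.a2 = r.a3 := by
  obtain ⟨w, hw, hw3, -⟩ := exists_om
  have key : ∀ t : ℂ, t ^ 3 = 1 →
      (∃ g, (r.tw t).fa = g * dA m ∧ (r.tw t).fb = g * dB m ∧ (r.tw t).fc = g * dC m) ∨
      ((r.tw t).fr = 0 ∧
        ∃ g, (r.tw t).fa = g * eA m ∧ (r.tw t).fb = g * eB m ∧ (r.tw t).fc = g * eC m) := by
    intro t ht
    obtain ⟨X, Y, Z, W, hl, hP⟩ := h.tw t ht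
    have hz : Qf.zero.tw t = Qf.zero := by
      simp [Qf.tw, Qf.zero]
    rw [hz] at hP
    exact hRho hG.2.2 hl hP.nod
  have hw6 : (w ^ 2) ^ 3 = 1 := by
    calc (w ^ 2) ^ 3 = (w ^ 3) ^ 2 := by ring
      _ = 1 := by rw [hw3]; ring
  set tt : Fin 3 → ℂ := ![1, w, w ^ 2] with htt
  have ht3 : ∀ i, tt i ^ 3 = 1 := by
    intro i
    fin_cases i
    · simp [htt]
    · simpa [htt] using hw3
    · simpa [htt] using hw6
  have hδ := lem_alg (m := m) (δ := r.a2 - r.a3) hG (fun i => (r.tw (tt i)).fa)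
    (fun i => (r.tw (tt i)).fb) (fun i => (r.tw (tt i)).fc) (fun i => (r.tw (tt i)).fr)
    (by
      simp only [htt, Cf.tw, Cf.fa, Matrix.cons_val_zero, Matrix.cons_val_one, Matrix.cons_val]
      linear_combination (r.b12 - r.b13 * (w ^ 2 - w + 1)) * hw)
    (by
      simp only [htt, Cf.tw, Cf.fb, Matrix.cons_val_zero, Matrix.cons_val_one, Matrix.cons_val]
      linear_combination (r.b21 * (w ^ 2 - w + 1) - r.b31) * hw)
    (by
      simp only [htt, Cf.tw, Cf.fc, Matrix.cons_val_zero, Matrix.cons_val_one, Matrix.cons_val]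
      linear_combination (r.b23 - r.b32 * (w ^ 2 - w + 1)) * hw)
    (by
      intro i
      simp only [Cf.tw, Cf.fc, Cf.fr]
      ring)
    (fun i => key (tt i) (ht3 i))
  exact sub_eq_zero.mp hδ

theorem lemL3 {m : ℂ} {r : Cf} (hG : Gen m) (h : HP m Qf.zero r) :
    r.a1 = r.a2 ∧ r.a2 = r.a3 := by
  have h1 := lemL hG h
  have h2 : r.cyc.a2 = r.cyc.a3 := lemL hG h.cyc
  have h2' : r.a3 = r.a1 := h2
  exact ⟨by rw [h1, h2'], h1⟩

end Pool.Agent.CLA
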