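import Pool.Agent.CLA.Four
import Pool.Agent.CLA.LemL

/-!
# CLA / FourB: all `b` are zero

PROOFS.
* `gen_four`: `m' = (2-m)/(1+m)` (`1 + m ≠ 0` as `1 + m^3 ≠ 0`).  `m' ≠ 0`: `m ≠ 2` since `m^3 ≠ 8`.  `1 + m'^3 =
  9 (1 - m + m^2)/(1+m)^3 ≠ 0`.  `m'^3 - 8 = ((2-m)^3 - 8 (1+m)^3)/(1+m)^3 = - 9 m (m^2 + 2 m + 4)/(1+m)^3 ≠ 0`, because
  `(m - 2)(m^2 + 2 m + 4) = m^3 - 8 ≠ 0`.
* `four`: `w^2 + w + 1 = 0`, `X' = X+Y+Z`, `Y' = X + w Y + w^2 Z`, `Z' = X + w^2 Y + w Z`;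
  `3 X = X'+Y'+Z'`, `3 Y = X' + w^2 Y' + w Z'`, `3 Z = X' + w Y' + w^2 Z'` (`Lin4.of_span`).
  `hes m X Y Z = C ((1+m)/9) * hes m' X' Y' Z'` (from `X'^3+Y'^3+Z'^3 = 3 (X^3+Y^3+Z^3) + 18 XYZ` and
  `X'Y'Z' = X^3+Y^3+Z^3 - 3XYZ`), `PenH.comb'` with `a = (1+m)/9`, `e = 0`.  `r.ev X Y Z` is a cubic form in `X', Y', Z'`,
  i.e. `r'.ev X' Y' Z'` with explicit coefficients (expand `r.ev` of the three expressions above), with
  `27 a1' = r(1,1,1)`, `27 a2' = r(1,w^2,w)`, `27 a3' = r(1,w,w^2)`.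
* `pq`: `lemL3` for `four`: with `s = a1+a2+a3+d`, `P = b12+b23+b31`, `Q = b13+b21+b32`:
  `s + P + Q = s + w^2 P + w Q = s + w P + w^2 Q`, so `(w^2 - w)(P - Q) = 0`, `P = Q`, `2 P = - P`.
* `b_zero`: `pq` for `HP.rot` with `t = 1, w, w^2` (`Gen (t m)`: `(t m)^3 = m^3`):
  `t b12 + t^2 b23 + b31 = 0` and `b13 + t^2 b21 + t b32 = 0` for the three `t`, so all are `0`.
-/

set_option autoImplicit false

namespace Pool.Agent.CLA

open MvPolynomial Pool.Agent.CLU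

private theorem ex_w : ∃ w : ℂ, w ^ 2 + w + 1 = 0 := by
  obtain ⟨w, hw⟩ := IsAlgClosed.exists_pow_nat_eq (-3 : ℂ) (n := 2) (by norm_num)
  refine ⟨(w - 1) / 2, ?_⟩
  have : ((w - 1) / 2) ^ 2 + (w - 1) / 2 + 1 = (w ^ 2 + 3) / 4 := by ring
  rw [this, hw]
  norm_num

theorem pq {m : ℂ} {r : Cf} (hG : Gen m) (h : HP m Qf.zero r) :
    r.b12 + r.b23 + r.b31 = 0 ∧ r.b13 + r.b21 + r.b32 = 0 := by
  obtain ⟨w, hw⟩ := ex_w
  obtain ⟨r', h', e1, e2, e3⟩ := four hG hw h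
  obtain ⟨l1, l2⟩ := lemL3 (gen_four hG) h'
  have hw0 : w ≠ 0 := by
    rintro rfl
    norm_num at hw
  have hw1 : w ≠ 1 := by
    rintro rfl
    norm_num at hw
  rw [l1] at e1
  rw [← l2] at e3
  set P := r.b12 + r.b23 + r.b31 with hP
  set Q := r.b13 + r.b21 + r.b32 with hQ
  have a1 : P + Q = w ^ 2 * P + w * Q := by linear_combination e2 - e1
  have a2 : w ^ 2 * P + w * Q = w * P + w ^ 2 * Q := by linear_combination e3 - e2
  have a3 : (w * (w - 1)) * (P - Q) = 0 := by linear_combination a2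
  have a4 : P = Q := by
    rcases mul_eq_zero.1 a3 with h1 | h1
    · rcases mul_eq_zero.1 h1 with h2 | h2
      · exact absurd h2 hw0
      · exact absurd (sub_eq_zero.1 h2) hw1
    · exact sub_eq_zero.1 h1
  have a5 : 3 * P = 0 := by
    rw [← a4] at a1
    linear_combination a1 + P * hw
  have a6 : P = 0 := by
    rcases mul_eq_zero.1 a5 with h1 | h1
    · norm_num at h1
    · exact h1
  exact ⟨a6, by rw [← a4]; exact a6⟩

private theorem gen_rot {m t : ℂ} (hG : Gen m) (ht : t ^ 3 = 1) : Gen (t * m) := by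
  have ht0 : t ≠ 0 := by
    rintro rfl
    norm_num at ht
  refine ⟨mul_ne_zero ht0 hG.1, ?_, ?_⟩
  · rw [mul_pow, ht, one_mul]
    exact hG.2.1
  · rw [mul_pow, ht, one_mul]
    exact hG.2.2

private theorem three {w a b c : ℂ} (hw : w ^ 2 + w + 1 = 0) (h1 : a + b + c = 0)
    (h2 : w * a + w ^ 2 * b + c = 0) (h3 : w ^ 2 * a + w * b + c = 0) :
    a = 0 ∧ b = 0 ∧ c = 0 := by
  have c0 : 3 * c = 0 := by linear_combination h1 + h2 + h3 - (a + b) * hw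
  have c1 : c = 0 := by
    rcases mul_eq_zero.1 c0 with h | h
    · norm_num at h
    · exact h
  subst c1
  have hb : b = -a := by linear_combination h1
  subst hb
  have hw0 : w ≠ 0 := by
    rintro rfl
    norm_num at hw
  have hw1 : 1 - w ≠ 0 := by
    intro h
    have : w = 1 := (sub_eq_zero.1 h).symm
    rw [this] at hw
    norm_num at hw
  have a0 : (w * (1 - w)) * a = 0 := by linear_combination h2
  have a1 : a = 0 := by
    rcases mul_eq_zero.1 a0 with h | h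
    · exact absurd h (mul_ne_zero hw0 hw1)
    · exact h
  exact ⟨a1, by rw [a1, neg_zero], rfl⟩

theorem b_zero {m : ℂ} {r : Cf} (hG : Gen m) (h : HP m Qf.zero r) :
    r.b12 = 0 ∧ r.b13 = 0 ∧ r.b21 = 0 ∧ r.b23 = 0 ∧ r.b31 = 0 ∧ r.b32 = 0 := by
  obtain ⟨w, hw⟩ := ex_w
  have hw3 : w ^ 3 = 1 := by linear_combination (w - 1) * hw
  have hw6 : (w ^ 2) ^ 3 = 1 := by linear_combination (w ^ 3 + 1) * hw3
  have hw4 : (w ^ 2) ^ 2 = w := by linear_combination w * hw3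
  obtain ⟨p1, q1⟩ := pq hG h
  obtain ⟨p2, q2⟩ := pq (gen_rot hG hw3) (h.rot w hw3)
  obtain ⟨p3, q3⟩ := pq (gen_rot hG hw6) (h.rot (w ^ 2) hw6)
  have p2' : w * r.b12 + w ^ 2 * r.b23 + r.b31 = 0 := p2
  have q2' : r.b13 + w ^ 2 * r.b21 + w * r.b32 = 0 := q2
  have p3' : w ^ 2 * r.b12 + (w ^ 2) ^ 2 * r.b23 + r.b31 = 0 := p3
  have q3' : r.b13 + (w ^ 2) ^ 2 * r.b21 + w ^ 2 * r.b32 = 0 := q3
  rw [hw4] at p3' q3'
  obtain ⟨x1, x2, x3⟩ := three hw p1 p2' p3'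
  obtain ⟨y1, y2, y3⟩ := three (a := r.b32) (b := r.b21) (c := r.b13) hw
    (by linear_combination q1) (by linear_combination q2') (by linear_combination q3')
  exact ⟨x1, y3, y2, x2, x3, y1⟩

end Pool.Agent.CLA
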