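import Pool.Agent.CLA.QzG
import Pool.Agent.CLA.FourB
import Pool.Agent.CLA.Dbl
import Pool.Agent.CLA.Base

/-!
# CLA / EndG: general `m`

PROOFS.
* `endG` (`Gen m`): `q = 0` (`q_zero`), `a1 = a2 = a3 =: s` (`lemL3`), all `b = 0` (`b_zero`), so
  `gen = W^3 + s (X^3+Y^3+Z^3) + d XYZ = C s * hes m X Y Z + W^3 + C (d - 3 m s) * XYZ`.  If `d - 3 m s ≠ 0` the member
  `gen - C s * hes` has a double point (`dbl_point`, with `G = W^3`): contradiction to `PenH.dbl`.  Otherwise `no_cube`.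
* `fer_b` (`m = 0`, `q = 0`): `hRho` for `HP.tw`: `dA 0 = dB 0 = 0`, `eA 0 = eB 0 = 0`, so in both cases `(r.tw t).fa = 0`,
  `(r.tw t).fb = 0`: `t b12 - t^2 b13 = 0`, `t^2 b21 - t b31 = 0` for `t^3 = 1` (use `t = 1, w`): `b12 = b13 = b21 = b31 = 0`; for
  the cyclic permutation `b23 = b21 = 0` and `b32 = b12 = 0`: all `b = 0`.
* `fer_d`: `gen - C a1 * hes 0 = W^3 + C (a2-a1) * Y^3 + C (a3-a1) * Z^3 + C d * XYZ`, if `d ≠ 0` it has a double point
  (`dbl_point`), contradiction.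
* `fer_ne`: if `a1 = a2` then `gen = C a1 * (X^3+Y^3+Z^3) + (W^3 + C (a3 - a1) * Z^3)`: `no_two_cubes`; the other two by cyclic
  permutation.
* `fer_dia`: choose `t` with `a_i + t ≠ 0`; `g = f + t c = ∑ b_i X_i^3`, `b = (a1+t, a2+t, a3+t, 1)`, `l_i = b_i^{1/3} X_i`;
  `c = ∑ a'_i l_i^3` with `a' = (1/b_1, 1/b_2, 1/b_3, 0)`, injective as the `a_i` are different and `1/b_i ≠ 0`.
  `Ideal.span {c, f} = Ideal.span {g, c}` (`span_comb`).
-/

set_option autoImplicit false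

namespace Pool.Agent.CLA

open MvPolynomial Pool.Agent.CLU

theorem endG {m : ℂ} {q : Qf} {r : Cf} (hG : Gen m) (h : HP m q r) : False := by
  have hq := q_zero hG h
  subst hq
  obtain ⟨h12, h23⟩ := lemL3 hG h
  obtain ⟨b1, b2, b3, b4, b5, b6⟩ := b_zero hG h
  obtain ⟨X, Y, Z, W, hL, hP⟩ := h
  have hgen : gen Qf.zero r X Y Z W = C r.a1 * hes m X Y Z + (C (r.d - 3 * m * r.a1) * (X * Y * Z) + W ^ 3) := by
    simp only [gen, Qf.ev, Qf.zero, Cf.ev, hes, b1, b2, b3, b4, b5, b6, ← h12, ← h23, map_zero, mul_zero, zero_mul, map_sub,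
      map_mul]
    ring
  by_cases hd : r.d - 3 * m * r.a1 = 0
  · rw [hd, map_zero, zero_mul, zero_add] at hgen
    refine no_cube hL ?_ r.a1 hgen hP.base
    have e1 : hes m X Y Z = X ^ 3 * Y ^ 0 * Z ^ 0 + X ^ 0 * Y ^ 3 * Z ^ 0 + X ^ 0 * Y ^ 0 * Z ^ 3 +
        C (3 * m) * (X ^ 1 * Y ^ 1 * Z ^ 1) := by
      simp only [hes]
      ring
    rw [e1]
    exact (((InF.mon X Y Z 3 0 0).add (InF.mon X Y Z 0 3 0)).add (InF.mon X Y Z 0 0 3)).add
      ((InF.mon X Y Z 1 1 1).C_mul (3 * m))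
  · have hG' : InF 3 Y Z W (W ^ 3) := by
      have := InF.mon Y Z W 0 0 3
      simpa using this
    obtain ⟨p, hp⟩ := dbl_point hL (r.d - 3 * m * r.a1) hd (W ^ 3) hG'
    refine hP.dbl (-r.a1) 1 (by simp) p ?_
    have e2 : C (-r.a1) * hes m X Y Z + C 1 * gen Qf.zero r X Y Z W = C (r.d - 3 * m * r.a1) * (X * Y * Z) + W ^ 3 := by
      rw [hgen, map_neg, map_one]
      ring
    rw [e2]
    exact hp

end Pool.Agent.CLA
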