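import Pool.Agent.CLA.Comb
import Pool.Agent.CLA.Roots

/-!
# CLA / FerD: diagonal form

PROOFS.
* `endG` (`Gen m`): `q = 0` (`q_zero`), `a1 = a2 = a3 =: s` (`lemL3`), all `b = 0` (`b_zero`), so
  `gen = W^3 + s (X^3+Y^3+Z^3) + d XYZ = C s * hes m X Y Z + W^3 + C (d - 3 m s) * XYZ`.  If `d - 3 m s ≠ 0` the member
  `gen - C s * hes` has a double point (`dbl_point`, with `G = W^3`): contradiction to `PenH.dbl`.  Otherwise `no_cube`.
* `fer_b` (`m = 0`, `q = 0`): `hRho` for `HP.tw`: `dA 0 = dB 0 = 0`, `eA 0 = eB 0 = 0`, so in both cases `(r.tw t).fa = 0`,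
  `(r.tw t).fb = 0`: `t b12 - t^2 b13 = 0`, `t^2 b21 - t b31 = 0` for `t^3 = 1` (use `t = 1, w`): `b12 = b13 = b21 = b31 = 0`; for
  the cyclic permutation `b23 = b21 = 0` and `b32 = b12 = 0`: all `b = 0`.
* `fer_d`: `gen - C a1 * hes 0 = W^3 + C (a2-a1) * Y^3 + C (a3-a1) * Z^3 + C d * XYZ`, if `d ≠ 0` it has a double point
  (`dbl_point`), contradiction.
* `fer_ne`: if `a1 = a2` then `gen = C a1 * (X^3+Y^3+Z^3) + (W^3 + C (a3 - a1) * Z^3)`: `no_two_cubes`; the other two by cyclic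
  permutation.
* `fer_dia`: choose `t` with `a_i + t ≠ 0`; `g = f + t c = ∑ b_i X_i^3`, `b = (a1+t, a2+t, a3+t, 1)`, `l_i = b_i^{1/3} X_i`;
  `c = ∑ a'_i l_i^3` with `a' = (1/b_1, 1/b_2, 1/b_3, 0)`, injective as the `a_i` are different and `1/b_i ≠ 0`.
  `Ideal.span {c, f} = Ideal.span {g, c}` (`span_comb`).
-/

set_option autoImplicit false

namespace Pool.Agent.CLA

open MvPolynomial Pool.Agent.CLU

theorem fer_dia {X Y Z W : S} (h : Lin4 X Y Z W) (a1 a2 a3 : ℂ) (h12 : a1 ≠ a2) (h23 : a2 ≠ a3)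
    (h31 : a3 ≠ a1) :
    Dia (Ideal.span {X ^ 3 + Y ^ 3 + Z ^ 3,
      W ^ 3 + C a1 * X ^ 3 + C a2 * Y ^ 3 + C a3 * Z ^ 3}) := by
  classical
  obtain ⟨t, ht⟩ := Infinite.exists_notMem_finset ({-a1, -a2, -a3} : Finset ℂ)
  simp only [Finset.mem_insert, Finset.mem_singleton, not_or] at ht
  obtain ⟨t1, t2, t3⟩ := ht
  have n1 : a1 + t ≠ 0 := fun h0 => t1 (by linear_combination h0)
  have n2 : a2 + t ≠ 0 := fun h0 => t2 (by linear_combination h0)
  have n3 : a3 + t ≠ 0 := fun h0 => t3 (by linear_combination h0)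
  obtain ⟨k1, hk1⟩ := exists_cube (a1 + t)
  obtain ⟨k2, hk2⟩ := exists_cube (a2 + t)
  obtain ⟨k3, hk3⟩ := exists_cube (a3 + t)
  have m1 : k1 ≠ 0 := by
    rintro rfl
    exact n1 (by rw [← hk1]; ring)
  have m2 : k2 ≠ 0 := by
    rintro rfl
    exact n2 (by rw [← hk2]; ring)
  have m3 : k3 ≠ 0 := by
    rintro rfl
    exact n3 (by rw [← hk3]; ring)
  obtain ⟨e1, e2, e3, e4⟩ := h.hom
  have hC : ∀ (k : ℂ) (F : S), F.IsHomogeneous 1 → (C k * F).IsHomogeneous 1 := by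
    intro k F hF
    have h1 := (isHomogeneous_C (Fin 4) k).mul hF
    rwa [zero_add] at h1
  have hL : Lin4 (C k1 * X) (C k2 * Y) (C k3 * Z) W := by
    refine h.of_span (hC _ _ e1) (hC _ _ e2) (hC _ _ e3) e4
      ![![k1⁻¹, 0, 0, 0], ![0, k2⁻¹, 0, 0], ![0, 0, k3⁻¹, 0], ![0, 0, 0, 1]] ?_
    intro i
    fin_cases i
    · simp [← mul_assoc, ← C_mul, m1]
    · simp [← mul_assoc, ← C_mul, m2]
    · simp [← mul_assoc, ← C_mul, m3]
    · simp
  refine ⟨![C k1 * X, C k2 * Y, C k3 * Z, W], ![(a1 + t)⁻¹, (a2 + t)⁻¹, (a3 + t)⁻¹, 0],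
    hL.1, hL.2, ?_, ?_⟩
  · have i1 : (a1 + t)⁻¹ ≠ 0 := inv_ne_zero n1
    have i2 : (a2 + t)⁻¹ ≠ 0 := inv_ne_zero n2
    have i3 : (a3 + t)⁻¹ ≠ 0 := inv_ne_zero n3
    have j12 : (a1 + t)⁻¹ ≠ (a2 + t)⁻¹ := fun h0 => h12 (add_right_cancel (inv_injective h0))
    have j23 : (a2 + t)⁻¹ ≠ (a3 + t)⁻¹ := fun h0 => h23 (add_right_cancel (inv_injective h0))
    have j31 : (a3 + t)⁻¹ ≠ (a1 + t)⁻¹ := fun h0 => h31 (add_right_cancel (inv_injective h0))
    intro i j hij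
    fin_cases i <;> fin_cases j <;>
      first
        | rfl
        | exact absurd hij j12
        | exact absurd hij j23
        | exact absurd hij j31
        | exact absurd hij j12.symm
        | exact absurd hij j23.symm
        | exact absurd hij j31.symm
        | exact absurd hij i1
        | exact absurd hij i2
        | exact absurd hij i3
        | exact absurd hij i1.symm
        | exact absurd hij i2.symm
        | exact absurd hij i3.symm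
  · have hs := span_comb (X ^ 3 + Y ^ 3 + Z ^ 3)
      (W ^ 3 + C a1 * X ^ 3 + C a2 * Y ^ 3 + C a3 * Z ^ 3) t 1 1 0 (by norm_num)
    rw [← hs]
    have c1 : (C k1 : S) ^ 3 = C a1 + C t := by rw [← C_pow, hk1, C_add]
    have c2 : (C k2 : S) ^ 3 = C a2 + C t := by rw [← C_pow, hk2, C_add]
    have c3 : (C k3 : S) ^ 3 = C a3 + C t := by rw [← C_pow, hk3, C_add]
    have d1 : (C (a1 + t)⁻¹ : S) * C k1 ^ 3 = 1 := by
      rw [← C_pow, hk1, ← C_mul, inv_mul_cancel₀ n1, C_1]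
    have d2 : (C (a2 + t)⁻¹ : S) * C k2 ^ 3 = 1 := by
      rw [← C_pow, hk2, ← C_mul, inv_mul_cancel₀ n2, C_1]
    have d3 : (C (a3 + t)⁻¹ : S) * C k3 ^ 3 = 1 := by
      rw [← C_pow, hk3, ← C_mul, inv_mul_cancel₀ n3, C_1]
    congr 2
    · simp only [Fin.sum_univ_four, Matrix.cons_val_zero, Matrix.cons_val_one, Matrix.cons_val,
        C_1, one_mul]
      linear_combination (-X ^ 3) * c1 + (-Y ^ 3) * c2 + (-Z ^ 3) * c3
    · simp only [Fin.sum_univ_four, Matrix.cons_val_zero, Matrix.cons_val_one, Matrix.cons_val,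
        C_1, C_0, one_mul, zero_mul, add_zero]
      congr 1
      linear_combination (-X ^ 3) * d1 + (-Y ^ 3) * d2 + (-Z ^ 3) * d3

end Pool.Agent.CLA
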