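import Pool.Agent.CLA.HesF

/-!
# CLA / HesG: `q` and `r` at the flex `(0, 1, -1)`

`x = (Y - Z)/2`, `y = (4 + n) X + 3 m^2 (Y + Z)`, `z = 3 (Y + Z) - 3 m X`, `n = m^3`, `D = 1 + n ≠ 0`.  Inverse:
`X = (y - m^2 z)/(4 D)`, `Y = q' + x`, `Z = q' - x`, `q' = (3 m y + (4 + n) z)/(24 D)`.

PROOFS.
* `fx_lin`: `Lin4.of_span` with the inverse formulas.
* `hes_wei`: an identity (in terms of `p = X`, `q' = (Y + Z)/2`, `x`: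
  `hes = p^3 + 2 q'^3 + 3 m p q'^2 + x^2 (6 q' - 3 m p)` and
  `64 D^2 (p^3 + 2 q'^3 + 3 m p q'^2) = y^3 + m (8-n)/3 y z^2 + 2/27 (8-20n-n^2) z^3`).
* `hes_disc`: `4 ε^3 + 27 a ζ^2 = 1 / (64 * 432 * D^3)`-like: with `u = m (8-n)`, `v = 8 - 20 n - n^2`:
  `u^3 + v^2 = 64 D^3` and `4 ε^3 + 27 a ζ^2 = 4 u^3/(192 D^2)^3 + 27 v^2/(64 D^2 (864 D^2)^2)
  = 4 (u^3 + v^2)/(192^3 D^6)` (`192^3 * 27 = 4 * 64 * 864^2`).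
* `q_wei`, `r_wei`: substitute the inverse formulas and compare; the remaining coefficients are found by expanding
  (`q.ev = x^2 (q2+q3-2q23) + 2 x ((q2-q3) q' + (q12-q13) p) + (q1 p^2 + (q2+q3+2q23) q'^2 + 2 (q12+q13) p q')`;
  odd part of `r.ev` in `x`: `fr x^3 + x (fa p^2 + 2 fb p q' + fc q'^2)`; even part: `x^2 * linear + cubic in p, q'`).
-/

set_option autoImplicit false

namespace Pool.Agent.CLA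

open MvPolynomial Pool.Agent.CLU

variable {X Y Z W : S} {m : ℂ}

theorem q_wei (hD : 1 + m ^ 3 ≠ 0) (q : Qf) (X Y Z : S) :
    ∃ E F G : ℂ, q.ev X Y Z = qd (q.q2 + q.q3 - 2 * q.q23)
      ((m * (q.q2 - q.q3) + 2 * (q.q12 - q.q13)) / (8 * (1 + m ^ 3)))
      ((4 * q.q1 + m ^ 2 * (q.q2 + q.q3 + 2 * q.q23) + 4 * m * (q.q12 + q.q13)) /
        (64 * (1 + m ^ 3) ^ 2)) E F G (fx Y Z) (fy m X Y Z) (fz m X Y Z) := by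
  refine ⟨((4 + m ^ 3) * (q.q2 - q.q3) - 6 * m ^ 2 * (q.q12 - q.q13)) / (24 * (1 + m ^ 3)),
    (q.q1 * (1 / (4 * (1 + m ^ 3))) * (-m ^ 2 / (4 * (1 + m ^ 3))) +
      (q.q2 + q.q3 + 2 * q.q23) * (3 * m / (24 * (1 + m ^ 3))) *
        ((4 + m ^ 3) / (24 * (1 + m ^ 3))) +
      (q.q12 + q.q13) * (1 / (4 * (1 + m ^ 3)) * ((4 + m ^ 3) / (24 * (1 + m ^ 3))) +
        (-m ^ 2 / (4 * (1 + m ^ 3))) * (3 * m / (24 * (1 + m ^ 3))))),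
    (q.q1 * (-m ^ 2 / (4 * (1 + m ^ 3))) ^ 2 +
      (q.q2 + q.q3 + 2 * q.q23) * ((4 + m ^ 3) / (24 * (1 + m ^ 3))) ^ 2 +
      2 * (q.q12 + q.q13) * (-m ^ 2 / (4 * (1 + m ^ 3))) * ((4 + m ^ 3) / (24 * (1 + m ^ 3)))), ?_⟩
  apply MvPolynomial.funext
  intro v
  simp only [qd, fx, fy, fz, Qf.ev, map_add, map_mul, map_sub, map_pow, eval_C]
  obtain ⟨y, hy⟩ : ∃ y, y = (4 + m ^ 3) * eval v X + 3 * m ^ 2 * (eval v Y + eval v Z) := ⟨_, rfl⟩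
  obtain ⟨z, hz⟩ : ∃ z, z = 3 * (eval v Y + eval v Z) - 3 * m * eval v X := ⟨_, rfl⟩
  obtain ⟨x, hx⟩ : ∃ x, x = 1 / 2 * (eval v Y - eval v Z) := ⟨_, rfl⟩
  have hX : eval v X = (y - m ^ 2 * z) / (4 * (1 + m ^ 3)) := by
    rw [hy, hz]
    field_simp
    ring
  have hY : eval v Y = (3 * m * y + (4 + m ^ 3) * z) / (24 * (1 + m ^ 3)) + x := by
    rw [hy, hz, hx]
    field_simp
    ring
  have hZ : eval v Z = (3 * m * y + (4 + m ^ 3) * z) / (24 * (1 + m ^ 3)) - x := by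
    rw [hy, hz, hx]
    field_simp
    ring
  rw [← hy, ← hz, ← hx, hX, hY, hZ]
  clear hX hY hZ hx hy hz
  field_simp
  ring

theorem r_wei (hD : 1 + m ^ 3 ≠ 0) (r : Cf) (X Y Z : S) :
    ∃ s1 s2 t0 t1 t2 t3 : ℂ, r.ev X Y Z = cu r.fr s1 s2
      ((4 * r.fa + 4 * m * r.fb + m ^ 2 * r.fc) / (64 * (1 + m ^ 3) ^ 2))
      ((-12 * m ^ 2 * r.fa + 2 * (4 - 2 * m ^ 3) * r.fb + m * (4 + m ^ 3) * r.fc) /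
        (96 * (1 + m ^ 3) ^ 2))
      ((36 * m ^ 4 * r.fa - 12 * m ^ 2 * (4 + m ^ 3) * r.fb + (4 + m ^ 3) ^ 2 * r.fc) /
        (576 * (1 + m ^ 3) ^ 2)) t0 t1 t2 t3 (fx Y Z) (fy m X Y Z) (fz m X Y Z) := by
  obtain ⟨P0, hP0⟩ : ∃ P0 : ℂ, P0 = 1 / (4 * (1 + m ^ 3)) := ⟨_, rfl⟩
  obtain ⟨P1, hP1⟩ : ∃ P1 : ℂ, P1 = -m ^ 2 / (4 * (1 + m ^ 3)) := ⟨_, rfl⟩
  obtain ⟨Q0, hQ0⟩ : ∃ Q0 : ℂ, Q0 = 3 * m / (24 * (1 + m ^ 3)) := ⟨_, rfl⟩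
  obtain ⟨Q1, hQ1⟩ : ∃ Q1 : ℂ, Q1 = (4 + m ^ 3) / (24 * (1 + m ^ 3)) := ⟨_, rfl⟩
  refine ⟨(3 * r.a2 + 3 * r.a3 - r.b23 - r.b32) * Q0 + (r.b21 + r.b31 - r.d) * P0,
    (3 * r.a2 + 3 * r.a3 - r.b23 - r.b32) * Q1 + (r.b21 + r.b31 - r.d) * P1,
    r.a1 * P0 ^ 3 + (r.a2 + r.a3 + r.b23 + r.b32) * Q0 ^ 3 + (r.b12 + r.b13) * (P0 ^ 2 * Q0) +
      (r.b21 + r.b31 + r.d) * (P0 * Q0 ^ 2),
    3 * r.a1 * P0 ^ 2 * P1 + 3 * (r.a2 + r.a3 + r.b23 + r.b32) * Q0 ^ 2 * Q1 +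
      (r.b12 + r.b13) * (2 * P0 * P1 * Q0 + P0 ^ 2 * Q1) +
      (r.b21 + r.b31 + r.d) * (P1 * Q0 ^ 2 + 2 * P0 * Q0 * Q1),
    3 * r.a1 * P0 * P1 ^ 2 + 3 * (r.a2 + r.a3 + r.b23 + r.b32) * Q0 * Q1 ^ 2 +
      (r.b12 + r.b13) * (P1 ^ 2 * Q0 + 2 * P0 * P1 * Q1) +
      (r.b21 + r.b31 + r.d) * (2 * P1 * Q0 * Q1 + P0 * Q1 ^ 2),
    r.a1 * P1 ^ 3 + (r.a2 + r.a3 + r.b23 + r.b32) * Q1 ^ 3 + (r.b12 + r.b13) * (P1 ^ 2 * Q1) +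
      (r.b21 + r.b31 + r.d) * (P1 * Q1 ^ 2), ?_⟩
  have e0 : (4 * r.fa + 4 * m * r.fb + m ^ 2 * r.fc) / (64 * (1 + m ^ 3) ^ 2) =
      r.fa * P0 ^ 2 + 2 * r.fb * (P0 * Q0) + r.fc * Q0 ^ 2 := by
    rw [hP0, hQ0]
    field_simp
    ring
  have e1 : (-12 * m ^ 2 * r.fa + 2 * (4 - 2 * m ^ 3) * r.fb + m * (4 + m ^ 3) * r.fc) /
        (96 * (1 + m ^ 3) ^ 2) =
      2 * r.fa * (P0 * P1) + 2 * r.fb * (P0 * Q1 + P1 * Q0) + 2 * r.fc * (Q0 * Q1) := by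
    rw [hP0, hQ0, hP1, hQ1]
    field_simp
    ring
  have e2 : (36 * m ^ 4 * r.fa - 12 * m ^ 2 * (4 + m ^ 3) * r.fb + (4 + m ^ 3) ^ 2 * r.fc) /
        (576 * (1 + m ^ 3) ^ 2) =
      r.fa * P1 ^ 2 + 2 * r.fb * (P1 * Q1) + r.fc * Q1 ^ 2 := by
    rw [hP1, hQ1]
    field_simp
    ring
  rw [e0, e1, e2]
  apply MvPolynomial.funext
  intro v
  simp only [cu, fx, fy, fz, Cf.ev, map_add, map_mul, map_sub, map_pow, eval_C]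
  obtain ⟨y, hy⟩ : ∃ y, y = (4 + m ^ 3) * eval v X + 3 * m ^ 2 * (eval v Y + eval v Z) := ⟨_, rfl⟩
  obtain ⟨z, hz⟩ : ∃ z, z = 3 * (eval v Y + eval v Z) - 3 * m * eval v X := ⟨_, rfl⟩
  obtain ⟨x, hx⟩ : ∃ x, x = 1 / 2 * (eval v Y - eval v Z) := ⟨_, rfl⟩
  have hX : eval v X = P0 * y + P1 * z := by
    rw [hy, hz, hP0, hP1]
    field_simp
    ring
  have hY : eval v Y = Q0 * y + Q1 * z + x := by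
    rw [hy, hz, hx, hQ0, hQ1]
    field_simp
    ring
  have hZ : eval v Z = Q0 * y + Q1 * z - x := by
    rw [hy, hz, hx, hQ0, hQ1]
    field_simp
    ring
  rw [← hy, ← hz, ← hx, hX, hY, hZ]
  clear hX hY hZ hx hy hz e0 e1 e2 hP0 hP1 hQ0 hQ1
  simp only [Cf.fa, Cf.fb, Cf.fc, Cf.fr]
  ring

end Pool.Agent.CLA
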