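import Pool.Agent.CLA.Qz
import Pool.Agent.CLA.HesG
import Pool.Agent.CLA.Comb

/-!
# CLA / Kap: the Fermat cubic, `q = κ X^2`

PROOFS.
* `kap_r`: `dich_tw` (or `hDich`) with `m = 0`: the first alternative says `4 q1 = 0` and `4 (r.tw t).fa = 0`, the second
  `t^2 q2 + t q3 = 0` and `(r.tw t).fr = 0`.  For `q = κ X^2`, `κ ≠ 0`: first alternative is impossible, so `(r.tw t).fr = 0`:
  `(a2 - a3) - (t b23 - t^2 b32) = 0` for all `t^3 = 1`; for the cyclic permutation (`q.cyc = κ Z^2`-type: `q1' = 0, q2' = 0,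
  q3' = κ`): `t κ ≠ 0`, so `(r.cyc.tw t).fa = 0`: `t b23 - t^2 b21 = 0` for all `t`: `b23 = b21 = 0`; for `cyc.cyc`
  (`q2'' = κ`): `t b31 - t^2 b32 = 0` for all `t`: `b31 = b32 = 0`.  Hence `a2 = a3`.
* `kap`: assume `κ = q1 ≠ 0`.  The coordinates `X, Y, Z, W` come from `HP`; subtract `a2` times the first generator from the
  second (`NoNod` does not change: same ideal): `f' = W^3 + κ W X^2 + r'` with `r' = (a1 - a2) X^3 + b12 X^2 Y + b13 X^2 Z +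
  (d) XYZ`.  At the flex `(0, 1, -1)`, `m = 0`: `x = (Y-Z)/2`, `y = 4 X`, `z = 3 (Y + Z)`: `X = y/4`, so `κ X^2 = (κ/16) y^2`
  (`A = B = E = F = G = 0`, `D = κ/16`); `r'` has `fr = 0`, `fa = b12 - b13 =: β`, `fb = fc = 0`, so `R = 0`, `p0 = β/16`,
  `p1 = p2 = 0` (`r_wei` with `m = 0`); `hes 0 = wei (1/64) 0 (1/108)`.  Let `g^3 = 16`, `w0 ≠ 0` with
  `w0^3 = g (κ w0 + β)` (`kappa_root`), `N = w0^3 ≠ 0`, `L = κ w0 + β ≠ 0`, `N^3 = 16 L^3`, `η = 8 L/(3 N)`.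
  `flex3`: `N/64 η^3 - L/16 η^2 + N/108 = 0`, `3 N/64 η^2 - L/8 η = 0` hold, so `3 N/64 η = L/16`, i.e. `L/8 = L/16`:
  contradiction.
-/

set_option autoImplicit false

namespace Pool.Agent.CLA

open MvPolynomial Pool.Agent.CLU

variable {q : Qf} {r : Cf}

theorem kap_r (h : HP 0 q r) (h1 : q.q1 ≠ 0) (h2 : q.q2 = 0) (h3 : q.q3 = 0) :
    r.b23 = 0 ∧ r.b21 = 0 ∧ r.b31 = 0 ∧ r.b32 = 0 ∧ r.a2 = r.a3 := by
  obtain ⟨w, hw, hw3, hw1⟩ := exists_om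
  have hD : (1 : ℂ) + (0 : ℂ) ^ 3 ≠ 0 := by norm_num
  have hw0 : w ≠ 0 := by
    rintro rfl
    norm_num at hw3
  have key : ∀ a b : ℂ, (∀ t : ℂ, t ^ 3 = 1 → t * a - t ^ 2 * b = 0) → a = 0 ∧ b = 0 := by
    intro a b hab
    have e1 : a = b := by linear_combination hab 1 (by norm_num)
    have e2 := hab w hw3
    rw [e1] at e2
    have e3 : w * (1 - w) * b = 0 := by linear_combination e2
    have hb : b = 0 := by
      rcases mul_eq_zero.1 e3 with e4 | e4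
      · rcases mul_eq_zero.1 e4 with e5 | e5
        · exact absurd e5 hw0
        · exact absurd (by linear_combination -e5) hw1
      · exact e4
    exact ⟨e1.trans hb, hb⟩
  have ht0 : ∀ t : ℂ, t ^ 3 = 1 → t ≠ 0 := by
    rintro t ht rfl
    norm_num at ht
  have A1 : ∀ t : ℂ, t ^ 3 = 1 → (r.a2 - r.a3) - (t * r.b23 - t ^ 2 * r.b32) = 0 := by
    intro t ht
    rcases dich_tw hD h t ht with ⟨e, -⟩ | ⟨-, e⟩
    · exact absurd (by linear_combination (1 / 4) * e) h1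
    · exact e
  have A2 : ∀ t : ℂ, t ^ 3 = 1 → t * r.b23 - t ^ 2 * r.b21 = 0 := by
    intro t ht
    rcases dich_tw hD h.cyc t ht with ⟨-, e⟩ | ⟨e, -⟩
    · have e' : 4 * (t * r.b23 - t ^ 2 * r.b21) + 4 * 0 * (r.cyc.tw t).fb +
          0 ^ 2 * (r.cyc.tw t).fc = 0 := e
      linear_combination (1 / 4) * e'
    · have e' : t ^ 2 * q.q3 + t * q.q1 = 0 * q.q2 := e
      rw [h3] at e'
      exact absurd (mul_eq_zero.1 (by linear_combination e' : t * q.q1 = 0))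
        (not_or.2 ⟨ht0 t ht, h1⟩)
  have A3 : ∀ t : ℂ, t ^ 3 = 1 → t * r.b31 - t ^ 2 * r.b32 = 0 := by
    intro t ht
    rcases dich_tw hD h.cyc.cyc t ht with ⟨-, e⟩ | ⟨e, -⟩
    · have e' : 4 * (t * r.b31 - t ^ 2 * r.b32) + 4 * 0 * (r.cyc.cyc.tw t).fb +
          0 ^ 2 * (r.cyc.cyc.tw t).fc = 0 := e
      linear_combination (1 / 4) * e'
    · have e' : t ^ 2 * q.q1 + t * q.q2 = 0 * q.q3 := e
      rw [h2] at e'
      exact absurd (mul_eq_zero.1 (by linear_combination e' : t ^ 2 * q.q1 = 0))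
        (not_or.2 ⟨pow_ne_zero 2 (ht0 t ht), h1⟩)
  obtain ⟨b1, b2⟩ := key _ _ A2
  obtain ⟨b3, b4⟩ := key _ _ A3
  refine ⟨b1, b2, b3, b4, ?_⟩
  have e := A1 1 (by norm_num)
  rw [b1, b4] at e
  linear_combination e

theorem kap (h : HP 0 q r) (h2 : q.q2 = 0) (h3 : q.q3 = 0) (h12 : q.q12 = 0) (h13 : q.q13 = 0)
    (h23 : q.q23 = 0) : q.q1 = 0 := by
  by_contra h1
  obtain ⟨b1, b2, b3, b4, b5⟩ := kap_r h h1 h2 h3
  obtain ⟨X, Y, Z, W, hl, hP⟩ := h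
  have hD : (1 : ℂ) + (0 : ℂ) ^ 3 ≠ 0 := by norm_num
  set r' : Cf := ⟨r.a1 - r.a2, 0, 0, r.b12, r.b13, 0, 0, 0, 0, r.d⟩ with hr'
  have hgen : gen q r X Y Z W = (W ^ 3 + W * q.ev X Y Z + r'.ev X Y Z) + C r.a2 * hes 0 X Y Z := by
    simp only [gen, hr', Cf.ev, hes, b1, b2, b3, b4, ← b5, map_sub, map_zero, map_mul]
    ring
  have hP' := PenH.comb' hP 1 r.a2 one_ne_zero (by rw [map_one, one_mul]) hgen
  have hq : q.ev X Y Z = qd 0 0 (q.q1 / 16) 0 0 0 (fx Y Z) (fy 0 X Y Z) (fz 0 X Y Z) := by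
    have e16 : (C (q.q1 / 16) : S) * C 16 = C q.q1 := by
      rw [← C_mul]
      congr 1
      ring
    have e4 : (C 4 : S) * C 4 = C 16 := by
      rw [← C_mul]
      norm_num
    simp only [Qf.ev, qd, fx, fy, fz, h2, h3, h12, h13, h23, mul_zero, map_zero, zero_mul, add_zero,
      zero_add, ne_eq, OfNat.ofNat_ne_zero, not_false_eq_true, zero_pow]
    linear_combination (-(C (q.q1 / 16) * X ^ 2)) * e4 - X ^ 2 * e16
  obtain ⟨s1, s2, t0, t1, t2, t3, hr⟩ := r_wei hD r' X Y Z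
  have hN := hP'.nod
  rw [hes_wei hD, hq, hr] at hN
  have hfr : r'.fr = 0 := by simp [Cf.fr, hr']
  set β : ℂ := r.b12 - r.b13 with hβ
  obtain ⟨g, hg⟩ := exists_cube 16
  have hg0 : g ≠ 0 := by
    rintro rfl
    norm_num at hg
  obtain ⟨w0, hw0, hw⟩ := kappa_root g q.q1 β hg0 h1
  have hw3 : w0 ^ 3 ≠ 0 := pow_ne_zero 3 hw0
  set L : ℂ := q.q1 * w0 + β with hL
  have hL0 : L ≠ 0 := by
    intro e
    rw [e, mul_zero] at hw
    exact hw3 hw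
  have hNL : (w0 ^ 3) ^ 3 = 16 * L ^ 3 := by
    rw [hw, mul_pow, hg]
  have hfa : r'.fa = β := rfl
  have hfb : r'.fb = 0 := by simp [Cf.fb, hr']
  have hfc : r'.fc = 0 := by simp [Cf.fc, hr']
  have hlin : w0 * (q.q1 / 16) + (4 * r'.fa + 4 * 0 * r'.fb + 0 ^ 2 * r'.fc) /
      (64 * (1 + 0 ^ 3) ^ 2) = L / 16 := by
    rw [hfa, hfb, hfc, hL]
    ring
  have h3' := flex3 (fx_lin hD hl) hN rfl rfl w0 (8 * L / (3 * w0 ^ 3)) (w0 ^ 3) hw0
    (by rw [hfr]; ring) (by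
      rw [hlin, hfa, hfb, hfc]
      field_simp
      linear_combination (2348273369088 : ℂ) * hNL) (by
      rw [hlin, hfa, hfb, hfc]
      field_simp
      ring)
  rw [hlin] at h3'
  apply hL0
  field_simp at h3'
  linear_combination (1 / 64 : ℂ) * h3'

/-- for the Fermat cubic `q = 0` -/
theorem q_zero_fermat (h : HP 0 q r) : q = Qf.zero := by
  obtain ⟨h12, h13, h23, h1, h2, h3⟩ := q_fermat h
  have k1 : q.q1 = 0 := by
    rcases h1 with h1 | ⟨ha, hb⟩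
    · exact h1
    · exact kap h ha hb h12 h13 h23
  have k2 : q.q2 = 0 := by
    rcases h2 with h2 | ⟨ha, hb⟩
    · exact h2
    · exact kap (q := q.cyc) h.cyc ha hb h23 h12 h13
  have k3 : q.q3 = 0 := by
    rcases h3 with h3 | ⟨ha, hb⟩
    · exact h3
    · exact kap (q := q.cyc.cyc) h.cyc.cyc ha hb h13 h23 h12
  cases q
  simp only at *
  subst_vars
  rfl

end Pool.Agent.CLA
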