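import Pool.Agent.CLA.Fer
import Pool.Agent.CLA.FerD
import Pool.Agent.CLA.Kap

/-!
# CLA / Ends: the Fermat case

PROOFS.
* `endG` (`Gen m`): `q = 0` (`q_zero`), `a1 = a2 = a3 =: s` (`lemL3`), all `b = 0` (`b_zero`), so
  `gen = W^3 + s (X^3+Y^3+Z^3) + d XYZ = C s * hes m X Y Z + W^3 + C (d - 3 m s) * XYZ`.  If `d - 3 m s ≠ 0` the member
  `gen - C s * hes` has a double point (`dbl_point`, with `G = W^3`): contradiction to `PenH.dbl`.  Otherwise `no_cube`.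
* `fer_b` (`m = 0`, `q = 0`): `hRho` for `HP.tw`: `dA 0 = dB 0 = 0`, `eA 0 = eB 0 = 0`, so in both cases `(r.tw t).fa = 0`,
  `(r.tw t).fb = 0`: `t b12 - t^2 b13 = 0`, `t^2 b21 - t b31 = 0` for `t^3 = 1` (use `t = 1, w`): `b12 = b13 = b21 = b31 = 0`; for
  the cyclic permutation `b23 = b21 = 0` and `b32 = b12 = 0`: all `b = 0`.
* `fer_d`: `gen - C a1 * hes 0 = W^3 + C (a2-a1) * Y^3 + C (a3-a1) * Z^3 + C d * XYZ`, if `d ≠ 0` it has a double point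
  (`dbl_point`), contradiction.
* `fer_ne`: if `a1 = a2` then `gen = C a1 * (X^3+Y^3+Z^3) + (W^3 + C (a3 - a1) * Z^3)`: `no_two_cubes`; the other two by cyclic
  permutation.
* `fer_dia`: choose `t` with `a_i + t ≠ 0`; `g = f + t c = ∑ b_i X_i^3`, `b = (a1+t, a2+t, a3+t, 1)`, `l_i = b_i^{1/3} X_i`;
  `c = ∑ a'_i l_i^3` with `a' = (1/b_1, 1/b_2, 1/b_3, 0)`, injective as the `a_i` are different and `1/b_i ≠ 0`.
  `Ideal.span {c, f} = Ideal.span {g, c}` (`span_comb`).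
-/

set_option autoImplicit false

namespace Pool.Agent.CLA

open MvPolynomial Pool.Agent.CLU

/-- the Fermat case -/
theorem endF {q : Qf} {r : Cf} {X Y Z W : S} (hl : Lin4 X Y Z W)
    (h : PenH (hes 0 X Y Z) (gen q r X Y Z W)) : Dia (Ideal.span {hes 0 X Y Z, gen q r X Y Z W}) := by
  have hP : HP 0 q r := ⟨X, Y, Z, W, hl, h⟩
  have hq : q = Qf.zero := q_zero_fermat hP
  subst hq
  obtain ⟨h1, h2, h3, h4, h5, h6⟩ := fer_b hP
  have hd := fer_d hP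
  obtain ⟨n1, n2, n3⟩ := fer_ne hP
  have e1 : hes 0 X Y Z = X ^ 3 + Y ^ 3 + Z ^ 3 := by simp [hes]
  have e2 : gen Qf.zero r X Y Z W = W ^ 3 + C r.a1 * X ^ 3 + C r.a2 * Y ^ 3 + C r.a3 * Z ^ 3 := by
    simp only [gen, Qf.ev, Cf.ev, Qf.zero, h1, h2, h3, h4, h5, h6, hd, map_zero, mul_zero, zero_mul,
      add_zero]
    ring
  rw [e1, e2]
  exact fer_dia hl _ _ _ n1 n2 n3

end Pool.Agent.CLA
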