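import Pool.Agent.CLA.Sub
import Pool.Agent.CLA.Roots

/-!
# CLA / Equi: `m^3 = 8` is the Fermat cubic in other coordinates; the theorem for a pencil in Hesse form

PROOFS.
* `sub_q`, `sub_r`: substitute and expand; the coefficients of the new form are found by expanding (`q.ev` of three linear
  forms in `X', Y', Z'` is a combination of the six monomials of degree two, etc.).
* `equi`: `t = m / 2`, `t^3 = 1`, `Y1 = t Y`: `hes m X Y Z = X^3 + Y1^3 + Z^3 + 6 X Y1 Z = (1/3) ∑_{i=0,1,2} (X + w^i Y1 + w^{2i} Z)^3`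
  (`w^2 + w + 1 = 0`).  With `k^3 = 1/3`: `X' = k (X + Y1 + Z)`, `Y' = k (X + w Y1 + w^2 Z)`, `Z' = k (X + w^2 Y1 + w Z)`;
  inverse: `3 k X = X' + Y' + Z'`, `3 k Y1 = X' + w^2 Y' + w Z'`, `3 k Z = X' + w Y' + w^2 Z'`, `Y = t^2 Y1`.
-/

set_option autoImplicit false

namespace Pool.Agent.CLA

open MvPolynomial Pool.Agent.CLU

private theorem id1_h75 {R : Type*} [CommRing R] {X Y Z T K I W : R} (h1 : W ^ 2 + W + 1 = 0) (h2 : 3 * K * I = 1) :
    X = I * (K * (X + T * Y + Z)) + I * (K * (X + W * T * Y + W ^ 2 * Z)) +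
      I * (K * (X + W ^ 2 * T * Y + W * Z)) := by
  linear_combination (-X) * h2 - I * K * (T * Y + Z) * h1

private theorem id2_h75 {R : Type*} [CommRing R] {X Y Z T K I W : R} (h1 : W ^ 2 + W + 1 = 0) (h3 : W ^ 3 = 1)
    (h2 : 3 * K * I = 1) (hT : T ^ 3 = 1) :
    Y = T ^ 2 * I * (K * (X + T * Y + Z)) + T ^ 2 * I * W ^ 2 * (K * (X + W * T * Y + W ^ 2 * Z)) +
      T ^ 2 * I * W * (K * (X + W ^ 2 * T * Y + W * Z)) := by
  linear_combination (-(T ^ 3 * Y)) * h2 - Y * hT - 2 * T ^ 3 * I * K * Y * h3 - T ^ 2 * I * K * (X + Z) * h1 -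
    T ^ 2 * I * K * Z * W * h3

private theorem id3_h75 {R : Type*} [CommRing R] {X Y Z T K I W : R} (h1 : W ^ 2 + W + 1 = 0) (h3 : W ^ 3 = 1)
    (h2 : 3 * K * I = 1) :
    Z = I * (K * (X + T * Y + Z)) + I * W * (K * (X + W * T * Y + W ^ 2 * Z)) +
      I * W ^ 2 * (K * (X + W ^ 2 * T * Y + W * Z)) := by
  linear_combination (-Z) * h2 - 2 * I * K * Z * h3 - I * K * (X + T * Y) * h1 -
    I * K * T * Y * W * h3

private theorem id4_h75 {R : Type*} [CommRing R] {X Y Z T K W : R} (h1 : W ^ 2 + W + 1 = 0) (h3 : W ^ 3 = 1)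
    (hK : 3 * K ^ 3 = 1) (hT : T ^ 3 = 1) :
    X ^ 3 + Y ^ 3 + Z ^ 3 + 6 * T * (X * Y * Z) = (K * (X + T * Y + Z)) ^ 3 +
      (K * (X + W * T * Y + W ^ 2 * Z)) ^ 3 + (K * (X + W ^ 2 * T * Y + W * Z)) ^ 3 := by
  linear_combination (-Y ^ 3) * hT - (X ^ 3 + (T * Y) ^ 3 + Z ^ 3 + 6 * X * (T * Y) * Z) * hK -
    K ^ 3 * (((T * Y) ^ 3 + Z ^ 3) * (W ^ 3 + 2) * h3 +
      3 * (X ^ 2 * (T * Y) + X ^ 2 * Z + X * (T * Y) ^ 2 + X * Z ^ 2 + (T * Y) ^ 2 * Z + (T * Y) * Z ^ 2) * h1 +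
      (3 * (X * (T * Y) ^ 2 + X * Z ^ 2) * W + 3 * ((T * Y) ^ 2 * Z + (T * Y) * Z ^ 2) * (W + W ^ 2) +
        12 * X * (T * Y) * Z) * h3)

theorem equi {m : ℂ} (hm : m ^ 3 = 8) {X Y Z W : S} (h : Lin4 X Y Z W) :
    ∃ X' Y' Z' : S, Lin4 X' Y' Z' W ∧ Cmb X Y Z X' Y' Z' ∧ hes m X Y Z = hes 0 X' Y' Z' := by
  obtain ⟨w, hw1, hw3, -⟩ := exists_om
  obtain ⟨k, hk⟩ := exists_cube (1 / 3)
  obtain ⟨t, ht⟩ : ∃ t : ℂ, m = 2 * t := ⟨m / 2, by ring⟩
  have ht3 : t ^ 3 = 1 := by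
    have h8 : 8 * t ^ 3 = 8 * 1 := by
      rw [← (by ring : (2 * t) ^ 3 = 8 * t ^ 3), ← ht, hm]
      ring
    exact mul_left_cancel₀ (by norm_num) h8
  have hk0 : k ≠ 0 := by
    rintro rfl
    norm_num at hk
  obtain ⟨i, hi⟩ : ∃ i : ℂ, 3 * k * i = 1 := ⟨(3 * k)⁻¹, mul_inv_cancel₀ (mul_ne_zero (by norm_num) hk0)⟩
  have H1 : (C w : S) ^ 2 + C w + 1 = 0 := by
    have := congrArg (C : ℂ → S) hw1
    simpa only [map_add, map_pow, map_one, map_zero] using this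
  have H3 : (C w : S) ^ 3 = 1 := by
    have := congrArg (C : ℂ → S) hw3
    simpa only [map_pow, map_one] using this
  have HT : (C t : S) ^ 3 = 1 := by
    have := congrArg (C : ℂ → S) ht3
    simpa only [map_pow, map_one] using this
  have HK : 3 * (C k : S) ^ 3 = 1 := by
    have h5 : 3 * k ^ 3 = 1 := by
      rw [hk]
      norm_num
    have := congrArg (C : ℂ → S) h5
    simpa only [map_mul, map_pow, map_one, map_ofNat] using this
  have HI : 3 * (C k : S) * C i = 1 := by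
    have := congrArg (C : ℂ → S) hi
    simpa only [map_mul, map_one, map_ofNat] using this
  have hom1 : (C k * (X + C t * Y + Z) : S).IsHomogeneous 1 := by
    have h5 := h.hom_comb k (k * t) k 0
    have e : (C k * X + C (k * t) * Y + C k * Z + C 0 * W : S) = C k * (X + C t * Y + Z) := by
      rw [map_mul, map_zero]
      ring
    rwa [e] at h5
  have hom2 : (C k * (X + C w * C t * Y + C w ^ 2 * Z) : S).IsHomogeneous 1 := by
    have h5 := h.hom_comb k (k * w * t) (k * w ^ 2) 0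
    have e : (C k * X + C (k * w * t) * Y + C (k * w ^ 2) * Z + C 0 * W : S) =
        C k * (X + C w * C t * Y + C w ^ 2 * Z) := by
      rw [map_mul, map_mul, map_mul, map_zero, map_pow]
      ring
    rwa [e] at h5
  have hom3 : (C k * (X + C w ^ 2 * C t * Y + C w * Z) : S).IsHomogeneous 1 := by
    have h5 := h.hom_comb k (k * w ^ 2 * t) (k * w) 0
    have e : (C k * X + C (k * w ^ 2 * t) * Y + C (k * w) * Z + C 0 * W : S) =
        C k * (X + C w ^ 2 * C t * Y + C w * Z) := by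
      rw [map_mul, map_mul, map_mul, map_zero, map_pow]
      ring
    rwa [e] at h5
  refine ⟨_, _, _, h.of_span hom1 hom2 hom3 h.hom.2.2.2
    ![![i, i, i, 0], ![t ^ 2 * i, t ^ 2 * i * w ^ 2, t ^ 2 * i * w, 0], ![i, i * w, i * w ^ 2, 0], ![0, 0, 0, 1]] ?_,
    ⟨![![i, i, i], ![t ^ 2 * i, t ^ 2 * i * w ^ 2, t ^ 2 * i * w], ![i, i * w, i * w ^ 2]], ?_⟩, ?_⟩
  · intro j
    fin_cases j
    · show X = C i * _ + C i * _ + C i * _ + C 0 * W
      rw [map_zero, zero_mul, add_zero]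
      exact id1_h75 H1 HI
    · show Y = C (t ^ 2 * i) * _ + C (t ^ 2 * i * w ^ 2) * _ + C (t ^ 2 * i * w) * _ + C 0 * W
      rw [map_zero, zero_mul, add_zero]
      simp only [map_mul, map_pow]
      exact id2_h75 H1 H3 HI HT
    · show Z = C i * _ + C (i * w) * _ + C (i * w ^ 2) * _ + C 0 * W
      rw [map_zero, zero_mul, add_zero]
      simp only [map_mul, map_pow]
      exact id3_h75 H1 H3 HI
    · show W = C 0 * _ + C 0 * _ + C 0 * _ + C 1 * W
      rw [map_zero, map_one]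
      ring
  · intro j
    fin_cases j
    · show X = C i * _ + C i * _ + C i * _
      exact id1_h75 H1 HI
    · show Y = C (t ^ 2 * i) * _ + C (t ^ 2 * i * w ^ 2) * _ + C (t ^ 2 * i * w) * _
      simp only [map_mul, map_pow]
      exact id2_h75 H1 H3 HI HT
    · show Z = C i * _ + C (i * w) * _ + C (i * w ^ 2) * _
      simp only [map_mul, map_pow]
      exact id3_h75 H1 H3 HI
  · have e : (C (3 * m) : S) = 6 * C t := by
      rw [ht, map_mul, map_mul, map_ofNat, map_ofNat]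
      ring
    unfold hes
    rw [e, mul_zero, map_zero, zero_mul, add_zero]
    exact id4_h75 H1 H3 HK HT

end Pool.Agent.CLA
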