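import Pool.Agent.CLA.HesD
import Pool.Agent.CLA.Sym
import Pool.Agent.CLA.Dbl
import Pool.Agent.CLA.Base

/-!
# CLA / Fer: the Fermat cubic, `q = 0`

PROOFS.
* `endG` (`Gen m`): `q = 0` (`q_zero`), `a1 = a2 = a3 =: s` (`lemL3`), all `b = 0` (`b_zero`), so
  `gen = W^3 + s (X^3+Y^3+Z^3) + d XYZ = C s * hes m X Y Z + W^3 + C (d - 3 m s) * XYZ`.  If `d - 3 m s ≠ 0` the member
  `gen - C s * hes` has a double point (`dbl_point`, with `G = W^3`): contradiction to `PenH.dbl`.  Otherwise `no_cube`.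
* `fer_b` (`m = 0`, `q = 0`): `hRho` for `HP.tw`: `dA 0 = dB 0 = 0`, `eA 0 = eB 0 = 0`, so in both cases `(r.tw t).fa = 0`,
  `(r.tw t).fb = 0`: `t b12 - t^2 b13 = 0`, `t^2 b21 - t b31 = 0` for `t^3 = 1` (use `t = 1, w`): `b12 = b13 = b21 = b31 = 0`; for
  the cyclic permutation `b23 = b21 = 0` and `b32 = b12 = 0`: all `b = 0`.
* `fer_d`: `gen - C a1 * hes 0 = W^3 + C (a2-a1) * Y^3 + C (a3-a1) * Z^3 + C d * XYZ`, if `d ≠ 0` it has a double point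
  (`dbl_point`), contradiction.
* `fer_ne`: if `a1 = a2` then `gen = C a1 * (X^3+Y^3+Z^3) + (W^3 + C (a3 - a1) * Z^3)`: `no_two_cubes`; the other two by cyclic
  permutation.
* `fer_dia`: choose `t` with `a_i + t ≠ 0`; `g = f + t c = ∑ b_i X_i^3`, `b = (a1+t, a2+t, a3+t, 1)`, `l_i = b_i^{1/3} X_i`;
  `c = ∑ a'_i l_i^3` with `a' = (1/b_1, 1/b_2, 1/b_3, 0)`, injective as the `a_i` are different and `1/b_i ≠ 0`.
  `Ideal.span {c, f} = Ideal.span {g, c}` (`span_comb`).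
-/

set_option autoImplicit false

namespace Pool.Agent.CLA

open MvPolynomial Pool.Agent.CLU

theorem fer_fab {r : Cf} (h : HP 0 Qf.zero r) : r.fa = 0 ∧ r.fb = 0 := by
  obtain ⟨X, Y, Z, W, hL, hP⟩ := h
  rcases hRho (by norm_num) hL hP.nod with ⟨g, h1, h2, -⟩ | ⟨-, g, h1, h2, -⟩
  · exact ⟨by rw [h1]; simp [dA], by rw [h2]; simp [dB]⟩
  · exact ⟨by rw [h1]; simp [eA], by rw [h2]; simp [eB]⟩

theorem fer_b0 {r : Cf} (h : HP 0 Qf.zero r) : r.b12 = 0 ∧ r.b13 = 0 ∧ r.b21 = 0 ∧ r.b31 = 0 := by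
  obtain ⟨w, hw, hw3, hw1⟩ := exists_om
  have h0 := fer_fab h
  have hz : Qf.zero.tw w = Qf.zero := by
    simp [Qf.tw, Qf.zero]
  have h1 := h.tw w hw3
  rw [hz] at h1
  have h2 := fer_fab h1
  simp only [Cf.fa, Cf.fb, Cf.tw] at h0 h2
  have hw0 : w ≠ 0 := by
    rintro rfl
    norm_num at hw3
  have e1 : r.b13 = r.b12 := (sub_eq_zero.1 h0.1).symm
  have e2 : r.b31 = r.b21 := (sub_eq_zero.1 h0.2).symm
  have hf : w * (1 - w) ≠ 0 := mul_ne_zero hw0 (sub_ne_zero.2 (Ne.symm hw1))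
  have e3 : r.b12 = 0 := by
    have h3 : (w * (1 - w)) * r.b12 = 0 := by
      have := h2.1
      rw [e1] at this
      linear_combination this
    exact (mul_eq_zero.1 h3).resolve_left hf
  have e4 : r.b21 = 0 := by
    have h3 : (w * (1 - w)) * r.b21 = 0 := by
      have := h2.2
      rw [e2] at this
      linear_combination -this
    exact (mul_eq_zero.1 h3).resolve_left hf
  exact ⟨e3, by rw [e1, e3], e4, by rw [e2, e4]⟩

theorem fer_cyc {r : Cf} (h : HP 0 Qf.zero r) : HP 0 Qf.zero r.cyc := by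
  have hz : Qf.zero.cyc = Qf.zero := rfl
  have h1 := h.cyc
  rwa [hz] at h1

theorem fer_b {r : Cf} (h : HP 0 Qf.zero r) :
    r.b12 = 0 ∧ r.b13 = 0 ∧ r.b21 = 0 ∧ r.b23 = 0 ∧ r.b31 = 0 ∧ r.b32 = 0 := by
  obtain ⟨h1, h2, h3, h4⟩ := fer_b0 h
  obtain ⟨h5, h6, h7, h8⟩ := fer_b0 (fer_cyc h)
  exact ⟨h1, h2, h3, h5, h4, h7⟩

theorem fer_d {r : Cf} (h : HP 0 Qf.zero r) : r.d = 0 := by
  obtain ⟨b1, b2, b3, b4, b5, b6⟩ := fer_b h
  obtain ⟨X, Y, Z, W, hL, hP⟩ := h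
  by_contra hd
  have hG' : InF 3 Y Z W (W ^ 3 + C (r.a2 - r.a1) * Y ^ 3 + C (r.a3 - r.a1) * Z ^ 3) := by
    have g1 := InF.mon Y Z W 0 0 3
    have g2 := (InF.mon Y Z W 3 0 0).C_mul (r.a2 - r.a1)
    have g3 := (InF.mon Y Z W 0 3 0).C_mul (r.a3 - r.a1)
    have := (g1.add g2).add g3
    simpa using this
  obtain ⟨p, hp⟩ := dbl_point hL r.d hd _ hG'
  refine hP.dbl (-r.a1) 1 (by simp) p ?_
  have e2 : C (-r.a1) * hes 0 X Y Z + C 1 * gen Qf.zero r X Y Z W =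
      C r.d * (X * Y * Z) + (W ^ 3 + C (r.a2 - r.a1) * Y ^ 3 + C (r.a3 - r.a1) * Z ^ 3) := by
    simp only [gen, Qf.ev, Qf.zero, Cf.ev, hes, b1, b2, b3, b4, b5, b6, map_zero, mul_zero, zero_mul, map_sub,
      map_mul, map_neg, map_one]
    ring
  rw [e2]
  exact hp

theorem fer_ne1 {r : Cf} (h : HP 0 Qf.zero r) : r.a1 ≠ r.a2 := by
  intro ha
  obtain ⟨b1, b2, b3, b4, b5, b6⟩ := fer_b h
  have hd := fer_d h
  obtain ⟨X, Y, Z, W, hL, hP⟩ := h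
  have e1 : hes 0 X Y Z = X ^ 3 + Y ^ 3 + Z ^ 3 := by
    simp [hes]
  have e2 : gen Qf.zero r X Y Z W = C r.a1 * (X ^ 3 + Y ^ 3 + Z ^ 3) + (W ^ 3 + C (r.a3 - r.a1) * Z ^ 3) := by
    simp only [gen, Qf.ev, Qf.zero, Cf.ev, hd, b1, b2, b3, b4, b5, b6, ← ha, map_zero, mul_zero, zero_mul, map_sub]
    ring
  have hb := hP.base
  rw [e1] at hb
  exact no_two_cubes hL r.a1 (r.a3 - r.a1) e2 hb

theorem fer_ne {r : Cf} (h : HP 0 Qf.zero r) : r.a1 ≠ r.a2 ∧ r.a2 ≠ r.a3 ∧ r.a3 ≠ r.a1 := by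
  exact ⟨fer_ne1 h, fer_ne1 (fer_cyc h), fer_ne1 (fer_cyc (fer_cyc h))⟩

end Pool.Agent.CLA
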