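import Pool.Agent.CLA.Equi
import Pool.Agent.CLA.EndG
import Pool.Agent.CLA.Ends

/-!
# CLA / Main: pencils in Hesse form

PROOFS.
* `sub_q`, `sub_r`: substitute and expand; the coefficients of the new form are found by expanding (`q.ev` of three linear
  forms in `X', Y', Z'` is a combination of the six monomials of degree two, etc.).
* `equi`: `t = m / 2`, `t^3 = 1`, `Y1 = t Y`: `hes m X Y Z = X^3 + Y1^3 + Z^3 + 6 X Y1 Z = (1/3) ∑_{i=0,1,2} (X + w^i Y1 + w^{2i} Z)^3`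
  (`w^2 + w + 1 = 0`).  With `k^3 = 1/3`: `X' = k (X + Y1 + Z)`, `Y' = k (X + w Y1 + w^2 Z)`, `Z' = k (X + w^2 Y1 + w Z)`;
  inverse: `3 k X = X' + Y' + Z'`, `3 k Y1 = X' + w^2 Y' + w Z'`, `3 k Z = X' + w Y' + w^2 Z'`, `Y = t^2 Y1`.
-/

set_option autoImplicit false

namespace Pool.Agent.CLA

open MvPolynomial Pool.Agent.CLU

/-- pencils in Hesse form -/
theorem hesse_main {m : ℂ} {q : Qf} {r : Cf} {X Y Z W : S} (hl : Lin4 X Y Z W)
    (hD : 1 + m ^ 3 ≠ 0) (h : PenH (hes m X Y Z) (gen q r X Y Z W)) :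
    Dia (Ideal.span {hes m X Y Z, gen q r X Y Z W}) := by
  by_cases h0 : m = 0
  · subst h0
    exact endF hl h
  · by_cases h8 : m ^ 3 = 8
    · obtain ⟨X', Y', Z', hl', hc, he⟩ := equi h8 hl
      obtain ⟨q', hq'⟩ := sub_q hc q
      obtain ⟨r', hr'⟩ := sub_r hc r
      have e : gen q r X Y Z W = gen q' r' X' Y' Z' W := by
        simp only [gen, hq', hr']
      rw [e, he] at h ⊢
      exact endF hl' h
    · exact (endG (q := q) (r := r) ⟨h0, h8, hD⟩ ⟨X, Y, Z, W, hl, h⟩).elim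

end Pool.Agent.CLA
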