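import Pool.Agent.CLA.Tern

/-!
# CLA / TernC: coefficients

PROOFS.
* `exists_dual3`: for a basis `![e, k, h]` of `ℂ^3` there are linear forms `l i` with `l_i(v)` = the `i`-th coordinate of `v`:
  rows of the inverse matrix, `l i = ∑ j, C (N i j) * X j`.
* `tern_weier`: `exists_tensor`, smoothness of `T` from `∑ i, eval p (pderiv i c) * v i = 3 tri T p p v`, `weier_basis`,
  `weier_disc`, `exists_dual3`; the polynomials agree because they agree at all points `p = x e + y k + z h`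
  (`MvPolynomial.funext`, `tri_cube`).
* `tern_q`, `tern_r`: `l` is a basis of the linear forms, so `X j = ∑ i, C (M j i) * l i`; a homogeneous polynomial of degree
  `2` (`3`) is a combination of the monomials `X_i X_j` (`X_i X_j X_k`) (for example by Euler's identity, or
  `exists_tensor` for degree three), substitute and collect.
-/

set_option autoImplicit false

namespace Pool.Agent.CLA

open MvPolynomial

private theorem span_l (l : Fin 3 → MvPolynomial (Fin 3) ℂ) (hl : Lin3 l) :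
    homogeneousSubmodule (Fin 3) ℂ 1 = Submodule.span ℂ (Set.range l) := by
  have hle : Submodule.span ℂ (Set.range l) ≤ homogeneousSubmodule (Fin 3) ℂ 1 := by
    rw [Submodule.span_le]
    rintro _ ⟨i, rfl⟩
    exact hl.1 i
  have hX := homogeneousSubmodule_one_eq_span_X (σ := Fin 3) (R := ℂ)
  have hfd : FiniteDimensional ℂ (homogeneousSubmodule (Fin 3) ℂ 1) := by
    rw [hX]
    exact FiniteDimensional.span_of_finite ℂ (Set.finite_range _)
  have h1 : Module.finrank ℂ (Submodule.span ℂ (Set.range l)) = 3 := by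
    rw [finrank_span_eq_card hl.2, Fintype.card_fin]
  have h2 : Module.finrank ℂ (homogeneousSubmodule (Fin 3) ℂ 1) ≤ 3 := by
    rw [hX]
    refine (finrank_range_le_card (R := ℂ) (X : Fin 3 → MvPolynomial (Fin 3) ℂ)).trans ?_
    rw [Fintype.card_fin]
  exact (Submodule.eq_of_le_of_finrank_le hle (by rw [h1]; exact h2)).symm

private theorem lin_l (l : Fin 3 → MvPolynomial (Fin 3) ℂ) (hl : Lin3 l)
    (q : MvPolynomial (Fin 3) ℂ) (hq : q ∈ homogeneousSubmodule (Fin 3) ℂ 1) :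
    ∃ a b c : ℂ, q = C a * l 0 + C b * l 1 + C c * l 2 := by
  rw [span_l l hl, Submodule.mem_span_range_iff_exists_fun] at hq
  obtain ⟨a, rfl⟩ := hq
  refine ⟨a 0, a 1, a 2, ?_⟩
  rw [Fin.sum_univ_three, smul_eq_C_mul, smul_eq_C_mul, smul_eq_C_mul]

theorem tern_q (l : Fin 3 → MvPolynomial (Fin 3) ℂ) (hl : Lin3 l) (q : MvPolynomial (Fin 3) ℂ)
    (hq : q.IsHomogeneous 2) :
    ∃ q1 q2 q3 q12 q13 q23 : ℂ, q = C q1 * l 0 ^ 2 + C q2 * l 1 ^ 2 + C q3 * l 2 ^ 2 +
      C (2 * q12) * (l 0 * l 1) + C (2 * q13) * (l 0 * l 2) + C (2 * q23) * (l 1 * l 2) := by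
  have hq2 : q ∈ homogeneousSubmodule (Fin 3) ℂ 1 * homogeneousSubmodule (Fin 3) ℂ 1 := by
    rw [← pow_two, homogeneousSubmodule_one_pow]
    exact hq
  refine Submodule.mul_induction_on hq2 ?_ ?_
  · intro m hm n hn
    obtain ⟨a, b, c, rfl⟩ := lin_l l hl m hm
    obtain ⟨a', b', c', rfl⟩ := lin_l l hl n hn
    refine ⟨a * a', b * b', c * c', (a * b' + b * a') / 2, (a * c' + c * a') / 2,
      (b * c' + c * b') / 2, ?_⟩
    have e : ∀ x : ℂ, 2 * (x / 2) = x := fun x => by ring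
    rw [e, e, e]
    simp only [map_add, map_mul]
    ring
  · rintro x y ⟨q1, q2, q3, q12, q13, q23, rfl⟩ ⟨p1, p2, p3, p12, p13, p23, rfl⟩
    refine ⟨q1 + p1, q2 + p2, q3 + p3, q12 + p12, q13 + p13, q23 + p23, ?_⟩
    simp only [map_add, map_mul]
    ring

theorem tern_r (l : Fin 3 → MvPolynomial (Fin 3) ℂ) (hl : Lin3 l) (r : MvPolynomial (Fin 3) ℂ)
    (hr : r.IsHomogeneous 3) :
    ∃ a1 a2 a3 b12 b13 b21 b23 b31 b32 d : ℂ,
      r = C a1 * l 0 ^ 3 + C a2 * l 1 ^ 3 + C a3 * l 2 ^ 3 + C b12 * (l 0 ^ 2 * l 1) +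
        C b13 * (l 0 ^ 2 * l 2) + C b21 * (l 1 ^ 2 * l 0) + C b23 * (l 1 ^ 2 * l 2) +
        C b31 * (l 2 ^ 2 * l 0) + C b32 * (l 2 ^ 2 * l 1) + C d * (l 0 * l 1 * l 2) := by
  have hr2 : r ∈ homogeneousSubmodule (Fin 3) ℂ 2 * homogeneousSubmodule (Fin 3) ℂ 1 := by
    have h2 := homogeneousSubmodule_one_pow (σ := Fin 3) (R := ℂ) 2
    rw [← h2, ← pow_succ, homogeneousSubmodule_one_pow]
    exact hr
  refine Submodule.mul_induction_on hr2 ?_ ?_
  · intro m hm n hn
    obtain ⟨q1, q2, q3, q12, q13, q23, rfl⟩ := tern_q l hl m hm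
    obtain ⟨a, b, c, rfl⟩ := lin_l l hl n hn
    refine ⟨q1 * a, q2 * b, q3 * c, q1 * b + 2 * q12 * a, q1 * c + 2 * q13 * a,
      q2 * a + 2 * q12 * b, q2 * c + 2 * q23 * b, q3 * a + 2 * q13 * c, q3 * b + 2 * q23 * c,
      2 * q12 * c + 2 * q13 * b + 2 * q23 * a, ?_⟩
    simp only [map_add, map_mul]
    ring
  · rintro x y ⟨a1, a2, a3, b12, b13, b21, b23, b31, b32, d, rfl⟩
      ⟨a1', a2', a3', b12', b13', b21', b23', b31', b32', d', rfl⟩
    refine ⟨a1 + a1', a2 + a2', a3 + a3', b12 + b12', b13 + b13', b21 + b21', b23 + b23',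
      b31 + b31', b32 + b32', d + d', ?_⟩
    simp only [map_add]
    ring

end Pool.Agent.CLA
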