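import Pool.Agent.CLA.Tens

/-!
# CLA / TensE: existence of the tensor

PROOFS.
* `tri_add_*`, `tri_smul_*`: sums.  `tri_comm*`: `Finset.sum_comm` and the symmetry of `T`.
* `tri_cube`: expand `tri T v v v` for `v = x e + y k + z h` (multilinear, symmetric).
* `exists_tensor`: a homogeneous polynomial of degree `3` in three variables; put
  `T i j k = (1/6) * coefficient of the constant polynomial ∂_i ∂_j ∂_k c` (`pderiv` commute; the third derivatives are
  homogeneous of degree `0`, constants), Euler's identity (`IsHomogeneous.sum_X_mul_pderiv`) three times: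
  `c = (1/6) ∑ X_i X_j X_k ∂_i ∂_j ∂_k c` and `∂_i c = (1/2) ∑ X_j X_k ∂_j ∂_k ∂_i c`.
-/

set_option autoImplicit false

namespace Pool.Agent.CLA

open MvPolynomial

variable {T : Fin 3 → Fin 3 → Fin 3 → ℂ}

private theorem pd_comm (i j : Fin 3) (c : MvPolynomial (Fin 3) ℂ) :
    pderiv i (pderiv j c) = pderiv j (pderiv i c) := by
  have h : ⁅(pderiv i : Derivation ℂ (MvPolynomial (Fin 3) ℂ) (MvPolynomial (Fin 3) ℂ)),
      (pderiv j : Derivation ℂ (MvPolynomial (Fin 3) ℂ) (MvPolynomial (Fin 3) ℂ))⁆ = 0 := by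
    refine MvPolynomial.derivation_ext fun k => ?_
    rw [Derivation.commutator_apply]
    simp only [pderiv_X, Derivation.zero_apply, Pi.single_apply]
    split_ifs <;> simp
  have h2 := congrArg (fun D => D c) h
  simp only [Derivation.commutator_apply, Derivation.zero_apply] at h2
  exact sub_eq_zero.1 h2

private theorem euler_eval (n : ℕ) (g : MvPolynomial (Fin 3) ℂ) (hg : g.IsHomogeneous n)
    (p : Fin 3 → ℂ) : ∑ i, p i * eval p (pderiv i g) = n * eval p g := by
  have h := congrArg (eval p) hg.sum_X_mul_pderiv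
  simpa [map_sum] using h

theorem exists_tensor (c : MvPolynomial (Fin 3) ℂ) (hc : c.IsHomogeneous 3) :
    ∃ T : Fin 3 → Fin 3 → Fin 3 → ℂ, Sy3 T ∧ (∀ p, eval p c = tri T p p p) ∧
      ∀ (p v : Fin 3 → ℂ), ∑ i, eval p (pderiv i c) * v i = 3 * tri T p p v := by
  have h1 : ∀ i, (pderiv i c).IsHomogeneous 2 := fun i => hc.pderiv
  have h2 : ∀ i j, (pderiv j (pderiv i c)).IsHomogeneous 1 := fun i j => (h1 i).pderiv
  have h3 : ∀ i j k, (pderiv k (pderiv j (pderiv i c))).IsHomogeneous 0 :=
    fun i j k => (h2 i j).pderiv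
  have h4 : ∀ i j k, ∀ p, eval p (pderiv k (pderiv j (pderiv i c))) =
      coeff 0 (pderiv k (pderiv j (pderiv i c))) := by
    intro i j k p
    have h5 := (h3 i j k).totalDegree_le
    have h6 := totalDegree_eq_zero_iff_eq_C.1 (Nat.le_zero.1 h5)
    conv_lhs => rw [h6]
    simp
  have e2 : ∀ i j p, eval p (pderiv j (pderiv i c)) =
      ∑ k, p k * coeff 0 (pderiv k (pderiv j (pderiv i c))) := by
    intro i j p
    have h5 := euler_eval 1 _ (h2 i j) p
    rw [Nat.cast_one, one_mul] at h5
    rw [← h5]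
    exact Finset.sum_congr rfl fun k _ => by rw [h4]
  have e1 : ∀ i p, eval p (pderiv i c) =
      (1 / 2) * ∑ j, p j * ∑ k, p k * coeff 0 (pderiv k (pderiv j (pderiv i c))) := by
    intro i p
    have h5 := euler_eval 2 _ (h1 i) p
    have h6 : ∑ j, p j * ∑ k, p k * coeff 0 (pderiv k (pderiv j (pderiv i c))) =
        ∑ j, p j * eval p (pderiv j (pderiv i c)) :=
      Finset.sum_congr rfl fun j _ => by rw [e2]
    rw [h6, h5]
    push_cast
    ring
  have e0 : ∀ p, eval p c = (1 / 3) * ∑ i, p i * eval p (pderiv i c) := by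
    intro p
    rw [euler_eval 3 c hc p]
    push_cast
    ring
  refine ⟨fun i j k => (1 / 6) * coeff 0 (pderiv k (pderiv j (pderiv i c))), ?_, ?_, ?_⟩
  · intro i j k
    refine ⟨?_, ?_⟩
    · simp only
      rw [pd_comm j i c]
    · simp only
      rw [pd_comm k j (pderiv i c)]
  · intro p
    rw [e0]
    simp only [e1]
    unfold tri
    simp only [Finset.mul_sum]
    refine Finset.sum_congr rfl fun i _ => Finset.sum_congr rfl fun j _ =>
      Finset.sum_congr rfl fun k _ => ?_
    ring
  · intro p v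
    simp only [e1]
    unfold tri
    simp only [Finset.mul_sum, Finset.sum_mul]
    -- left: sum over i j k of 1/2 p_j p_k T(i,j,k) v_i ; right: T(i,j,k) p_i p_j v_k
    have h7 : ∀ i j k : Fin 3, coeff 0 (pderiv k (pderiv j (pderiv i c))) =
        coeff 0 (pderiv i (pderiv k (pderiv j c))) := by
      intro i j k
      rw [pd_comm i k, pd_comm i j c]
    calc ∑ i, ∑ j, ∑ k, 1 / 2 * (p j * (p k *
          coeff 0 (pderiv k (pderiv j (pderiv i c))))) * v i
        = ∑ i, ∑ j, ∑ k, 1 / 2 * (p j * (p k *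
          coeff 0 (pderiv i (pderiv k (pderiv j c))))) * v i := by
          refine Finset.sum_congr rfl fun i _ => Finset.sum_congr rfl fun j _ =>
            Finset.sum_congr rfl fun k _ => ?_
          rw [h7]
      _ = ∑ j, ∑ k, ∑ i, 1 / 2 * (p j * (p k *
          coeff 0 (pderiv i (pderiv k (pderiv j c))))) * v i := by
          rw [Finset.sum_comm]
          exact Finset.sum_congr rfl fun j _ => Finset.sum_comm
      _ = _ := by
          refine Finset.sum_congr rfl fun i _ => Finset.sum_congr rfl fun j _ =>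
            Finset.sum_congr rfl fun k _ => ?_
          ring

end Pool.Agent.CLA
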