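import Pool.Agent.CLA.FlexE

/-!
# CLA / WeiB: the Weierstrass basis

PROOFS.
* `exists_flex`: let `H(p)` be the matrix `(∑ i, T i j k * p i)_{j,k}`.  The two polynomials `∑ T i j k X_i X_j X_k` and
  `det (∑ i, C (T i j k) * X i)` in `MvPolynomial (Fin 3) ℂ` vanish at `0`; by
  `Helper10/FQ/Zero.exists_common_zero` (two polynomials, three variables) they have a common zero `e ≠ 0`.  As
  `det H(e) = 0` there is `k ≠ 0` with `H(e) k = 0` (`Matrix.exists_mulVec_eq_zero_iff`), i.e. `tri T e v k = 0` for all `v`.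
* `weier_basis`: `e, k` as above.  `tri e e k = 0`, `tri e k k = 0`, `tri e e e = 0`, `tri e e ≠ 0` (smooth): choose `h0` with
  `tri e e h0 ≠ 0`.  `e, k, h0` are independent: `h0` is not in the span of `e, k` (there `tri e e = 0`); `k = a e` would
  give `a tri e e v = tri e k v = 0` for all `v`, `a = 0`.  `tri k k k ≠ 0`: otherwise let `(s, t) ≠ 0` with
  `s^2 tri e e h0 + t^2 tri k k h0 = 0` and `v = s e + t k ≠ 0`: `tri v v e = 0`, `tri v v k = 0`, `tri v v h0 = 0`, so
  `tri v v = 0` on the basis, contradiction to smoothness.  Scale `k` (cube root) to have `tri k k k = 1`.  Replace `h0` by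
  `h = b (h0 + α e + β k)` with `α, β` such that `tri e h h = 0` (`tri e h0 h0 + 2 α tri e e h0 = 0`), `tri k k h = 0`
  (`tri k k h0 + β = 0`), and `3 tri e e h = 1` (`b`).
* `weier_disc`: if `4 ε^3 + 27 ζ^2 = 0` there is `y` with `y^3 + ε y + ζ = 0` and `3 y^2 + ε = 0` (if `ε = 0` then `ζ = 0`, `y = 0`;
  otherwise `y = -3 ζ/(2 ε)`); then `v = y k + h ≠ 0` has `tri v v e = 0`, `3 tri v v k = 3 y^2 + ε = 0` (`tri v v k =
  y^2 + tri k h h`, `ε = 3 tri k h h`), `tri v v h = 2 y tri k h h + tri h h h = (2/3) ε y + ζ = 0`: contradiction.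
-/

set_option autoImplicit false

namespace Pool.Agent.CLA

open MvPolynomial

variable {T : Fin 3 → Fin 3 → Fin 3 → ℂ}

private theorem tri_sq (hT : Sy3 T) (s : ℂ) (e k w : Fin 3 → ℂ) :
    tri T (s • e + k) (s • e + k) w =
      s ^ 2 * tri T e e w + 2 * s * tri T e k w + tri T k k w := by
  rw [tri_add1, tri_add2, tri_add2, tri_smul1, tri_smul1, tri_smul2, tri_smul2,
    tri_comm12 hT k e w]
  ring

private theorem indep_pair {e k h0 : Fin 3 → ℂ} (hk0 : k ≠ 0)
    (hk : ∀ v, tri T e k v = 0) (hA : tri T e e h0 ≠ 0) {x y : ℂ} (hxy : x • e + y • k = 0) :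
    x = 0 ∧ y = 0 := by
  have h1 : tri T e (x • e + y • k) h0 = 0 := by
    rw [hxy, ← zero_smul ℂ (0 : Fin 3 → ℂ), tri_smul2, zero_mul]
  rw [tri_add2, tri_smul2, tri_smul2, hk, mul_zero, add_zero] at h1
  have hx : x = 0 := (mul_eq_zero.1 h1).resolve_right hA
  rw [hx, zero_smul, zero_add] at hxy
  exact ⟨hx, (smul_eq_zero.1 hxy).resolve_right hk0⟩

private theorem kkk_ne_zero (hT : Sy3 T) (hs : SmT T) {e k h0 : Fin 3 → ℂ} (hk0 : k ≠ 0)
    (hee : tri T e e e = 0) (hk : ∀ v, tri T e k v = 0) (hA : tri T e e h0 ≠ 0) :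
    tri T k k k ≠ 0 := by
  intro hkk
  have heek : tri T e e k = 0 := by rw [tri_comm23 hT, hk]
  have hkke : tri T k k e = 0 := by rw [tri_comm23 hT, tri_comm12 hT, hk]
  have hli : LinearIndependent ℂ ![e, k, h0] := by
    rw [Fintype.linearIndependent_iff]
    intro g hg
    rw [Fin.sum_univ_three] at hg
    simp only [Matrix.cons_val_zero, Matrix.cons_val_one, Matrix.cons_val_two,
      Matrix.head_cons, Matrix.tail_cons] at hg
    have h1 : tri T e e (g 0 • e + g 1 • k + g 2 • h0) = 0 := by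
      rw [hg, ← zero_smul ℂ (0 : Fin 3 → ℂ), tri_smul3, zero_mul]
    rw [tri_add3, tri_add3, tri_smul3, tri_smul3, tri_smul3, hee, heek, mul_zero, mul_zero,
      zero_add, zero_add] at h1
    have h2 : g 2 = 0 := (mul_eq_zero.1 h1).resolve_right hA
    rw [h2, zero_smul, add_zero] at hg
    obtain ⟨h3, h4⟩ := indep_pair hk0 hk hA hg
    intro i
    fin_cases i
    · exact h3
    · exact h4
    · exact h2
  obtain ⟨s, hs2⟩ := exists_sq (-(tri T k k h0) / tri T e e h0)
  have hv : s • e + k ≠ 0 := by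
    intro h
    have h1 : s • e + (1 : ℂ) • k = 0 := by rw [one_smul, h]
    exact one_ne_zero (indep_pair hk0 hk hA h1).2
  obtain ⟨w, hw⟩ := hs (s • e + k) hv
  apply hw
  let L : (Fin 3 → ℂ) →ₗ[ℂ] ℂ :=
    { toFun := fun w => tri T (s • e + k) (s • e + k) w
      map_add' := fun a b => tri_add3 _ _ _ _
      map_smul' := fun a b => by rw [tri_smul3, smul_eq_mul, RingHom.id_apply] }
  let B := basisOfLinearIndependentOfCardEqFinrank hli (by simp)
  have hL : L = 0 := by
    refine B.ext fun i => ?_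
    have hB : B i = ![e, k, h0] i := by
      rw [coe_basisOfLinearIndependentOfCardEqFinrank]
    rw [hB, LinearMap.zero_apply]
    change tri T (s • e + k) (s • e + k) (![e, k, h0] i) = 0
    rw [tri_sq hT]
    fin_cases i
    · change s ^ 2 * tri T e e e + 2 * s * tri T e k e + tri T k k e = 0
      rw [hee, hk, hkke]
      ring
    · change s ^ 2 * tri T e e k + 2 * s * tri T e k k + tri T k k k = 0
      rw [heek, hk, hkk]
      ring
    · change s ^ 2 * tri T e e h0 + 2 * s * tri T e k h0 + tri T k k h0 = 0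
      rw [hk, hs2]
      field_simp
      ring
  exact congrArg (fun f => f w) hL

theorem weier_basis (hT : Sy3 T) (hs : SmT T) :
    ∃ e k h : Fin 3 → ℂ, LinearIndependent ℂ ![e, k, h] ∧ tri T e e e = 0 ∧ tri T e e k = 0 ∧
      tri T e k k = 0 ∧ tri T e k h = 0 ∧ tri T e h h = 0 ∧ tri T k k h = 0 ∧
      3 * tri T e e h = 1 ∧ tri T k k k = 1 := by
  obtain ⟨e, k, he, hk0, hee, hk⟩ := exists_flex hT
  obtain ⟨h0, hA⟩ := hs e he
  have hkkk := kkk_ne_zero hT hs hk0 hee hk hA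
  obtain ⟨c, hc⟩ := exists_cube (tri T k k k)⁻¹
  obtain ⟨k', hk'⟩ : ∃ k' : Fin 3 → ℂ, k' = c • k := ⟨_, rfl⟩
  have hk1 : ∀ v, tri T e k' v = 0 := fun v => by rw [hk', tri_smul2, hk, mul_zero]
  have hk3 : tri T k' k' k' = 1 := by
    have h1 : tri T k' k' k' = c ^ 3 * tri T k k k := by
      rw [hk', tri_smul1, tri_smul2, tri_smul3]
      ring
    rw [h1, hc, inv_mul_cancel₀ hkkk]
  have heek : tri T e e k' = 0 := by rw [tri_comm23 hT, hk1]
  have hkke : tri T k' k' e = 0 := by rw [tri_comm23 hT, tri_comm12 hT, hk1]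
  obtain ⟨α, hα⟩ : ∃ α : ℂ, α = -(tri T e h0 h0) / (2 * tri T e e h0) := ⟨_, rfl⟩
  obtain ⟨h1, hh1⟩ : ∃ h1 : Fin 3 → ℂ, h1 = h0 + α • e + (-(tri T k' k' h0)) • k' := ⟨_, rfl⟩
  obtain ⟨h, hh⟩ : ∃ h : Fin 3 → ℂ, h = (3 * tri T e e h0)⁻¹ • h1 := ⟨_, rfl⟩
  have e1 : 3 * tri T e e h = 1 := by
    rw [hh, tri_smul3, hh1, tri_add3, tri_add3, tri_smul3, tri_smul3, hee, heek]
    field_simp
    ring
  have e2 : tri T k' k' h = 0 := by
    rw [hh, tri_smul3, hh1, tri_add3, tri_add3, tri_smul3, tri_smul3, hkke, hk3]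
    ring
  have e3 : tri T e h1 h1 = 0 := by
    have a1 : ∀ v, tri T e h1 v = tri T e h0 v + α * tri T e e v := by
      intro v
      rw [hh1, tri_add2, tri_add2, tri_smul2, tri_smul2, hk1]
      ring
    have a2 : tri T e h0 h1 = tri T e h0 h0 + α * tri T e e h0 := by
      rw [tri_comm23 hT, a1]
    have a3 : tri T e e h1 = tri T e e h0 := by
      rw [tri_comm23 hT, a1, hee, tri_comm23 hT]
      ring
    rw [a1, a2, a3, hα]
    field_simp
    ring
  have e4 : tri T e h h = 0 := by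
    rw [hh, tri_smul2, tri_smul3, e3, mul_zero, mul_zero]
  refine ⟨e, k', h, ?_, hee, heek, hk1 k', hk1 h, e4, e2, e1, hk3⟩
  rw [Fintype.linearIndependent_iff]
  intro g hg
  rw [Fin.sum_univ_three] at hg
  simp only [Matrix.cons_val_zero, Matrix.cons_val_one, Matrix.cons_val_two,
    Matrix.head_cons, Matrix.tail_cons] at hg
  have b1 : tri T e e (g 0 • e + g 1 • k' + g 2 • h) = 0 := by
    rw [hg, ← zero_smul ℂ (0 : Fin 3 → ℂ), tri_smul3, zero_mul]
  rw [tri_add3, tri_add3, tri_smul3, tri_smul3, tri_smul3, hee, heek, mul_zero, mul_zero,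
    zero_add, zero_add] at b1
  have b2 : g 2 = 0 := by linear_combination 3 * b1 - g 2 * e1
  have b3 : tri T k' k' (g 0 • e + g 1 • k' + g 2 • h) = 0 := by
    rw [hg, ← zero_smul ℂ (0 : Fin 3 → ℂ), tri_smul3, zero_mul]
  rw [tri_add3, tri_add3, tri_smul3, tri_smul3, tri_smul3, hkke, hk3, b2, mul_zero, zero_mul,
    add_zero, zero_add, mul_one] at b3
  rw [b2, b3, zero_smul, zero_smul, add_zero, add_zero] at hg
  have b4 : g 0 = 0 := (smul_eq_zero.1 hg).resolve_right he
  intro i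
  fin_cases i
  · exact b4
  · exact b3
  · exact b2

end Pool.Agent.CLA
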