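import Pool.Agent.CLA.Tens
import Pool.Agent.CLA.Roots

/-!
# CLA / WeiD: the discriminant

PROOFS.
* `exists_flex`: let `H(p)` be the matrix `(∑ i, T i j k * p i)_{j,k}`.  The two polynomials `∑ T i j k X_i X_j X_k` and
  `det (∑ i, C (T i j k) * X i)` in `MvPolynomial (Fin 3) ℂ` vanish at `0`; by
  `Helper10/FQ/Zero.exists_common_zero` (two polynomials, three variables) they have a common zero `e ≠ 0`.  As
  `det H(e) = 0` there is `k ≠ 0` with `H(e) k = 0` (`Matrix.exists_mulVec_eq_zero_iff`), i.e. `tri T e v k = 0` for all `v`.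
* `weier_basis`: `e, k` as above.  `tri e e k = 0`, `tri e k k = 0`, `tri e e e = 0`, `tri e e ≠ 0` (smooth): choose `h0` with
  `tri e e h0 ≠ 0`.  `e, k, h0` are independent: `h0` is not in the span of `e, k` (there `tri e e = 0`); `k = a e` would
  give `a tri e e v = tri e k v = 0` for all `v`, `a = 0`.  `tri k k k ≠ 0`: otherwise let `(s, t) ≠ 0` with
  `s^2 tri e e h0 + t^2 tri k k h0 = 0` and `v = s e + t k ≠ 0`: `tri v v e = 0`, `tri v v k = 0`, `tri v v h0 = 0`, so
  `tri v v = 0` on the basis, contradiction to smoothness.  Scale `k` (cube root) to have `tri k k k = 1`.  Replace `h0` by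
  `h = b (h0 + α e + β k)` with `α, β` such that `tri e h h = 0` (`tri e h0 h0 + 2 α tri e e h0 = 0`), `tri k k h = 0`
  (`tri k k h0 + β = 0`), and `3 tri e e h = 1` (`b`).
* `weier_disc`: if `4 ε^3 + 27 ζ^2 = 0` there is `y` with `y^3 + ε y + ζ = 0` and `3 y^2 + ε = 0` (if `ε = 0` then `ζ = 0`, `y = 0`;
  otherwise `y = -3 ζ/(2 ε)`); then `v = y k + h ≠ 0` has `tri v v e = 0`, `3 tri v v k = 3 y^2 + ε = 0` (`tri v v k =
  y^2 + tri k h h`, `ε = 3 tri k h h`), `tri v v h = 2 y tri k h h + tri h h h = (2/3) ε y + ζ = 0`: contradiction.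
-/

set_option autoImplicit false

namespace Pool.Agent.CLA

open MvPolynomial

variable {T : Fin 3 → Fin 3 → Fin 3 → ℂ}

theorem weier_disc (hT : Sy3 T) (hs : SmT T) (e k h : Fin 3 → ℂ)
    (hli : LinearIndependent ℂ ![e, k, h]) (h1 : tri T e e k = 0) (h2 : tri T e k k = 0)
    (h3 : tri T e k h = 0) (h4 : tri T e h h = 0) (h5 : tri T k k h = 0) (h6 : tri T k k k = 1) :
    4 * (3 * tri T k h h) ^ 3 + 27 * (tri T h h h) ^ 2 ≠ 0 := by
  intro hd
  have _ := h1
  -- the parameter of the singular point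
  obtain ⟨y, hy1, hy2⟩ : ∃ y : ℂ, y ^ 2 + tri T k h h = 0 ∧
      2 * y * tri T k h h + tri T h h h = 0 := by
    by_cases hε : tri T k h h = 0
    · have hζ : tri T h h h = 0 := by
        rw [hε] at hd
        have h7 : (tri T h h h) ^ 2 = 0 := by linear_combination hd / 27
        exact pow_eq_zero_iff (two_ne_zero) |>.1 h7
      exact ⟨0, by rw [hε]; ring, by rw [hε, hζ]; ring⟩
    · refine ⟨-(tri T h h h) / (2 * tri T k h h), ?_, ?_⟩
      · field_simp
        linear_combination hd / 27
      · field_simp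
        ring
  have hv0 : y • k + h ≠ 0 := by
    intro h0
    have h7 := Fintype.linearIndependent_iff.1 hli ![0, y, 1] (by
      rw [Fin.sum_univ_three]
      change (0 : ℂ) • e + y • k + (1 : ℂ) • h = 0
      rw [zero_smul, one_smul, zero_add]
      exact h0) 2
    simp at h7
  obtain ⟨w, hw⟩ := hs _ hv0
  apply hw
  have hexp : ∀ u : Fin 3 → ℂ, tri T (y • k + h) (y • k + h) u =
      y ^ 2 * tri T k k u + 2 * y * tri T k h u + tri T h h u := by
    intro u
    rw [tri_add1, tri_add2, tri_add2, tri_smul1, tri_smul1, tri_smul2, tri_smul2,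
      tri_comm12 hT h k u]
    ring
  have he : tri T (y • k + h) (y • k + h) e = 0 := by
    have a1 : tri T k k e = 0 := by rw [tri_comm23 hT, tri_comm12 hT, h2]
    have a2 : tri T k h e = 0 := by rw [tri_comm23 hT, tri_comm12 hT, h3]
    have a3 : tri T h h e = 0 := by rw [tri_comm23 hT, tri_comm12 hT, h4]
    rw [hexp, a1, a2, a3]
    ring
  have hk : tri T (y • k + h) (y • k + h) k = 0 := by
    have a2 : tri T k h k = 0 := by rw [tri_comm23 hT, h5]
    have a3 : tri T h h k = tri T k h h := by rw [tri_comm23 hT, tri_comm12 hT]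
    rw [hexp, h6, a2, a3]
    linear_combination hy1
  have hh : tri T (y • k + h) (y • k + h) h = 0 := by
    rw [hexp, h5]
    linear_combination hy2
  have hspan : w ∈ Submodule.span ℂ (Set.range ![e, k, h]) := by
    rw [hli.span_eq_top_of_card_eq_finrank (by simp)]
    trivial
  obtain ⟨c, hc⟩ := (Submodule.mem_span_range_iff_exists_fun ℂ).1 hspan
  rw [Fin.sum_univ_three] at hc
  change c 0 • e + c 1 • k + c 2 • h = w at hc
  rw [← hc, tri_add3, tri_add3, tri_smul3, tri_smul3, tri_smul3, he, hk, hh]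
  ring

end Pool.Agent.CLA
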