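import Pool.Agent.CLA.Tern
import Pool.Agent.CLA.TensE
import Pool.Agent.CLA.WeiB
import Pool.Agent.CLA.WeiD

/-!
# CLA / TernW: Weierstrass form

PROOFS.
* `exists_dual3`: for a basis `![e, k, h]` of `ℂ^3` there are linear forms `l i` with `l_i(v)` = the `i`-th coordinate of `v`:
  rows of the inverse matrix, `l i = ∑ j, C (N i j) * X j`.
* `tern_weier`: `exists_tensor`, smoothness of `T` from `∑ i, eval p (pderiv i c) * v i = 3 tri T p p v`, `weier_basis`,
  `weier_disc`, `exists_dual3`; the polynomials agree because they agree at all points `p = x e + y k + z h`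
  (`MvPolynomial.funext`, `tri_cube`).
* `tern_q`, `tern_r`: `l` is a basis of the linear forms, so `X j = ∑ i, C (M j i) * l i`; a homogeneous polynomial of degree
  `2` (`3`) is a combination of the monomials `X_i X_j` (`X_i X_j X_k`) (for example by Euler's identity, or
  `exists_tensor` for degree three), substitute and collect.
-/

set_option autoImplicit false

namespace Pool.Agent.CLA

open MvPolynomial

theorem tern_weier (c : MvPolynomial (Fin 3) ℂ) (hc : c.IsHomogeneous 3) (hs : Sm3 c) :
    ∃ (l : Fin 3 → MvPolynomial (Fin 3) ℂ) (ε ζ : ℂ), Lin3 l ∧ 4 * ε ^ 3 + 27 * ζ ^ 2 ≠ 0 ∧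
      c = l 0 ^ 2 * l 2 + l 1 ^ 3 + C ε * (l 1 * l 2 ^ 2) + C ζ * l 2 ^ 3 := by
  classical
  obtain ⟨T, hT, hev, hgr⟩ := exists_tensor c hc
  have hs' : SmT T := by
    intro p hp
    obtain ⟨i, hi⟩ := hs p hp
    refine ⟨Pi.single i 1, fun h0 => hi ?_⟩
    have h1 := hgr p (Pi.single i 1)
    rw [h0, mul_zero, Finset.sum_eq_single i] at h1
    · simpa using h1
    · intro j _ hj
      rw [Pi.single_eq_of_ne hj, mul_zero]
    · intro h2
      exact absurd (Finset.mem_univ i) h2
  obtain ⟨e, k, h, hli, h1, h2, h3, h4, h5, h6, h7, h8⟩ := weier_basis hT hs'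
  obtain ⟨l, hl, hp⟩ := exists_dual3 ![e, k, h] hli
  refine ⟨l, 3 * tri T k h h, tri T h h h, hl, weier_disc hT hs' e k h hli h2 h3 h4 h5 h6 h8, ?_⟩
  apply MvPolynomial.funext
  intro p
  have hp' : p = eval p (l 0) • e + eval p (l 1) • k + eval p (l 2) • h := by
    have h9 := hp p
    rw [Fin.sum_univ_three] at h9
    exact h9
  have h10 : eval p c = tri T (eval p (l 0) • e + eval p (l 1) • k + eval p (l 2) • h)
      (eval p (l 0) • e + eval p (l 1) • k + eval p (l 2) • h)
      (eval p (l 0) • e + eval p (l 1) • k + eval p (l 2) • h) := by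
    rw [← hp']
    exact hev p
  rw [h10, tri_cube hT, h1, h2, h3, h4, h5, h6, h8]
  simp only [map_add, map_mul, map_pow, eval_C]
  linear_combination (eval p (l 0) ^ 2 * eval p (l 2)) * h7

end Pool.Agent.CLA
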