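import Pool.Agent.CLA.WeiH
import Pool.Agent.CLA.Main
import Pool.Agent.CLA.Comb
import Pool.Agent.CLA.TernW
import Pool.Agent.CLA.TernC
import Pool.Agent.CLA.ConeS
import Pool.Agent.CLA.ConeF

/-!
# CLA / Final: pencils with a cone member
-/

set_option autoImplicit false

namespace Pool.Agent.CLA

open MvPolynomial Pool.Agent.CLU

private theorem aeval_q {x y z : S} (l : Fin 3 → MvPolynomial (Fin 3) ℂ) (q : Qf) :
    aeval ![x, y, z] (C q.q1 * l 0 ^ 2 + C q.q2 * l 1 ^ 2 + C q.q3 * l 2 ^ 2 +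
      C (2 * q.q12) * (l 0 * l 1) + C (2 * q.q13) * (l 0 * l 2) + C (2 * q.q23) * (l 1 * l 2)) =
    q.ev (aeval ![x, y, z] (l 0)) (aeval ![x, y, z] (l 1)) (aeval ![x, y, z] (l 2)) := by
  simp only [Qf.ev, map_add, map_mul, map_pow, aeval_C, algebraMap_eq]

private theorem aeval_r {x y z : S} (l : Fin 3 → MvPolynomial (Fin 3) ℂ) (r : Cf) :
    aeval ![x, y, z] (C r.a1 * l 0 ^ 3 + C r.a2 * l 1 ^ 3 + C r.a3 * l 2 ^ 3 +
      C r.b12 * (l 0 ^ 2 * l 1) + C r.b13 * (l 0 ^ 2 * l 2) + C r.b21 * (l 1 ^ 2 * l 0) +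
      C r.b23 * (l 1 ^ 2 * l 2) + C r.b31 * (l 2 ^ 2 * l 0) + C r.b32 * (l 2 ^ 2 * l 1) +
      C r.d * (l 0 * l 1 * l 2)) =
    r.ev (aeval ![x, y, z] (l 0)) (aeval ![x, y, z] (l 1)) (aeval ![x, y, z] (l 2)) := by
  simp only [Cf.ev, map_add, map_mul, map_pow, aeval_C, algebraMap_eq]

/-- The first generator is a cone with vertex `p`. -/
theorem cone_first (g0 g1 : S) (h0 : g0.IsHomogeneous 3) (h1 : g1.IsHomogeneous 3)
    (hP : PenH g0 g1) (p : Fin 4 → ℂ) (hp : p ≠ 0) (hg : ∀ j, eval p (pderiv j g0) = 0)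
    (hh : hess g0 p = 0) : Dia (Ideal.span {g0, g1}) := by
  obtain ⟨x, y, z, w, hl, hx, hy, hz, hw, hF⟩ := cone_form g0 h0 p hp hg hh
  have hne := vertex_ne hl g0 g1 p hx hy hz hw hF hP.base
  obtain ⟨w', Q, R, hl', hQ, hR, rfl⟩ := second_form hl g1 h1 p hx hy hz hw hne
  obtain ⟨c, hc, rfl⟩ := hF
  have hs : Sm3 c := smooth_tern hl' c hc Q R hQ hR hP.base
  obtain ⟨l, ε, ζ, hl3, hd, hcw⟩ := tern_weier c hc hs
  obtain ⟨q, hq, rfl⟩ := hQ
  obtain ⟨r, hr, rfl⟩ := hR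
  obtain ⟨q1, q2, q3, q12, q13, q23, hq'⟩ := tern_q l hl3 q hq
  obtain ⟨a1, a2, a3, b12, b13, b21, b23, b31, b32, d, hr'⟩ := tern_r l hl3 r hr
  have hL := lift3 hl' l hl3
  have eq : aeval ![x, y, z] q = (Qf.mk q1 q2 q3 q12 q13 q23).ev (aeval ![x, y, z] (l 0))
      (aeval ![x, y, z] (l 1)) (aeval ![x, y, z] (l 2)) := by
    rw [hq', ← aeval_q l ⟨q1, q2, q3, q12, q13, q23⟩]
  have er : aeval ![x, y, z] r = (Cf.mk a1 a2 a3 b12 b13 b21 b23 b31 b32 d).ev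
      (aeval ![x, y, z] (l 0)) (aeval ![x, y, z] (l 1)) (aeval ![x, y, z] (l 2)) := by
    rw [hr', ← aeval_r l ⟨a1, a2, a3, b12, b13, b21, b23, b31, b32, d⟩]
  have ec : aeval ![x, y, z] c = wei 1 ε ζ (aeval ![x, y, z] (l 0)) (aeval ![x, y, z] (l 1))
      (aeval ![x, y, z] (l 2)) := by
    rw [hcw]
    simp only [wei, map_add, map_mul, map_pow, aeval_C, algebraMap_eq, C_1, one_mul]
  obtain ⟨X, Y, Z, m, hXYZ, hD, hcmb, hwh⟩ := wei_hes hd hL
  obtain ⟨q', hq2⟩ := sub_q hcmb ⟨q1, q2, q3, q12, q13, q23⟩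
  obtain ⟨r', hr2⟩ := sub_r hcmb ⟨a1, a2, a3, b12, b13, b21, b23, b31, b32, d⟩
  have e1 : aeval ![x, y, z] c = hes m X Y Z := by rw [ec, hwh]
  have e2 : w' ^ 3 + w' * aeval ![x, y, z] q + aeval ![x, y, z] r = gen q' r' X Y Z w' := by
    rw [eq, er, hq2, hr2]
    rfl
  rw [e1, e2] at hP ⊢
  exact hesse_main hXYZ hD hP

/-- Part (A): a pencil with a cone member, without double points of rank at least two and without nodal
quartics, is diagonal. -/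
theorem coneCase (f0 f1 : S) (h0 : f0.IsHomogeneous 3) (h1 : f1.IsHomogeneous 3)
    (hP : PenH f0 f1) (a b : ℂ) (hab : (a, b) ≠ (0, 0)) (p : Fin 4 → ℂ) (hp : p ≠ 0)
    (hg : ∀ j, eval p (pderiv j (C a * f0 + C b * f1)) = 0)
    (hh : hess (C a * f0 + C b * f1) p = 0) : Dia (Ideal.span {f0, f1}) := by
  obtain ⟨a', b', hdet⟩ : ∃ a' b' : ℂ, a * b' - a' * b ≠ 0 := by
    by_cases ha : a = 0
    · have hb : b ≠ 0 := by
        intro hb
        exact hab (by rw [ha, hb])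
      exact ⟨1, 0, by rw [ha]; simpa using hb⟩
    · exact ⟨0, 1, by simpa using ha⟩
  have hP' := hP.comb a b a' b' hdet
  rw [← span_comb f0 f1 a b a' b' hdet]
  have hhom : ∀ s t : ℂ, (C s * f0 + C t * f1).IsHomogeneous 3 := by
    intro s t
    have e1 := (isHomogeneous_C (Fin 4) s).mul h0
    have e2 := (isHomogeneous_C (Fin 4) t).mul h1
    rw [zero_add] at e1 e2
    exact e1.add e2
  exact cone_first _ _ (hhom a b) (hhom a' b') hP' p hp hg hh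

end Pool.Agent.CLA
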