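import Pool.Agent.CLA.FlT

/-!
# CLA / FlR: the case `r ≠ 0`

PROOF.  `p0 = 0`.  If `p1 = p2 = 0` there is nothing to prove.  Otherwise `W(y) = -2 p1 y^3 - 3 p2 y^2 + (ζ p1 - ε p2)` is
not constant and has a root (`exists_root3`).  If some root `t` is of type `TyT` with some `N`: `3 N t = 0`; if `N = 0` then
`p1 = p2 = 0`; so `t = 0`, `p1 = N ε`, `p2 = N ζ`: done.  So assume that no root is of type `TyT`; then all roots are of
type `TyR` (`root_type`).  Let `t` be a root: `p1 = r (3 t^2 + ε)`, `p2 = r (t^3 + ε t + ζ) - p1 t = r (ζ - 2 t^3)`.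
A root `t'` of `W` is of type `TyR`, so `p1 = r (3 t'^2 + ε)`, `p2 = r (ζ - 2 t'^3)`, hence `t'^2 = t^2`, `t'^3 = t^3`, so
`t' = t` (if `t = 0` then `t' = 0`; otherwise `t' = t'^3/t'^2 = t^3/t^2`).
Now `W(y) = - r (y - t) K(y)`, `K(y) = (2 ε + 6 t^2) y^2 + (3 ζ + 2 t ε) y + (3 t ζ + 2 ε t^2)` (identity), so all roots of
`K` are `t`.
Case `2 ε + 6 t^2 ≠ 0`: the two roots of `K` are `t` (if `K(t) = 0` the other root is `-(3ζ+2tε)/(2ε+6t^2) - t`), so
`3 ζ + 2 t ε = -2 t (2 ε + 6 t^2)` and `3 t ζ + 2 ε t^2 = t^2 (2 ε + 6 t^2)`, so `3 t ζ = 6 t^4`: `t = 0` or `ζ = 2 t^3`.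
If `t = 0`: `ζ = 0`, `p1 = r ε`, `p2 = 0`: done.  If `ζ = 2 t^3`, `t ≠ 0`: `6 t^3 + 2 t ε = -4 t ε - 12 t^3` gives
`ε = -3 t^2`, contradiction.
Case `ε = -3 t^2`: `p1 = 0`, `K(y) = 3 (ζ - 2 t^3)(y + t)`, `ζ - 2 t^3 = p2 / r ≠ 0`, so `-t` is a root, `-t = t`, `t = 0`,
`ε = 0`: `ε p2 = 0 = ζ p1`.
-/

set_option autoImplicit false

namespace Pool.Agent.CLA

variable {ε ζ r p0 p1 p2 : ℂ}

theorem flex_r (hd : 4 * ε ^ 3 + 27 * ζ ^ 2 ≠ 0) (hF : FH ε ζ r p0 p1 p2) (hr : r ≠ 0)
    (h0 : p0 = 0) : ε * p2 = ζ * p1 := by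
  subst h0
  by_cases hz : p1 = 0 ∧ p2 = 0
  · rw [hz.1, hz.2, mul_zero, mul_zero]
  by_cases hT : ∃ t N, TyT ε ζ 0 p1 p2 N t
  · obtain ⟨t, N, h1, h2, h3⟩ := hT
    rcases mul_eq_zero.1 h1.symm with h4 | h4
    · exfalso
      have hN : N = 0 := by
        rcases mul_eq_zero.1 h4 with h5 | h5
        · exact absurd h5 (by norm_num)
        · exact h5
      apply hz
      rw [h2, h3, hN]
      exact ⟨by ring, by ring⟩
    · rw [h2, h3, h4]
      ring
  · have hR : ∀ t, Wr ε ζ 0 p1 p2 t = 0 → TyR ε ζ r 0 p1 p2 t := fun t ht =>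
      (root_type hd hF t ht).resolve_left (fun ⟨N, hN⟩ => hT ⟨t, N, hN⟩)
    obtain ⟨t, ht⟩ : ∃ t, Wr ε ζ 0 p1 p2 t = 0 := by
      obtain ⟨t, ht⟩ := exists_root3 (-2 * p1) (-3 * p2) 0 (ζ * p1 - ε * p2) (by
        rintro ⟨h1, h2, -⟩
        apply hz
        constructor
        · rcases mul_eq_zero.1 h1 with h5 | h5
          · exact absurd h5 (by norm_num)
          · exact h5
        · rcases mul_eq_zero.1 h2 with h5 | h5
          · exact absurd h5 (by norm_num)
          · exact h5)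
      refine ⟨t, ?_⟩
      unfold Wr
      linear_combination ht
    obtain ⟨e1, e2⟩ := hR t ht
    have hp1 : p1 = r * (3 * t ^ 2 + ε) := by linear_combination -e2
    have hp2 : p2 = r * (ζ - 2 * t ^ 3) := by linear_combination -e1 + t * e2
    have huniq : ∀ s, Wr ε ζ 0 p1 p2 s = 0 → s = t := by
      intro s hs
      obtain ⟨f1, f2⟩ := hR s hs
      have g1 : s ^ 2 = t ^ 2 := by
        have h3 : (3 * r) * s ^ 2 = (3 * r) * t ^ 2 := by linear_combination f2 - e2
        exact mul_left_cancel₀ (mul_ne_zero (by norm_num) hr) h3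
      have g2 : s ^ 3 = t ^ 3 := by
        have h3 : (2 * r) * s ^ 3 = (2 * r) * t ^ 3 := by
          linear_combination -f1 + s * f2 + e1 - t * e2
        exact mul_left_cancel₀ (mul_ne_zero (by norm_num) hr) h3
      by_cases ht0 : t = 0
      · rw [ht0]
        rw [ht0] at g1
        have h4 : s ^ 2 = 0 := by rw [g1]; ring
        exact pow_eq_zero_iff (two_ne_zero) |>.1 h4
      · have h4 : s * t ^ 2 = t * t ^ 2 := by linear_combination g2 - s * g1
        exact mul_right_cancel₀ (pow_ne_zero 2 ht0) h4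
    have hK : ∀ y, Wr ε ζ 0 p1 p2 y = -r * (y - t) *
        ((2 * ε + 6 * t ^ 2) * y ^ 2 + (3 * ζ + 2 * t * ε) * y +
          (3 * t * ζ + 2 * ε * t ^ 2)) := by
      intro y
      unfold Wr
      rw [hp1, hp2]
      ring
    have hK' : ∀ y, (2 * ε + 6 * t ^ 2) * y ^ 2 + (3 * ζ + 2 * t * ε) * y +
          (3 * t * ζ + 2 * ε * t ^ 2) = 0 → y = t := by
      intro y hy
      apply huniq
      rw [hK, hy, mul_zero]
    by_cases hA : 2 * ε + 6 * t ^ 2 = 0
    · have hε : ε = -3 * t ^ 2 := by linear_combination hA / 2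
      have hmt : -t = t := by
        apply hK'
        rw [hε]
        ring
      have ht0 : t = 0 := by linear_combination -hmt / 2
      rw [ht0] at hε hp1
      rw [hp1, hε]
      ring
    · obtain ⟨y, hy⟩ := exists_root3 0 (2 * ε + 6 * t ^ 2) (3 * ζ + 2 * t * ε)
        (3 * t * ζ + 2 * ε * t ^ 2) (fun h => hA h.2.1)
      have hy1 : y = t := hK' y (by linear_combination hy)
      rw [hy1] at hy
      have hs : -(3 * ζ + 2 * t * ε) / (2 * ε + 6 * t ^ 2) - t = t := by
        apply hK'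
        have h5 : (2 * ε + 6 * t ^ 2) * (-(3 * ζ + 2 * t * ε) / (2 * ε + 6 * t ^ 2)) =
            -(3 * ζ + 2 * t * ε) := mul_div_cancel₀ _ hA
        generalize -(3 * ζ + 2 * t * ε) / (2 * ε + 6 * t ^ 2) = w at h5
        linear_combination hy + (w - 2 * t) * h5
      have hB : 3 * ζ + 2 * t * ε = -2 * t * (2 * ε + 6 * t ^ 2) := by
        have h5 : -(3 * ζ + 2 * t * ε) / (2 * ε + 6 * t ^ 2) = 2 * t := by
          linear_combination hs
        rw [div_eq_iff hA] at h5
        linear_combination -h5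
      have hC : t * (ζ - 2 * t ^ 3) = 0 := by
        linear_combination (hy - t * hB) / 3
      rcases mul_eq_zero.1 hC with h6 | h6
      · rw [h6] at hB hp1 hp2
        have h7 : ζ = 0 := by linear_combination hB / 3
        rw [hp2, h7]
        ring
      · by_cases ht0 : t = 0
        · rw [ht0] at hB hp1 hp2
          have h7 : ζ = 0 := by linear_combination hB / 3
          rw [hp2, h7]
          ring
        · exfalso
          have h8 : t * (2 * ε + 6 * t ^ 2) = 0 := by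
            linear_combination (hB - 3 * h6) / 3
          rcases mul_eq_zero.1 h8 with h9 | h9
          · exact ht0 h9
          · exact hA h9

end Pool.Agent.CLA
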