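import Pool.Agent.CLA.Roots

/-!
# CLA / FlT: double roots in a pencil of binary cubics

`c(y) = y^3 + ε y + ζ` with `4 ε^3 + 27 ζ^2 ≠ 0`, `ρ(y) = p0 y^2 + p1 y + p2`, `W = c ρ' - c' ρ`.
`FH`: for `N ≠ r` the cubic `N c - ρ` has no exactly double root.

PROOFS.
* `cc_ne`: if `c(t) = 0` and `c'(t) = 0` then `ε = -3 t^2`, `ζ = 2 t^3`, discriminant `0`.
* `exists_N`: if `c(t) ≠ 0` take `N = ρ(t) / c(t)`, then `c(t) (N c'(t) - ρ'(t)) = ρ(t) c'(t) - c(t) ρ'(t) = -W(t) = 0`.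
  If `c(t) = 0` then `c'(t) ≠ 0` (`cc_ne`), `W(t) = - c'(t) ρ(t) = 0` gives `ρ(t) = 0`; take `N = ρ'(t)/c'(t)`.
* `root_type`: take `N` from `exists_N`.  If `N = r` second alternative.  Otherwise `FH` gives `3 N t = p0`; then
  `p1 = N c'(t) - 2 p0 t = N (3 t^2 + ε) - 6 N t^2 = N (ε - 3 t^2)` and
  `p2 = N c(t) - p0 t^2 - p1 t = N (t^3 + ε t + ζ) - 3 N t^3 - N (ε - 3 t^2) t = N (ζ + t^3)`.
* `tyT_root`: a direct computation (`W(t) = 0`), more precisely `W(y) = (y - t)^2 ((y - t) ρ'(y) - 3 ρ(y))` for all `y`.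
* `two_T`: `N1, N2, t1, t2 ≠ 0` as `p0 = 3 N1 t1 = 3 N2 t2 ≠ 0`.  From `p1`: `(ε - 3 t1^2) t2 = (ε - 3 t2^2) t1`, so
  `ε (t2 - t1) = - 3 t1 t2 (t2 - t1)`, `ε = - 3 t1 t2`.  From `p2`: `(ζ + t1^3) t2 = (ζ + t2^3) t1`, `ζ = t1 t2 (t1 + t2)`.
  Then `p1 = - p0 (t1 + t2)`, `p2 = p0 (t1^2 + t1 t2 + t2^2) / 3` and the identities follow.
-/

set_option autoImplicit false

namespace Pool.Agent.CLA

/-- for `N ≠ r` the cubic `N c - ρ` has no exactly double root -/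
def FH (ε ζ r p0 p1 p2 : ℂ) : Prop :=
  ∀ N t : ℂ, N ≠ r → N * t ^ 3 - p0 * t ^ 2 + (N * ε - p1) * t + (N * ζ - p2) = 0 →
    3 * N * t ^ 2 - 2 * p0 * t + (N * ε - p1) = 0 → 3 * N * t - p0 = 0

/-- the Wronskian `c ρ' - c' ρ` -/
def Wr (ε ζ p0 p1 p2 t : ℂ) : ℂ :=
  -p0 * t ^ 4 - 2 * p1 * t ^ 3 + (ε * p0 - 3 * p2) * t ^ 2 + 2 * ζ * p0 * t + (ζ * p1 - ε * p2)

/-- `N c - ρ = N (y - t)^3` -/
def TyT (ε ζ p0 p1 p2 N t : ℂ) : Prop :=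
  p0 = 3 * N * t ∧ p1 = N * (ε - 3 * t ^ 2) ∧ p2 = N * (ζ + t ^ 3)

/-- `r c - ρ` has a double root at `t` -/
def TyR (ε ζ r p0 p1 p2 t : ℂ) : Prop :=
  r * (t ^ 3 + ε * t + ζ) = p0 * t ^ 2 + p1 * t + p2 ∧ r * (3 * t ^ 2 + ε) = 2 * p0 * t + p1

variable {ε ζ r p0 p1 p2 : ℂ}

theorem cc_ne (hd : 4 * ε ^ 3 + 27 * ζ ^ 2 ≠ 0) (t : ℂ) (h : t ^ 3 + ε * t + ζ = 0) :
    3 * t ^ 2 + ε ≠ 0 := by
  intro h'
  have h1 : ε = -(3 * t ^ 2) := by linear_combination h'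
  have h2 : ζ = 2 * t ^ 3 := by
    rw [h1] at h
    linear_combination h
  apply hd
  rw [h1, h2]
  ring

theorem exists_N (hd : 4 * ε ^ 3 + 27 * ζ ^ 2 ≠ 0) (t : ℂ) (hW : Wr ε ζ p0 p1 p2 t = 0) :
    ∃ N : ℂ, TyR ε ζ N p0 p1 p2 t := by
  have hW2 : (t ^ 3 + ε * t + ζ) * (2 * p0 * t + p1) -
      (3 * t ^ 2 + ε) * (p0 * t ^ 2 + p1 * t + p2) = 0 := by
    rw [← hW]
    unfold Wr
    ring
  by_cases hc : t ^ 3 + ε * t + ζ = 0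
  · have hc' := cc_ne hd t hc
    have hρ : p0 * t ^ 2 + p1 * t + p2 = 0 := by
      rw [hc, zero_mul, zero_sub, neg_eq_zero] at hW2
      exact (mul_eq_zero.1 hW2).resolve_left hc'
    refine ⟨(2 * p0 * t + p1) / (3 * t ^ 2 + ε), ?_, ?_⟩
    · rw [hc, hρ, mul_zero]
    · exact div_mul_cancel₀ _ hc'
  · refine ⟨(p0 * t ^ 2 + p1 * t + p2) / (t ^ 3 + ε * t + ζ), div_mul_cancel₀ _ hc, ?_⟩
    rw [div_mul_eq_mul_div, div_eq_iff hc]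
    linear_combination -hW2

theorem root_type (hd : 4 * ε ^ 3 + 27 * ζ ^ 2 ≠ 0) (hF : FH ε ζ r p0 p1 p2) (t : ℂ)
    (hW : Wr ε ζ p0 p1 p2 t = 0) :
    (∃ N, TyT ε ζ p0 p1 p2 N t) ∨ TyR ε ζ r p0 p1 p2 t := by
  obtain ⟨N, hN1, hN2⟩ := exists_N hd t hW
  by_cases hr : N = r
  · subst hr
    exact Or.inr ⟨hN1, hN2⟩
  · have h1 : 3 * N * t - p0 = 0 :=
      hF N t hr (by linear_combination hN1) (by linear_combination hN2)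
    refine Or.inl ⟨N, by linear_combination -h1, ?_, ?_⟩
    · linear_combination -hN2 + 2 * t * h1
    · linear_combination -hN1 + t * hN2 - t ^ 2 * h1

theorem tyT_root (N t : ℂ) (h : TyT ε ζ p0 p1 p2 N t) (hN : N ≠ 0) (y : ℂ) :
    Wr ε ζ p0 p1 p2 y =
      (y - t) ^ 2 * ((y - t) * (2 * p0 * y + p1) - 3 * (p0 * y ^ 2 + p1 * y + p2)) := by
  obtain ⟨h0, h1, h2⟩ := h
  unfold Wr
  rw [h0, h1, h2]
  ring

theorem two_T (hp : p0 ≠ 0) (N1 N2 t1 t2 : ℂ) (h1 : TyT ε ζ p0 p1 p2 N1 t1)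
    (h2 : TyT ε ζ p0 p1 p2 N2 t2) (hne : t1 ≠ t2) :
    ε ≠ 0 ∧ ε * p1 = 3 * ζ * p0 ∧ 9 * ε ^ 2 * p2 = (27 * ζ ^ 2 + ε ^ 3) * p0 := by
  obtain ⟨a1, b1, c1⟩ := h1
  obtain ⟨a2, b2, c2⟩ := h2
  have hN1 : N1 ≠ 0 := by
    rintro rfl
    apply hp
    rw [a1]
    ring
  have hN2 : N2 ≠ 0 := by
    rintro rfl
    apply hp
    rw [a2]
    ring
  have ht1 : t1 ≠ 0 := by
    rintro rfl
    apply hp
    rw [a1]
    ring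
  have ht2 : t2 ≠ 0 := by
    rintro rfl
    apply hp
    rw [a2]
    ring
  have hd : t2 - t1 ≠ 0 := sub_ne_zero.2 (Ne.symm hne)
  have e0 : N1 * t1 = N2 * t2 := by linear_combination (a2 - a1) / 3
  have e1 : N1 * (ε - 3 * t1 ^ 2) = N2 * (ε - 3 * t2 ^ 2) := by rw [← b1, ← b2]
  have e2 : N1 * (ζ + t1 ^ 3) = N2 * (ζ + t2 ^ 3) := by rw [← c1, ← c2]
  have f1 : (ε - 3 * t1 ^ 2) * t2 = (ε - 3 * t2 ^ 2) * t1 := by
    apply mul_left_cancel₀ (mul_ne_zero hN1 ht1)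
    linear_combination t1 * t2 * e1 - (ε - 3 * t2 ^ 2) * t1 * e0
  have f2 : (ζ + t1 ^ 3) * t2 = (ζ + t2 ^ 3) * t1 := by
    apply mul_left_cancel₀ (mul_ne_zero hN1 ht1)
    linear_combination t1 * t2 * e2 - (ζ + t2 ^ 3) * t1 * e0
  have g1 : ε = -(3 * t1 * t2) := by
    apply mul_left_cancel₀ hd
    linear_combination f1
  have g2 : ζ = t1 * t2 * (t1 + t2) := by
    apply mul_left_cancel₀ hd
    linear_combination f2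
  refine ⟨?_, ?_, ?_⟩
  · rw [g1]
    exact neg_ne_zero.2 (mul_ne_zero (mul_ne_zero three_ne_zero ht1) ht2)
  · rw [a1, b1, g1, g2]
    ring
  · rw [a1, c1, g1, g2]
    ring

end Pool.Agent.CLA
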