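import Pool.Agent.CLA.Tens
import Pool.Agent.CLA.Roots
import Pool.Agent.Helper10.FQ.Zero

/-!
# CLA / FlexE: flexes and the Weierstrass basis

PROOFS.
* `exists_flex`: let `H(p)` be the matrix `(∑ i, T i j k * p i)_{j,k}`.  The two polynomials `∑ T i j k X_i X_j X_k` and
  `det (∑ i, C (T i j k) * X i)` in `MvPolynomial (Fin 3) ℂ` vanish at `0`; by
  `Helper10/FQ/Zero.exists_common_zero` (two polynomials, three variables) they have a common zero `e ≠ 0`.  As
  `det H(e) = 0` there is `k ≠ 0` with `H(e) k = 0` (`Matrix.exists_mulVec_eq_zero_iff`), i.e. `tri T e v k = 0` for all `v`.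
* `weier_basis`: `e, k` as above.  `tri e e k = 0`, `tri e k k = 0`, `tri e e e = 0`, `tri e e ≠ 0` (smooth): choose `h0` with
  `tri e e h0 ≠ 0`.  `e, k, h0` are independent: `h0` is not in the span of `e, k` (there `tri e e = 0`); `k = a e` would
  give `a tri e e v = tri e k v = 0` for all `v`, `a = 0`.  `tri k k k ≠ 0`: otherwise let `(s, t) ≠ 0` with
  `s^2 tri e e h0 + t^2 tri k k h0 = 0` and `v = s e + t k ≠ 0`: `tri v v e = 0`, `tri v v k = 0`, `tri v v h0 = 0`, so
  `tri v v = 0` on the basis, contradiction to smoothness.  Scale `k` (cube root) to have `tri k k k = 1`.  Replace `h0` by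
  `h = b (h0 + α e + β k)` with `α, β` such that `tri e h h = 0` (`tri e h0 h0 + 2 α tri e e h0 = 0`), `tri k k h = 0`
  (`tri k k h0 + β = 0`), and `3 tri e e h = 1` (`b`).
* `weier_disc`: if `4 ε^3 + 27 ζ^2 = 0` there is `y` with `y^3 + ε y + ζ = 0` and `3 y^2 + ε = 0` (if `ε = 0` then `ζ = 0`, `y = 0`;
  otherwise `y = -3 ζ/(2 ε)`); then `v = y k + h ≠ 0` has `tri v v e = 0`, `3 tri v v k = 3 y^2 + ε = 0` (`tri v v k =
  y^2 + tri k h h`, `ε = 3 tri k h h`), `tri v v h = 2 y tri k h h + tri h h h = (2/3) ε y + ζ = 0`: contradiction.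
-/

set_option autoImplicit false

namespace Pool.Agent.CLA

open MvPolynomial

variable {T : Fin 3 → Fin 3 → Fin 3 → ℂ}

theorem exists_flex (hT : Sy3 T) :
    ∃ e k : Fin 3 → ℂ, e ≠ 0 ∧ k ≠ 0 ∧ tri T e e e = 0 ∧ ∀ v, tri T e k v = 0 := by
  classical
  let g : Fin 2 → MvPolynomial (Fin 3) ℂ :=
    ![∑ i, ∑ j, ∑ k, C (T i j k) * X i * X j * X k,
      (Matrix.of fun j k : Fin 3 => (∑ i, C (T i j k) * X i : MvPolynomial (Fin 3) ℂ)).det]
  have hdet : ∀ x : Fin 3 → ℂ, eval x (g 1) =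
      (Matrix.of fun j k : Fin 3 => ∑ i, T i j k * x i).det := by
    intro x
    change eval x (Matrix.of fun j k : Fin 3 =>
      (∑ i, C (T i j k) * X i : MvPolynomial (Fin 3) ℂ)).det = _
    rw [RingHom.map_det]
    congr 1
    ext j k
    simp
  obtain ⟨e, he, hz⟩ := Helper10.FQ.exists_common_zero (Finset.univ : Finset (Fin 2)) g (by
    intro k _
    fin_cases k
    · simp [g]
    · change eval 0 (g 1) = 0
      rw [hdet, Matrix.det_fin_three]
      simp) (by simp)
  have h0 := hz 0 (Finset.mem_univ _)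
  have h1 := hz 1 (Finset.mem_univ _)
  rw [hdet] at h1
  obtain ⟨k, hk, hk'⟩ := Matrix.exists_mulVec_eq_zero_iff.2 h1
  refine ⟨e, k, he, hk, ?_, fun v => ?_⟩
  · have h2 : eval e (g 0) = tri T e e e := by
      simp [g, tri]
    rw [← h2, h0]
  · rw [tri_comm23 hT]
    have h3 : ∀ j, ∑ l, (∑ i, T i j l * e i) * k l = 0 := fun j => congrFun hk' j
    have h4 : tri T e v k = ∑ j, v j * ∑ l, (∑ i, T i j l * e i) * k l := by
      unfold tri
      simp only [Fin.sum_univ_three]
      ring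
    rw [h4]
    exact Finset.sum_eq_zero fun j _ => by rw [h3 j, mul_zero]

end Pool.Agent.CLA
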