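import Pool.Agent.CLA.Comb
import Pool.Agent.CLA.Roots

/-!
# CLA / Four: the other Hesse systems

PROOFS.
* `gen_four`: `m' = (2-m)/(1+m)` (`1 + m ≠ 0` as `1 + m^3 ≠ 0`).  `m' ≠ 0`: `m ≠ 2` since `m^3 ≠ 8`.  `1 + m'^3 =
  9 (1 - m + m^2)/(1+m)^3 ≠ 0`.  `m'^3 - 8 = ((2-m)^3 - 8 (1+m)^3)/(1+m)^3 = - 9 m (m^2 + 2 m + 4)/(1+m)^3 ≠ 0`, because
  `(m - 2)(m^2 + 2 m + 4) = m^3 - 8 ≠ 0`.
* `four`: `w^2 + w + 1 = 0`, `X' = X+Y+Z`, `Y' = X + w Y + w^2 Z`, `Z' = X + w^2 Y + w Z`;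
  `3 X = X'+Y'+Z'`, `3 Y = X' + w^2 Y' + w Z'`, `3 Z = X' + w Y' + w^2 Z'` (`Lin4.of_span`).
  `hes m X Y Z = C ((1+m)/9) * hes m' X' Y' Z'` (from `X'^3+Y'^3+Z'^3 = 3 (X^3+Y^3+Z^3) + 18 XYZ` and
  `X'Y'Z' = X^3+Y^3+Z^3 - 3XYZ`), `PenH.comb'` with `a = (1+m)/9`, `e = 0`.  `r.ev X Y Z` is a cubic form in `X', Y', Z'`,
  i.e. `r'.ev X' Y' Z'` with explicit coefficients (expand `r.ev` of the three expressions above), with
  `27 a1' = r(1,1,1)`, `27 a2' = r(1,w^2,w)`, `27 a3' = r(1,w,w^2)`.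
* `pq`: `lemL3` for `four`: with `s = a1+a2+a3+d`, `P = b12+b23+b31`, `Q = b13+b21+b32`:
  `s + P + Q = s + w^2 P + w Q = s + w P + w^2 Q`, so `(w^2 - w)(P - Q) = 0`, `P = Q`, `2 P = - P`.
* `b_zero`: `pq` for `HP.rot` with `t = 1, w, w^2` (`Gen (t m)`: `(t m)^3 = m^3`):
  `t b12 + t^2 b23 + b31 = 0` and `b13 + t^2 b21 + t b32 = 0` for the three `t`, so all are `0`.
-/

set_option autoImplicit false

namespace Pool.Agent.CLA

open MvPolynomial Pool.Agent.CLU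

theorem gen_four {m : ℂ} (hG : Gen m) : Gen ((2 - m) / (1 + m)) := by
  obtain ⟨h1, h2, h3⟩ := hG
  have hm : (1 + m) ≠ 0 := by
    intro h
    apply h3
    linear_combination (1 - m + m ^ 2) * h
  have hm2 : (2 - m) ≠ 0 := by
    intro h
    apply h2
    linear_combination (-(m ^ 2 + 2 * m + 4)) * h
  refine ⟨div_ne_zero hm2 hm, ?_, ?_⟩
  · intro h
    rw [div_pow, div_eq_iff (pow_ne_zero 3 hm)] at h
    have e : m * ((m - 2) * (m ^ 2 + 2 * m + 4)) * 9 = 9 * (m * (m ^ 3 - 8)) := by ring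
    have h4 : m * (m ^ 2 + 2 * m + 4) = 0 := by linear_combination (-1 / 9 : ℂ) * h
    have h5 : m * (m ^ 3 - 8) = 0 := by linear_combination (m - 2) * h4
    rcases mul_eq_zero.1 h5 with h6 | h6
    · exact h1 h6
    · exact h2 (by linear_combination h6)
  · intro h
    have h4 : 1 + ((2 - m) / (1 + m)) ^ 3 = 9 * (1 - m + m ^ 2) / (1 + m) ^ 3 := by
      field_simp
      ring
    rw [h4, div_eq_zero_iff] at h
    rcases h with h5 | h5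
    · apply h3
      linear_combination (1 / 9 : ℂ) * (1 + m) * h5
    · exact pow_ne_zero 3 hm h5

/-- the new coefficients -/
private noncomputable def nr (r : Cf) (y z y' z' : ℂ) : Cf where
  a1 := (1 / 3) ^ 3 * (r.a1 + r.a2 + r.a3 + r.b12 + r.b13 + r.b21 + r.b23 + r.b31 + r.b32 + r.d)
  a2 := (1 / 3) ^ 3 * (r.a1 + r.a2 * y ^ 3 + r.a3 * z ^ 3 + r.b12 * y + r.b13 * z + r.b21 * y ^ 2 +
    r.b23 * (y ^ 2 * z) + r.b31 * z ^ 2 + r.b32 * (z ^ 2 * y) + r.d * (y * z))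
  a3 := (1 / 3) ^ 3 * (r.a1 + r.a2 * y' ^ 3 + r.a3 * z' ^ 3 + r.b12 * y' + r.b13 * z' +
    r.b21 * y' ^ 2 + r.b23 * (y' ^ 2 * z') + r.b31 * z' ^ 2 + r.b32 * (z' ^ 2 * y') +
    r.d * (y' * z'))
  b12 := (1 / 3) ^ 3 * (3 * r.a1 + 3 * r.a2 * y + 3 * r.a3 * z + r.b12 * (2 + y) + r.b13 * (2 + z) +
    r.b21 * (2 * y + 1) + r.b23 * (2 * y + z) + r.b31 * (2 * z + 1) + r.b32 * (2 * z + y) +
    r.d * (1 + y + z))
  b13 := (1 / 3) ^ 3 * (3 * r.a1 + 3 * r.a2 * y' + 3 * r.a3 * z' + r.b12 * (2 + y') +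
    r.b13 * (2 + z') + r.b21 * (2 * y' + 1) + r.b23 * (2 * y' + z') + r.b31 * (2 * z' + 1) +
    r.b32 * (2 * z' + y') + r.d * (1 + y' + z'))
  b21 := (1 / 3) ^ 3 * (3 * r.a1 + 3 * r.a2 * y ^ 2 + 3 * r.a3 * z ^ 2 + r.b12 * (1 + 2 * y) +
    r.b13 * (1 + 2 * z) + r.b21 * (y ^ 2 + 2 * y) + r.b23 * (y ^ 2 + 2 * y * z) +
    r.b31 * (z ^ 2 + 2 * z) + r.b32 * (z ^ 2 + 2 * z * y) + r.d * (y * z + z + y))
  b31 := (1 / 3) ^ 3 * (3 * r.a1 + 3 * r.a2 * y' ^ 2 + 3 * r.a3 * z' ^ 2 + r.b12 * (1 + 2 * y') +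
    r.b13 * (1 + 2 * z') + r.b21 * (y' ^ 2 + 2 * y') + r.b23 * (y' ^ 2 + 2 * y' * z') +
    r.b31 * (z' ^ 2 + 2 * z') + r.b32 * (z' ^ 2 + 2 * z' * y') + r.d * (y' * z' + z' + y'))
  b23 := (1 / 3) ^ 3 * (3 * r.a1 + 3 * r.a2 * (y ^ 2 * y') + 3 * r.a3 * (z ^ 2 * z') +
    r.b12 * (y' + 2 * y) + r.b13 * (z' + 2 * z) + r.b21 * (y ^ 2 + 2 * y * y') +
    r.b23 * (y ^ 2 * z' + 2 * y * y' * z) + r.b31 * (z ^ 2 + 2 * z * z') +
    r.b32 * (z ^ 2 * y' + 2 * z * z' * y) + r.d * (y * z + y' * z + y * z'))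
  b32 := (1 / 3) ^ 3 * (3 * r.a1 + 3 * r.a2 * (y' ^ 2 * y) + 3 * r.a3 * (z' ^ 2 * z) +
    r.b12 * (y + 2 * y') + r.b13 * (z + 2 * z') + r.b21 * (y' ^ 2 + 2 * y' * y) +
    r.b23 * (y' ^ 2 * z + 2 * y' * y * z') + r.b31 * (z' ^ 2 + 2 * z' * z) +
    r.b32 * (z' ^ 2 * y + 2 * z' * z * y') + r.d * (y' * z' + y * z' + y' * z))
  d := (1 / 3) ^ 3 * (6 * r.a1 + 6 * r.a2 * (y * y') + 6 * r.a3 * (z * z') +
    r.b12 * (2 + 2 * y + 2 * y') + r.b13 * (2 + 2 * z + 2 * z') +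
    r.b21 * (2 * y * y' + 2 * y' + 2 * y) + r.b23 * (2 * y * y' + 2 * y' * z + 2 * y * z') +
    r.b31 * (2 * z * z' + 2 * z' + 2 * z) + r.b32 * (2 * z * z' + 2 * z' * y + 2 * z * y') +
    r.d * ((y * z' + y' * z) + (z' + y') + (z + y)))

private theorem ev_nr (r : Cf) (y z y' z' : ℂ) (A B D : S) :
    r.ev (C (1 / 3) * (A + B + D)) (C (1 / 3) * (A + C y * B + C y' * D))
      (C (1 / 3) * (A + C z * B + C z' * D)) = (nr r y z y' z').ev A B D := by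
  unfold Cf.ev nr
  simp only [C_mul, C_add, C_pow, C_1, map_ofNat]
  ring

theorem four {m w : ℂ} {r : Cf} (hG : Gen m) (hw : w ^ 2 + w + 1 = 0) (h : HP m Qf.zero r) :
    ∃ r' : Cf, HP ((2 - m) / (1 + m)) Qf.zero r' ∧
      27 * r'.a1 = r.a1 + r.a2 + r.a3 + r.d + (r.b12 + r.b23 + r.b31) + (r.b13 + r.b21 + r.b32) ∧
      27 * r'.a2 = r.a1 + r.a2 + r.a3 + r.d + w ^ 2 * (r.b12 + r.b23 + r.b31) +
        w * (r.b13 + r.b21 + r.b32) ∧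
      27 * r'.a3 = r.a1 + r.a2 + r.a3 + r.d + w * (r.b12 + r.b23 + r.b31) +
        w ^ 2 * (r.b13 + r.b21 + r.b32) := by
  obtain ⟨-, -, hG3⟩ := hG
  have hm : (1 + m) ≠ 0 := by
    intro h
    apply hG3
    linear_combination (1 - m + m ^ 2) * h
  have w3 : w ^ 3 = 1 := by linear_combination (w - 1) * hw
  obtain ⟨X, Y, Z, W, hL, hP⟩ := h
  have hv : (C w : S) ^ 2 + C w + 1 = 0 := by
    rw [← C_pow, ← C_add, ← C_1, ← C_add, hw, C_0]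
  have hu : (C (1 / 3) : S) * 3 = 1 := by
    rw [← C_1, ← map_ofNat (C : ℂ →+* S) 3, ← C_mul]
    norm_num
  obtain ⟨X', hX'⟩ : ∃ X', X' = X + Y + Z := ⟨_, rfl⟩
  obtain ⟨Y', hY'⟩ : ∃ Y', Y' = X + C w * Y + C w ^ 2 * Z := ⟨_, rfl⟩
  obtain ⟨Z', hZ'⟩ : ∃ Z', Z' = X + C w ^ 2 * Y + C w * Z := ⟨_, rfl⟩
  have eX : X = C (1 / 3) * (X' + Y' + Z') := by
    rw [hX', hY', hZ']
    linear_combination (-X) * hu - C (1 / 3) * (Y + Z) * hv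
  have eY : Y = C (1 / 3) * (X' + C w ^ 2 * Y' + C w * Z') := by
    rw [hX', hY', hZ']
    linear_combination (-Y) * hu - C (1 / 3) * (X + 2 * (C w - 1) * Y +
      (1 - C w + C w ^ 2) * Z) * hv
  have eZ : Z = C (1 / 3) * (X' + C w * Y' + C w ^ 2 * Z') := by
    rw [hX', hY', hZ']
    linear_combination (-Z) * hu - C (1 / 3) * (X + (1 - C w + C w ^ 2) * Y +
      2 * (C w - 1) * Z) * hv
  refine ⟨nr r (w ^ 2) w w (w ^ 2), ⟨X', Y', Z', W, ?_, ?_⟩, ?_, ?_, ?_⟩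
  · refine hL.of_span ?_ ?_ ?_ hL.hom.2.2.2
      ![![1 / 3, 1 / 3, 1 / 3, 0], ![1 / 3, 1 / 3 * w ^ 2, 1 / 3 * w, 0],
        ![1 / 3, 1 / 3 * w, 1 / 3 * w ^ 2, 0], ![0, 0, 0, 1]] ?_
    · have h1 := hL.hom_comb 1 1 1 0
      simpa [hX'] using h1
    · have h1 := hL.hom_comb 1 w (w ^ 2) 0
      simpa [hY'] using h1
    · have h1 := hL.hom_comb 1 (w ^ 2) w 0
      simpa [hZ'] using h1
    · intro i
      fin_cases i
      · change X = C (1 / 3) * X' + C (1 / 3) * Y' + C (1 / 3) * Z' + C 0 * W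
        rw [C_0]
        linear_combination eX
      · change Y = C (1 / 3) * X' + C (1 / 3 * w ^ 2) * Y' + C (1 / 3 * w) * Z' + C 0 * W
        rw [C_0, C_mul, C_mul, C_pow]
        linear_combination eY
      · change Z = C (1 / 3) * X' + C (1 / 3 * w) * Y' + C (1 / 3 * w ^ 2) * Z' + C 0 * W
        rw [C_0, C_mul, C_mul, C_pow]
        linear_combination eZ
      · change W = C 0 * X' + C 0 * Y' + C 0 * Z' + C 1 * W
        rw [C_0, C_1]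
        ring
  · refine hP.comb' ((1 + m) / 9) 0 (div_ne_zero hm (by norm_num)) ?_ ?_
    · have hp : Y' * Z' = X ^ 2 + Y ^ 2 + Z ^ 2 - X * Y - X * Z - Y * Z := by
        rw [hY', hZ']
        linear_combination (X * Y + X * Z + (C w - 1) * (Y ^ 2 + Z ^ 2) +
          (C w ^ 2 - C w + 1) * (Y * Z)) * hv
      have hs : Y' + Z' = 2 * X - Y - Z := by
        rw [hY', hZ']
        linear_combination (Y + Z) * hv
      have h3 : Y' ^ 3 + Z' ^ 3 = (2 * X - Y - Z) ^ 3 -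
          3 * (X ^ 2 + Y ^ 2 + Z ^ 2 - X * Y - X * Z - Y * Z) * (2 * X - Y - Z) := by
        rw [← hs, ← hp]
        ring
      have hq : (C (1 / 9) : S) * 9 = 1 := by
        rw [← C_1, ← map_ofNat (C : ℂ →+* S) 9, ← C_mul]
        norm_num
      have hn : (1 + C m : S) * C ((2 - m) / (1 + m)) = 2 - C m := by
        rw [← C_1, ← C_add, ← C_mul, mul_div_cancel₀ _ hm, C_sub, map_ofNat]
      have e1 : (C ((1 + m) / 9) : S) = (1 + C m) * C (1 / 9) := by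
        rw [← C_1, ← C_add, ← C_mul]
        congr 1
        ring
      unfold hes
      rw [e1, C_mul, C_mul, map_ofNat]
      have h4 : X' * Y' * Z' = (X + Y + Z) * (X ^ 2 + Y ^ 2 + Z ^ 2 - X * Y - X * Z - Y * Z) := by
        rw [mul_assoc, hp, hX']
      have h5 : X' ^ 3 + Y' ^ 3 + Z' ^ 3 = (X + Y + Z) ^ 3 + ((2 * X - Y - Z) ^ 3 -
          3 * (X ^ 2 + Y ^ 2 + Z ^ 2 - X * Y - X * Z - Y * Z) * (2 * X - Y - Z)) := by
        rw [add_assoc, h3, hX']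
      rw [h4, h5]
      linear_combination (-(X ^ 3 + Y ^ 3 + Z ^ 3 + 3 * C m * (X * Y * Z))) * hq -
        3 * C (1 / 9) * (X + Y + Z) * (X ^ 2 + Y ^ 2 + Z ^ 2 - X * Y - X * Z - Y * Z) * hn
    · have e1 : ∀ A B D : S, Qf.zero.ev A B D = 0 := by
        intro A B D
        unfold Qf.ev Qf.zero
        simp
      have e2 := ev_nr r (w ^ 2) w w (w ^ 2) X' Y' Z'
      rw [C_pow, ← eX, ← eY, ← eZ] at e2
      unfold gen
      rw [e1, e1, e2, C_0]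
      ring
  · unfold nr
    ring
  · unfold nr
    linear_combination (r.a2 * (w ^ 3 + 1) + r.a3 + r.b21 * w + r.b23 * w ^ 2 + r.b32 * w +
      r.d) * w3
  · unfold nr
    linear_combination (r.a2 + r.a3 * (w ^ 3 + 1) + r.b23 * w + r.b31 * w + r.b32 * w ^ 2 +
      r.d) * w3

end Pool.Agent.CLA
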