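import Pool.Agent.CLA.HesG
import Pool.Agent.CLA.Flex1
import Pool.Agent.CLA.Roots


/-!
# CLA / HesC: conclusions at the flex `(0, 1, -1)`

PROOFS.  Rewrite the pencil by `hes_wei`, `q_wei`, `r_wei` (`gen q r X Y Z W = W^3 + W * q.ev + r.ev`) and use the
coordinates `fx, fy, fz, W` (`fx_lin`).
* `hB`: `flex1`.
* `hDich`: if `A = q2+q3-2q23` and `R = fr` are not both `0`, `two_roots A R` gives `u ≠ v`, both `≠ 0`; `flex2` (with `B = 0`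
  by `hB`) gives `u D + p0 = 0 = v D + p0`, so `D = 0`, `p0 = 0`; clear denominators.
* `hRho` (`q = 0`, so `A = B = D = 0` and also `E = F = G = 0`, because `Qf.zero.ev = 0 = qd 0 0 0 0 0 0`: rewrite with this
  instead of `q_wei`): `flex_alg` with `hH`: for `N ≠ R` choose `w0` with `w0^3 = N - R` (`exists_cube`), `w0 ≠ 0`, `flex3`;
  for `R ≠ 0` choose `w0^3 = -R`, `flex2` gives `p0 = 0`.  Discriminant: `hes_disc`.  Then translate: with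
  `p0, p1, p2` as in `r_wei` (multiplied by `D^2` resp.) one has
  `fa = (4+n)^2 p0 - 3 m (4+n) p1 + 9 m^2 p2`, `fb = 6 m^2 (4+n) p0 + (12-6n) p1 - 18 m p2`, `fc = 36 m^4 p0 + 36 m^2 p1 + 36 p2`.
  First case `p0 = 0`, `ε p2 = ζ p1`: as `(ε, ζ) ≠ (0, 0)` there is `g` with `p1 = 9 m (8-n) g`, `p2 = 2 (8-20n-n^2) g`
  (`ε : ζ = 9 m (8-n) : 2 (8-20n-n^2)`), and then `(fa, fb, fc) = 9 g (dA, dB, dC)`.
  Second case: with `u = m (8-n) ≠ 0`, `v = 8-20n-n^2`: `p1 = (2 v/(3u)) p0`, `p2 = (4 v^2+u^3)/(27 u^2) p0`; with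
  `p0 = 27 u^2 t` one gets `(fa, fb, fc) = -576 (1+n)^2 t (eA, eB, eC)`, for example
  `27u^2(4+n)^2 - 54 m (4+n) u v + 9 m^2 (4v^2+u^3) = 576 m^2 (1+n)^2 (n+28)`.
-/

set_option autoImplicit false

namespace Pool.Agent.CLA

open MvPolynomial Pool.Agent.CLU

variable {X Y Z W : S} {m : ℂ} {q : Qf} {r : Cf}

theorem hB (hD : 1 + m ^ 3 ≠ 0) (h : Lin4 X Y Z W)
    (hN : NoNod (hes m X Y Z) (gen q r X Y Z W)) :
    m * (q.q2 - q.q3) + 2 * (q.q12 - q.q13) = 0 := by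
  obtain ⟨E, F, G, hq⟩ := q_wei hD q X Y Z
  obtain ⟨s1, s2, t0, t1, t2, t3, hr⟩ := r_wei hD r X Y Z
  rw [hes_wei hD X Y Z, gen, hq, hr] at hN
  have h1 := flex1 (fx_lin hD h) hN
  rcases div_eq_zero_iff.1 h1 with h2 | h2
  · exact h2
  · exact absurd h2 (mul_ne_zero (by norm_num) hD)

theorem hDich (hD : 1 + m ^ 3 ≠ 0) (h : Lin4 X Y Z W)
    (hN : NoNod (hes m X Y Z) (gen q r X Y Z W)) :
    (4 * q.q1 + m ^ 2 * (q.q2 + q.q3 + 2 * q.q23) + 4 * m * (q.q12 + q.q13) = 0 ∧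
      4 * r.fa + 4 * m * r.fb + m ^ 2 * r.fc = 0) ∨
    (q.q2 + q.q3 - 2 * q.q23 = 0 ∧ r.fr = 0) := by
  by_cases hA : q.q2 + q.q3 - 2 * q.q23 = 0 ∧ r.fr = 0
  · exact Or.inr hA
  · left
    obtain ⟨E, F, G, hq⟩ := q_wei hD q X Y Z
    obtain ⟨s1, s2, t0, t1, t2, t3, hr⟩ := r_wei hD r X Y Z
    rw [hes_wei hD X Y Z, gen, hq, hr] at hN
    have hB0 := flex1 (fx_lin hD h) hN
    obtain ⟨u, v, hu, hv, huv, eu, ev⟩ := two_roots _ _ hA
    have h1 := flex2 (fx_lin hD h) hN hB0 u hu eu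
    have h2 := flex2 (fx_lin hD h) hN hB0 v hv ev
    have hd : (64 * (1 + m ^ 3) ^ 2 : ℂ) ≠ 0 := mul_ne_zero (by norm_num) (pow_ne_zero 2 hD)
    have h3 : (4 * q.q1 + m ^ 2 * (q.q2 + q.q3 + 2 * q.q23) + 4 * m * (q.q12 + q.q13)) /
        (64 * (1 + m ^ 3) ^ 2) = 0 := by
      have h4 : (u - v) * ((4 * q.q1 + m ^ 2 * (q.q2 + q.q3 + 2 * q.q23) +
          4 * m * (q.q12 + q.q13)) / (64 * (1 + m ^ 3) ^ 2)) = 0 := by
        linear_combination h1 - h2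
      rcases mul_eq_zero.1 h4 with h5 | h5
      · exact absurd (sub_eq_zero.1 h5) huv
      · exact h5
    rw [h3, mul_zero, zero_add] at h1
    exact ⟨(div_eq_zero_iff.1 h3).resolve_right hd, (div_eq_zero_iff.1 h1).resolve_right hd⟩

end Pool.Agent.CLA
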