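import Pool.Agent.CLA.Lin

/-!
# CLA / HesF: the Hesse form at the flex `(0, 1, -1)`

`x = (Y - Z)/2`, `y = (4 + n) X + 3 m^2 (Y + Z)`, `z = 3 (Y + Z) - 3 m X`, `n = m^3`, `D = 1 + n ≠ 0`.  Inverse:
`X = (y - m^2 z)/(4 D)`, `Y = q' + x`, `Z = q' - x`, `q' = (3 m y + (4 + n) z)/(24 D)`.

PROOFS.
* `fx_lin`: `Lin4.of_span` with the inverse formulas.
* `hes_wei`: an identity (in terms of `p = X`, `q' = (Y + Z)/2`, `x`:
  `hes = p^3 + 2 q'^3 + 3 m p q'^2 + x^2 (6 q' - 3 m p)` and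
  `64 D^2 (p^3 + 2 q'^3 + 3 m p q'^2) = y^3 + m (8-n)/3 y z^2 + 2/27 (8-20n-n^2) z^3`).
* `hes_disc`: `4 ε^3 + 27 a ζ^2 = 1 / (64 * 432 * D^3)`-like: with `u = m (8-n)`, `v = 8 - 20 n - n^2`:
  `u^3 + v^2 = 64 D^3` and `4 ε^3 + 27 a ζ^2 = 4 u^3/(192 D^2)^3 + 27 v^2/(64 D^2 (864 D^2)^2)
  = 4 (u^3 + v^2)/(192^3 D^6)` (`192^3 * 27 = 4 * 64 * 864^2`).
* `q_wei`, `r_wei`: substitute the inverse formulas and compare; the remaining coefficients are found by expanding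
  (`q.ev = x^2 (q2+q3-2q23) + 2 x ((q2-q3) q' + (q12-q13) p) + (q1 p^2 + (q2+q3+2q23) q'^2 + 2 (q12+q13) p q')`;
  odd part of `r.ev` in `x`: `fr x^3 + x (fa p^2 + 2 fb p q' + fc q'^2)`; even part: `x^2 * linear + cubic in p, q'`).
-/

set_option autoImplicit false

namespace Pool.Agent.CLA

open MvPolynomial Pool.Agent.CLU

variable {X Y Z W : S} {m : ℂ}

theorem fx_lin (hD : 1 + m ^ 3 ≠ 0) (h : Lin4 X Y Z W) :
    Lin4 (fx Y Z) (fy m X Y Z) (fz m X Y Z) W := by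
  have h1 : (fx Y Z).IsHomogeneous 1 := by
    have h0 := h.hom_comb 0 (1 / 2) (-(1 / 2)) 0
    have e : C 0 * X + C (1 / 2) * Y + C (-(1 / 2)) * Z + C 0 * W = fx Y Z := by
      unfold fx
      rw [C_0, map_neg C]
      ring
    rwa [e] at h0
  have h2 : (fy m X Y Z).IsHomogeneous 1 := by
    have h0 := h.hom_comb (4 + m ^ 3) (3 * m ^ 2) (3 * m ^ 2) 0
    have e : C (4 + m ^ 3) * X + C (3 * m ^ 2) * Y + C (3 * m ^ 2) * Z + C 0 * W =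
        fy m X Y Z := by
      unfold fy
      rw [C_0]
      ring
    rwa [e] at h0
  have h3 : (fz m X Y Z).IsHomogeneous 1 := by
    have h0 := h.hom_comb (-(3 * m)) 3 3 0
    have e : C (-(3 * m)) * X + C 3 * Y + C 3 * Z + C 0 * W = fz m X Y Z := by
      unfold fz
      rw [C_0, map_neg C]
      ring
    rwa [e] at h0
  refine h.of_span h1 h2 h3 h.hom.2.2.2
    ![![0, 1 / (4 * (1 + m ^ 3)), -(m ^ 2 / (4 * (1 + m ^ 3))), 0],
      ![1, 3 * m / (24 * (1 + m ^ 3)), (4 + m ^ 3) / (24 * (1 + m ^ 3)), 0],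
      ![-1, 3 * m / (24 * (1 + m ^ 3)), (4 + m ^ 3) / (24 * (1 + m ^ 3)), 0],
      ![0, 0, 0, 1]] ?_
  intro i
  apply MvPolynomial.funext
  intro p
  fin_cases i <;>
    simp only [fx, fy, fz, Fin.zero_eta, Fin.isValue, Fin.mk_one, Fin.reduceFinMk,
      Matrix.cons_val_zero, Matrix.cons_val_one, Matrix.cons_val, map_add, map_sub, map_mul,
      eval_C]
  · field_simp
    ring
  · field_simp
    ring
  · field_simp
    ring
  · ring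

theorem hes_wei (hD : 1 + m ^ 3 ≠ 0) (X Y Z : S) :
    hes m X Y Z = wei (1 / (64 * (1 + m ^ 3) ^ 2)) (m * (8 - m ^ 3) / (192 * (1 + m ^ 3) ^ 2))
      ((8 - 20 * m ^ 3 - m ^ 6) / (864 * (1 + m ^ 3) ^ 2)) (fx Y Z) (fy m X Y Z) (fz m X Y Z) := by
  apply MvPolynomial.funext
  intro p
  simp only [hes, wei, fx, fy, fz, map_add, map_sub, map_mul, map_pow, eval_C]
  field_simp
  ring

theorem hes_disc (hD : 1 + m ^ 3 ≠ 0) :
    4 * (m * (8 - m ^ 3) / (192 * (1 + m ^ 3) ^ 2)) ^ 3 + 27 * (1 / (64 * (1 + m ^ 3) ^ 2)) *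
      ((8 - 20 * m ^ 3 - m ^ 6) / (864 * (1 + m ^ 3) ^ 2)) ^ 2 ≠ 0 := by
  have e : 4 * (m * (8 - m ^ 3) / (192 * (1 + m ^ 3) ^ 2)) ^ 3 +
      27 * (1 / (64 * (1 + m ^ 3) ^ 2)) *
        ((8 - 20 * m ^ 3 - m ^ 6) / (864 * (1 + m ^ 3) ^ 2)) ^ 2 =
      1 / (27648 * (1 + m ^ 3) ^ 3) := by
    field_simp
    ring
  rw [e]
  exact one_div_ne_zero (mul_ne_zero (by norm_num) (pow_ne_zero 3 hD))

end Pool.Agent.CLA
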