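import Pool.Agent.CLA.Defs

/-!
# CLA / LemA: the algebra for LemL

PROOFS.
* `lem_alg`: pure algebra.  For `i : Fin 3` write `(A i, B i, C i) = g_i (dA, dB, dC) + s_i (eA, eB, eC)` with `s_i = 0`, or
  `g_i = 0` and `R i = 0`, in which case `s_i eC = C i = 4 δ`.  Sum over `i`, `G = ∑ g_i`, `T = ∑ s_i`:
  `G dA + T eA = 0`, `G dB + T eB = 0`, `G dC + T eC = 9 δ`, and `T eC = 4 j δ`, `j` the number of `i` with `s_i`-type,
  `j = 0, 1, 2, 3`.  Identity: `eA dB - eB dA = -3 m^3 (m^3-8)^2 (7 m^3+16)`, so `T * (that) = 0`.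
  If `7 m^3 + 16 ≠ 0`: `T = 0`, then `G dA = G dB = 0`, and `dA, dB` are not both `0` (`80+52n-n^2 = 0` and
  `64+20n+10n^2 = 0` give `n = -8/5`, contradiction), so `G = 0`, `9 δ = 0`.
  If `7 m^3 = -16`: from `G dA = - T eA` and `9 δ = G dC + T eC`: `9 δ dA = T (eC dA - eA dC)`; with `n = -16/7`:
  `dA = -m^2 (80+52n-n^2) = m^2 2160/49`, `eA = - m^2 180/7`, `dC = -22464/49`, `eC = -2448/49`; so
  `eA dC = -(91/17) eC dA`, `9 δ = T eC (1 + 91/17) = 4 j δ 108/17`, `δ (153 - 432 j) = 0`, `δ = 0`.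
* `lemL`: apply `hRho` to `HP.tw` for `t = 1, w, w^2`: `A i = t b12 - t^2 b13`, `B i = t^2 b21 - t b31`,
  `C i = 3 δ + (t b23 - t^2 b32)`, `R i = δ - (t b23 - t^2 b32)`, `δ = a2 - a3`; the sums over the three cube roots of unity
  are `0, 0, 9 δ`, and `C i + R i = 4 δ`.
* `lemL3`: `lemL` for `HP.cyc`, `HP.cyc.cyc`.
-/

set_option autoImplicit false

namespace Pool.Agent.CLA

open MvPolynomial Pool.Agent.CLU

theorem lem_alg {m δ : ℂ} (hG : Gen m) (A B Cc R : Fin 3 → ℂ) (hA : A 0 + A 1 + A 2 = 0)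
    (hB : B 0 + B 1 + B 2 = 0) (hC : Cc 0 + Cc 1 + Cc 2 = 9 * δ) (hR : ∀ i, Cc i + R i = 4 * δ)
    (h : ∀ i, (∃ g, A i = g * dA m ∧ B i = g * dB m ∧ Cc i = g * dC m) ∨
      (R i = 0 ∧ ∃ g, A i = g * eA m ∧ B i = g * eB m ∧ Cc i = g * eC m)) : δ = 0 := by
  obtain ⟨hm, h8, -⟩ := hG
  have key : ∀ i, ∃ (g s j : ℂ), (j = 0 ∨ j = 1) ∧ A i = g * dA m + s * eA m ∧
      B i = g * dB m + s * eB m ∧ Cc i = g * dC m + s * eC m ∧ s * eC m = 4 * j * δ := by
    intro i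
    rcases h i with ⟨g, h1, h2, h3⟩ | ⟨h0, g, h1, h2, h3⟩
    · exact ⟨g, 0, 0, Or.inl rfl, by rw [h1]; ring, by rw [h2]; ring, by rw [h3]; ring, by ring⟩
    · refine ⟨0, g, 1, Or.inr rfl, by rw [h1]; ring, by rw [h2]; ring, by rw [h3]; ring, ?_⟩
      have h4 := hR i
      rw [h0, add_zero, h3] at h4
      rw [h4]
      ring
  obtain ⟨g0, s0, j0, hj0, a0, b0, c0, e0⟩ := key 0
  obtain ⟨g1, s1, j1, hj1, a1, b1, c1, e1⟩ := key 1
  obtain ⟨g2, s2, j2, hj2, a2, b2, c2, e2⟩ := key 2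
  obtain ⟨G, hGd⟩ : ∃ G, G = g0 + g1 + g2 := ⟨_, rfl⟩
  obtain ⟨T, hTd⟩ : ∃ T, T = s0 + s1 + s2 := ⟨_, rfl⟩
  obtain ⟨J, hJd⟩ : ∃ J, J = j0 + j1 + j2 := ⟨_, rfl⟩
  have hA' : G * dA m + T * eA m = 0 := by
    rw [← hA, a0, a1, a2, hGd, hTd]
    ring
  have hB' : G * dB m + T * eB m = 0 := by
    rw [← hB, b0, b1, b2, hGd, hTd]
    ring
  have hC' : G * dC m + T * eC m = 9 * δ := by
    rw [← hC, c0, c1, c2, hGd, hTd]
    ring
  have hJ' : T * eC m = 4 * J * δ := by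
    rw [hTd, hJd]
    linear_combination e0 + e1 + e2
  have hJ : J = 0 ∨ J = 1 ∨ J = 2 ∨ J = 3 := by
    rw [hJd]
    rcases hj0 with rfl | rfl <;> rcases hj1 with rfl | rfl <;> rcases hj2 with rfl | rfl <;> norm_num
  have hA2 : G * (80 + 52 * m ^ 3 - m ^ 6) + T * (m ^ 3 + 28) = 0 := by
    have h1 : m ^ 2 * (G * (80 + 52 * m ^ 3 - m ^ 6) + T * (m ^ 3 + 28)) = 0 := by
      unfold dA eA at hA'
      linear_combination -hA'
    exact (mul_eq_zero.1 h1).resolve_left (pow_ne_zero 2 hm)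
  have hB2 : G * (64 + 20 * m ^ 3 + 10 * m ^ 6) + T * (11 * m ^ 3 - 16) = 0 := by
    have h1 : m * (G * (64 + 20 * m ^ 3 + 10 * m ^ 6) + T * (11 * m ^ 3 - 16)) = 0 := by
      unfold dB eB at hB'
      linear_combination hB'
    exact (mul_eq_zero.1 h1).resolve_left hm
  by_cases h7 : 7 * m ^ 3 + 16 = 0
  · have hn : m ^ 3 = -16 / 7 := by linear_combination h7 / 7
    have hn6 : m ^ 6 = 256 / 49 := by
      calc m ^ 6 = (m ^ 3) ^ 2 := by ring
        _ = 256 / 49 := by rw [hn]; norm_num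
    have hGT : G = 7 / 12 * T := by
      rw [hn, hn6] at hA2
      linear_combination (-49 / 2160) * hA2
    unfold dC eC at hC'
    unfold eC at hJ'
    rw [hn, hn6] at hC' hJ'
    rw [hGT] at hC'
    have hT' : T * (-15552 / 49) = 9 * δ := by linear_combination hC'
    have hfin : (153 - 432 * J) * δ = 0 := by
      linear_combination (-17) * hT' + (17 * 15552 / 2448) * hJ'
    rcases mul_eq_zero.1 hfin with h9 | h9
    · exfalso
      rcases hJ with rfl | rfl | rfl | rfl <;> norm_num at h9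
    · exact h9
  · have hT0 : T = 0 := by
      have h1 : T * (m ^ 3 * ((m ^ 3 - 8) ^ 2 * (7 * m ^ 3 + 16))) = 0 := by
        unfold dA eA at hA'
        unfold dB eB at hB'
        linear_combination (-1 / 3) * (m * (64 + 20 * m ^ 3 + 10 * m ^ 6)) * hA' -
          (1 / 3) * (m ^ 2 * (80 + 52 * m ^ 3 - m ^ 6)) * hB'
      exact (mul_eq_zero.1 h1).resolve_right (mul_ne_zero (pow_ne_zero 3 hm)
        (mul_ne_zero (pow_ne_zero 2 (sub_ne_zero.2 h8)) h7))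
    rw [hT0, zero_mul, add_zero] at hA2 hB2 hC'
    have hG0 : G = 0 := by
      by_contra hG
      have h1 := (mul_eq_zero.1 hA2).resolve_left hG
      have h2 := (mul_eq_zero.1 hB2).resolve_left hG
      have h3 : m ^ 3 = -8 / 5 := by linear_combination (10 * h1 + h2) / 540
      have h4 : m ^ 6 = 64 / 25 := by
        calc m ^ 6 = (m ^ 3) ^ 2 := by ring
          _ = 64 / 25 := by rw [h3]; norm_num
      rw [h3, h4] at h2
      norm_num at h2
    rw [hG0, zero_mul] at hC'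
    exact (mul_eq_zero.1 hC'.symm).resolve_left (by norm_num)

end Pool.Agent.CLA
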