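import Pool.Agent.CLA.Defs
import Pool.Agent.CLU.LinQ
import Pool.Agent.CLU.Coord

/-!
# CLA / Lin: four linearly independent linear forms

PROOFS.
* `Lin4.hom`: definition.  `hom_comb`: `IsHomogeneous.add`, `isHomogeneous_C_mul`, ...
* `Lin4.of_span`: the four old forms are linearly independent and lie in the span of the four new ones, so the span
  of the new ones has dimension `4` (`finrank_span_eq_card`, or `linearIndependent_of_top_le_span_of_card_eq_finrank`
  inside the span; or directly: if `∑ c_i l'_i = 0` then ... the matrix `M` is injective on rows: from a vanishing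
  combination `∑ c_j l'_j = 0` with `c ≠ 0` all the old forms lie in the span of three of the new ones).
* `exists_dual`: `CLU/LinQ.exists_lf` (`l_i = lf (c_i)`), the vectors `c_i` are independent (`li_lf`), so the matrix
  with the rows `c_i` is invertible; `p_i` = columns of the inverse; `eval_lf`.
* `exists_subst`: from `CLU/Coord.exists_inverse` : `aeval l' (aeval l F) = F` and `aeval l (aeval l' F) = F`.
* `Lin4.ne`, `eval_zero_of`: consequences of `exists_dual` (`eval p` of a linear form is linear in `p`; a point where all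
  four forms vanish is `0`).
-/

set_option autoImplicit false

namespace Pool.Agent.CLA

open MvPolynomial Pool.Agent.CLU

private theorem hom_Cm {F : S} (a : ℂ) (hF : F.IsHomogeneous 1) : (C a * F).IsHomogeneous 1 := by
  have := (isHomogeneous_C (Fin 4) a).mul hF
  rwa [zero_add] at this

theorem Lin4.hom {x y z w : S} (h : Lin4 x y z w) :
    x.IsHomogeneous 1 ∧ y.IsHomogeneous 1 ∧ z.IsHomogeneous 1 ∧ w.IsHomogeneous 1 := by
  exact ⟨h.1 0, h.1 1, h.1 2, h.1 3⟩

theorem Lin4.hom_comb {x y z w : S} (h : Lin4 x y z w) (a b c d : ℂ) :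
    (C a * x + C b * y + C c * z + C d * w).IsHomogeneous 1 := by
  obtain ⟨hx, hy, hz, hw⟩ := h.hom
  exact (((hom_Cm a hx).add (hom_Cm b hy)).add (hom_Cm c hz)).add (hom_Cm d hw)

/-- New coordinates: the old ones are combinations of the new ones. -/
theorem Lin4.of_span {x y z w x' y' z' w' : S} (h : Lin4 x y z w)
    (h1 : x'.IsHomogeneous 1) (h2 : y'.IsHomogeneous 1) (h3 : z'.IsHomogeneous 1)
    (h4 : w'.IsHomogeneous 1) (M : Fin 4 → Fin 4 → ℂ)
    (e : ∀ i, ![x, y, z, w] i =
      C (M i 0) * x' + C (M i 1) * y' + C (M i 2) * z' + C (M i 3) * w') :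
    Lin4 x' y' z' w' := by
  have hh : ∀ i, (![x', y', z', w'] i).IsHomogeneous 1 := by
    intro i; fin_cases i
    · exact h1
    · exact h2
    · exact h3
    · exact h4
  refine ⟨hh, ?_⟩
  obtain ⟨A, hA, hlA⟩ := exists_matrix ![x, y, z, w] h.1 h.2
  choose c hc using fun i => exists_lf (![x', y', z', w'] i) (hh i)
  have hA' : ∀ i, ![x, y, z, w] i = lf (A i) := by
    intro i; rw [hlA i, lf_apply]
  have hAM : A = Matrix.of M * Matrix.of c := by
    funext i
    apply lf_inj
    rw [← hA' i, e i]
    have hx : x' = lf (c 0) := hc 0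
    have hy : y' = lf (c 1) := hc 1
    have hz : z' = lf (c 2) := hc 2
    have hw : w' = lf (c 3) := hc 3
    have e1 : (Matrix.of M * Matrix.of c) i =
        M i 0 • c 0 + M i 1 • c 1 + M i 2 • c 2 + M i 3 • c 3 := by
      funext j
      simp [Matrix.mul_apply, Fin.sum_univ_four]
    rw [e1, map_add, map_add, map_add, map_smul, map_smul, map_smul, map_smul, ← hx, ← hy, ← hz,
      ← hw]
    simp only [MvPolynomial.smul_eq_C_mul]
  have hdet : IsUnit (Matrix.of c).det := by
    rw [hAM, Matrix.det_mul] at hA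
    exact isUnit_of_mul_isUnit_right hA
  have hli : LinearIndependent ℂ (Matrix.of c).row := by
    rw [Matrix.linearIndependent_rows_iff_isUnit, Matrix.isUnit_iff_isUnit_det]
    exact hdet
  have hli2 : LinearIndependent ℂ (fun i => lf (c i)) := (li_lf c).2 hli
  have e2 : ![x', y', z', w'] = fun i => lf (c i) := funext hc
  rw [e2]
  exact hli2

/-- Dual points. -/
theorem Lin4.exists_dual {x y z w : S} (h : Lin4 x y z w) :
    ∃ p : Fin 4 → Fin 4 → ℂ, (∀ i j, eval (p i) (![x, y, z, w] j) = if i = j then 1 else 0) ∧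
      ∀ (v : Fin 4 → ℂ), v = fun k => ∑ i, eval v (![x, y, z, w] i) * p i k := by
  obtain ⟨A, hA, hlA⟩ := exists_matrix ![x, y, z, w] h.1 h.2
  have h1 : A * A⁻¹ = 1 := Matrix.mul_nonsing_inv A hA
  have h2 : A⁻¹ * A = 1 := Matrix.nonsing_inv_mul A hA
  have ev : ∀ (v : Fin 4 → ℂ) i, eval v (![x, y, z, w] i) = ∑ j, A i j * v j := by
    intro v i
    rw [hlA i, map_sum]
    refine Finset.sum_congr rfl fun j _ => ?_
    simp
  refine ⟨fun i k => A⁻¹ k i, ?_, ?_⟩
  · intro i j
    rw [ev]
    have h3 := congrFun (congrFun h1 j) i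
    rw [Matrix.mul_apply] at h3
    rw [h3, Matrix.one_apply]
    simp only [eq_comm]
  · intro v
    funext k
    have h3 : (A⁻¹ * A) k = (1 : Matrix (Fin 4) (Fin 4) ℂ) k := congrFun h2 k
    have h4 : (Matrix.mulVec (A⁻¹ * A) v) k = v k := by rw [h2, Matrix.one_mulVec]
    rw [← Matrix.mulVec_mulVec] at h4
    rw [← h4]
    simp only [Matrix.mulVec, dotProduct, ev]
    refine Finset.sum_congr rfl fun i _ => ?_
    ring

/-- A point with given coordinates. -/
theorem Lin4.exists_point {x y z w : S} (h : Lin4 x y z w) (a b c d : ℂ) :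
    ∃ p : Fin 4 → ℂ, eval p x = a ∧ eval p y = b ∧ eval p z = c ∧ eval p w = d := by
  obtain ⟨p, hp, -⟩ := h.exists_dual
  have hom := h.hom
  have key : ∀ j : Fin 4, eval (fun k => a * p 0 k + b * p 1 k + c * p 2 k + d * p 3 k)
      (![x, y, z, w] j) = a * eval (p 0) (![x, y, z, w] j) + b * eval (p 1) (![x, y, z, w] j) +
        c * eval (p 2) (![x, y, z, w] j) + d * eval (p 3) (![x, y, z, w] j) := by
    intro j
    obtain ⟨φ, hφ⟩ := exists_functional (![x, y, z, w] j) (h.1 j)
    have e1 : (fun k => a * p 0 k + b * p 1 k + c * p 2 k + d * p 3 k) =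
        a • p 0 + b • p 1 + c • p 2 + d • p 3 := by
      funext k; simp
    rw [e1, hφ, hφ, hφ, hφ, hφ, map_add, map_add, map_add, map_smul, map_smul, map_smul, map_smul]
    simp only [smul_eq_mul]
  refine ⟨fun k => a * p 0 k + b * p 1 k + c * p 2 k + d * p 3 k, ?_, ?_, ?_, ?_⟩
  · have := key 0
    rw [hp, hp, hp, hp] at this
    simpa using this
  · have := key 1
    rw [hp, hp, hp, hp] at this
    simpa using this
  · have := key 2
    rw [hp, hp, hp, hp] at this
    simpa using this
  · have := key 3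
    rw [hp, hp, hp, hp] at this
    simpa using this

/-- A point with coordinates zero is zero. -/
theorem Lin4.eq_zero {x y z w : S} (h : Lin4 x y z w) (p : Fin 4 → ℂ) (hx : eval p x = 0)
    (hy : eval p y = 0) (hz : eval p z = 0) (hw : eval p w = 0) : p = 0 := by
  obtain ⟨q, -, hq⟩ := h.exists_dual
  rw [hq p]
  funext k
  simp [Fin.sum_univ_four, hx, hy, hz, hw]

end Pool.Agent.CLA
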