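import Pool.Agent.CLA.Lin
import Pool.Agent.CLA.InF

/-!
# CLA / Node: quartics with a triple point whose tangent cone has an ordinary node

PROOF of `node`.  `Q = a u^2 + b u v + c v^2` with `b^2 - 4 a c ≠ 0` is a product of two independent linear forms in
`u, v`: if `a ≠ 0` let `δ^2 = b^2 - 4 a c` and `l0 = a u + (b - δ)/2 v`, `l1 = u + (b + δ)/(2a) v` (`l0 l1 = Q`,
determinant `δ ≠ 0`); if `a = 0` then `b ≠ 0`, `l0 = v`, `l1 = b u + c v`.  `u, v` are combinations of `l0, l1`, so the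
cubic `g0 u^3 + ...` is `aeval ![l0, l1] g` with a binary cubic form `g`, and `R` is a quartic form in `l0, l1, s`
(`InF.change`).  So in the definition of `NodalQuartic` take `l 0 = l0`, `l 1 = l1`, `l 2 = x`, `l 3 = s`:
`x (s l0 l1 + g(l0, l1)) + h(l0, l1, s)`; linear independence: `Lin4.of_span` and a permutation of the four forms.
-/

set_option autoImplicit false

namespace Pool.Agent.CLA

open MvPolynomial Pool.Agent.CLU

private theorem node_core {x u v s : S} (h : Lin4 x u v s) (p0 q0 p1 q1 D : ℂ)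
    (hD : D * (p0 * q1 - q0 * p1) = 1) (g0 g1 g2 g3 : ℂ) (R : S) (hR : InF 4 u v s R) :
    NodalQuartic (x * (s * ((C p0 * u + C q0 * v) * (C p1 * u + C q1 * v)) +
      (C g0 * u ^ 3 + C g1 * (u ^ 2 * v) + C g2 * (u * v ^ 2) + C g3 * v ^ 3)) + R) := by
  obtain ⟨hx, hu, hv, hs⟩ := h.hom
  have hDC : C D * (C p0 * C q1 - C q0 * C p1) = (1 : S) := by
    rw [← C_mul, ← C_mul, ← C_sub, ← C_mul, hD, C_1]
  have e0 : u = C (D * q1) * (C p0 * u + C q0 * v) + C (-(D * q0)) * (C p1 * u + C q1 * v) := by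
    simp only [C_mul, C_neg]
    linear_combination (-u) * hDC
  have e1 : v = C (-(D * p1)) * (C p0 * u + C q0 * v) + C (D * p0) * (C p1 * u + C q1 * v) := by
    simp only [C_mul, C_neg]
    linear_combination (-v) * hDC
  have hl0 : (C p0 * u + C q0 * v).IsHomogeneous 1 := (hu.C_mul _).add (hv.C_mul _)
  have hl1 : (C p1 * u + C q1 * v).IsHomogeneous 1 := (hu.C_mul _).add (hv.C_mul _)
  generalize hL0 : C p0 * u + C q0 * v = l0 at *
  generalize hL1 : C p1 * u + C q1 * v = l1 at *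
  have hL : Lin4 l0 l1 x s := by
    refine Lin4.of_span h hl0 hl1 hx hs
      ![![0, 0, 1, 0], ![D * q1, -(D * q0), 0, 0], ![-(D * p1), D * p0, 0, 0], ![0, 0, 0, 1]] ?_
    intro i
    fin_cases i
    · simp
    · simpa using e0
    · simpa using e1
    · simp
  have hR' : InF 4 l0 l1 s R := by
    refine InF.change ?_ ?_ (InF.v2 l0 l1 s) hR
    · have := InF.lin l0 l1 s (D * q1) (-(D * q0)) 0
      rwa [C_0, zero_mul, add_zero, ← e0] at this
    · have := InF.lin l0 l1 s (-(D * p1)) (D * p0) 0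
      rwa [C_0, zero_mul, add_zero, ← e1] at this
  obtain ⟨H, hH, eH⟩ := hR'
  have hU : (C (D * q1) * X 0 + C (-(D * q0)) * X 1 : MvPolynomial (Fin 2) ℂ).IsHomogeneous 1 :=
    ((isHomogeneous_X _ _).C_mul _).add ((isHomogeneous_X _ _).C_mul _)
  have hV : (C (-(D * p1)) * X 0 + C (D * p0) * X 1 : MvPolynomial (Fin 2) ℂ).IsHomogeneous 1 :=
    ((isHomogeneous_X _ _).C_mul _).add ((isHomogeneous_X _ _).C_mul _)
  have aU : aeval ![l0, l1] (C (D * q1) * X 0 + C (-(D * q0)) * X 1 : MvPolynomial (Fin 2) ℂ)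
      = u := by
    rw [e0]
    simp [MvPolynomial.algebraMap_eq]
  have aV : aeval ![l0, l1] (C (-(D * p1)) * X 0 + C (D * p0) * X 1 : MvPolynomial (Fin 2) ℂ)
      = v := by
    rw [e1]
    simp [MvPolynomial.algebraMap_eq]
  generalize (C (D * q1) * X 0 + C (-(D * q0)) * X 1 : MvPolynomial (Fin 2) ℂ) = U at *
  generalize (C (-(D * p1)) * X 0 + C (D * p0) * X 1 : MvPolynomial (Fin 2) ℂ) = V at *
  refine ⟨![l0, l1, x, s], C g0 * U ^ 3 + C g1 * (U ^ 2 * V) + C g2 * (U * V ^ 2) + C g3 * V ^ 3,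
    H, hL.1, hL.2, ?_, hH, ?_⟩
  · refine IsHomogeneous.add (IsHomogeneous.add (IsHomogeneous.add ?_ ?_) ?_) ?_
    · exact (hU.pow 3).C_mul _
    · exact ((hU.pow 2).mul hV).C_mul _
    · exact (hU.mul (hV.pow 2)).C_mul _
    · exact (hV.pow 3).C_mul _
  · simp only [Matrix.cons_val_zero, Matrix.cons_val_one, Matrix.cons_val]
    rw [eH]
    simp only [map_add, map_mul, map_pow, aU, aV, aeval_C, MvPolynomial.algebraMap_eq]
    ring

theorem node {x u v s : S} (h : Lin4 x u v s) (a b c : ℂ) (hd : b ^ 2 - 4 * a * c ≠ 0)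
    (g0 g1 g2 g3 : ℂ) (R : S) (hR : InF 4 u v s R) :
    NodalQuartic (x * (s * (C a * u ^ 2 + C b * (u * v) + C c * v ^ 2) +
      (C g0 * u ^ 3 + C g1 * (u ^ 2 * v) + C g2 * (u * v ^ 2) + C g3 * v ^ 3)) + R) := by
  by_cases ha : a = 0
  · subst ha
    have hb : b ≠ 0 := by
      rintro rfl
      exact hd (by ring)
    have key := node_core h 0 1 b c (-b⁻¹) (by field_simp; ring) g0 g1 g2 g3 R hR
    convert key using 4
    simp only [C_0, C_1]
    ring
  · obtain ⟨δ, hδ⟩ := IsAlgClosed.exists_pow_nat_eq (b ^ 2 - 4 * a * c) (n := 2) (by norm_num)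
    have hδ0 : δ ≠ 0 := by
      rintro rfl
      exact hd (by rw [← hδ]; ring)
    have key := node_core h a ((b - δ) / 2) 1 ((b + δ) / (2 * a)) δ⁻¹
      (by field_simp; ring) g0 g1 g2 g3 R hR
    convert key using 4
    have h1 : a * ((b + δ) / (2 * a)) + (b - δ) / 2 = b := by field_simp; ring
    have h2 : (b - δ) / 2 * ((b + δ) / (2 * a)) = c := by
      field_simp
      linear_combination -hδ
    have h1' := congrArg (C : ℂ → S) h1
    have h2' := congrArg (C : ℂ → S) h2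
    simp only [C_add, C_mul] at h1' h2'
    simp only [C_1]
    linear_combination (-(s * u * v)) * h1' - s * v ^ 2 * h2'

end Pool.Agent.CLA
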