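import Pool.Agent.CLA.Node

/-!
# CLA / NodeC: three cases of the node lemma

PROOFS.
* `node1`: `node` with `u = y, v = z, s = w`, `a = 0`, quadratic form `b y z + e z^2`, discriminant `b^2`.
* `node2`: put `y = y' + η z`; by the hypotheses `g0 y^3 + g1 y^2 z + g2 y z^2 + g3 z^3 = g0 y'^3 + g' y'^2 z` with
  `g' = 3 g0 η + g1 ≠ 0`.  So `T = z (s0 w^2 - g' y'^2) - g0 y'^3`: `node` with `u = w, v = y', s = z`, quadratic form
  `s0 u^2 - g' v^2`, discriminant `4 s0 g' ≠ 0`, cubic `- g0 v^3`.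
* `node3`: choose `κ` with `s0 κ^2 + t0 = 0` (`κ ≠ 0`), `w = w' + κ y`.  Then
  `z (s0 w^2 + t0 y^2 + z (α w + β y + γ z)) = y (2 s0 κ z w' + (α κ + β) z^2) + s0 z w'^2 + α z^2 w' + γ z^3`:
  `node` with `u = z, v = w', s = y`, discriminant `(2 s0 κ)^2`.
In all cases `R` is a quartic form in the new coordinates by `InF.change`.
-/

set_option autoImplicit false

namespace Pool.Agent.CLA

open MvPolynomial Pool.Agent.CLU

theorem node1 {x y z w : S} (h : Lin4 x y z w) (b e : ℂ) (hb : b ≠ 0) (g0 g1 g2 g3 : ℂ) (R : S)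
    (hR : InF 4 y z w R) :
    NodalQuartic (x * (w * z * (C b * y + C e * z) +
      (C g0 * y ^ 3 + C g1 * (y ^ 2 * z) + C g2 * (y * z ^ 2) + C g3 * z ^ 3)) + R) := by
  have hd : b ^ 2 - 4 * 0 * e ≠ 0 := by
    simpa using hb
  have h1 := node h 0 b e hd g0 g1 g2 g3 R hR
  have e1 : x * (w * (C 0 * y ^ 2 + C b * (y * z) + C e * z ^ 2) +
      (C g0 * y ^ 3 + C g1 * (y ^ 2 * z) + C g2 * (y * z ^ 2) + C g3 * z ^ 3)) + R =
      x * (w * z * (C b * y + C e * z) +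
      (C g0 * y ^ 3 + C g1 * (y ^ 2 * z) + C g2 * (y * z ^ 2) + C g3 * z ^ 3)) + R := by
    rw [C_0]; ring
  rw [e1] at h1
  exact h1

theorem node2 {x y z w : S} (h : Lin4 x y z w) (s0 g0 g1 g2 g3 η : ℂ) (hs : s0 ≠ 0)
    (h1 : g0 * η ^ 3 + g1 * η ^ 2 + g2 * η + g3 = 0) (h2 : 3 * g0 * η ^ 2 + 2 * g1 * η + g2 = 0)
    (h3 : 3 * g0 * η + g1 ≠ 0) (R : S) (hR : InF 4 y z w R) :
    NodalQuartic (x * (C s0 * (z * w ^ 2) -
      (C g0 * y ^ 3 + C g1 * (y ^ 2 * z) + C g2 * (y * z ^ 2) + C g3 * z ^ 3)) + R) := by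
  obtain ⟨hx, hy, hz, hw⟩ := h.hom
  have hy' : (C 0 * x + C 1 * y + C (-η) * z + C 0 * w : S).IsHomogeneous 1 :=
    h.hom_comb 0 1 (-η) 0
  obtain ⟨y', hyd⟩ : ∃ y' : S, y' = y - C η * z := ⟨_, rfl⟩
  have hyh : y'.IsHomogeneous 1 := by
    have e0 : y' = C 0 * x + C 1 * y + C (-η) * z + C 0 * w := by
      rw [hyd, C_0, C_1, C_neg]; ring
    rw [e0]; exact hy'
  have hyy : y = y' + C η * z := by rw [hyd]; ring
  have hL : Lin4 x w y' z := by
    refine h.of_span hx hw hyh hz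
      ![![1, 0, 0, 0], ![0, 0, 1, η], ![0, 0, 0, 1], ![0, 1, 0, 0]] ?_
    intro i
    fin_cases i
    · simp
    · simp [hyy]
    · simp
    · simp
  have hR' : InF 4 w y' z R := by
    refine InF.change ?_ ?_ ?_ hR
    · have h5 := InF.lin w y' z 0 1 η
      have e5 : (C 0 * w + C 1 * y' + C η * z : S) = y := by
        rw [hyy, C_0, C_1]; ring
      rw [e5] at h5
      exact h5
    · exact InF.v2 w y' z
    · exact InF.v0 w y' z
  have hd : (0 : ℂ) ^ 2 - 4 * s0 * (-(3 * g0 * η + g1)) ≠ 0 := by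
    have : (0 : ℂ) ^ 2 - 4 * s0 * (-(3 * g0 * η + g1)) = 4 * s0 * (3 * g0 * η + g1) := by ring
    rw [this]
    exact mul_ne_zero (mul_ne_zero (by norm_num) hs) h3
  have h6 := node hL s0 0 (-(3 * g0 * η + g1)) hd 0 0 0 (-g0) R hR'
  have c1 : (C g0 * C η ^ 3 + C g1 * C η ^ 2 + C g2 * C η + C g3 : S) = 0 := by
    have := congrArg (C : ℂ → S) h1
    simpa only [C_add, C_mul, C_pow, C_0] using this
  have c2 : (3 * C g0 * C η ^ 2 + 2 * C g1 * C η + C g2 : S) = 0 := by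
    have := congrArg (C : ℂ → S) h2
    have e3 : (C (3 * g0 * η ^ 2 + 2 * g1 * η + g2) : S) =
        3 * C g0 * C η ^ 2 + 2 * C g1 * C η + C g2 := by
      simp only [C_add, C_mul, C_pow]
      rfl
    rw [e3, C_0] at this
    exact this
  have e6 : x * (z * (C s0 * w ^ 2 + C 0 * (w * y') + C (-(3 * g0 * η + g1)) * y' ^ 2) +
      (C 0 * w ^ 3 + C 0 * (w ^ 2 * y') + C 0 * (w * y' ^ 2) + C (-g0) * y' ^ 3)) + R =
      x * (C s0 * (z * w ^ 2) -
      (C g0 * y ^ 3 + C g1 * (y ^ 2 * z) + C g2 * (y * z ^ 2) + C g3 * z ^ 3)) + R := by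
    have e3 : (C (-(3 * g0 * η + g1)) : S) = -(3 * C g0 * C η + C g1) := by
      simp only [C_neg, C_add, C_mul]
      rfl
    rw [e3, C_neg, C_0, hyy]
    linear_combination (x * z ^ 3) * c1 + (x * y' * z ^ 2) * c2
  rw [e6] at h6
  exact h6

theorem node3 {x y z w : S} (h : Lin4 x y z w) (s0 t0 α β γ : ℂ) (hs : s0 ≠ 0) (ht : t0 ≠ 0)
    (R : S) (hR : InF 4 y z w R) :
    NodalQuartic (x * (z * (C s0 * w ^ 2 + C t0 * y ^ 2 +
      z * (C α * w + C β * y + C γ * z))) + R) := by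
  obtain ⟨hx, hy, hz, hw⟩ := h.hom
  obtain ⟨κ, hκ⟩ : ∃ κ : ℂ, κ ^ 2 = -t0 / s0 := IsAlgClosed.exists_pow_nat_eq _ (by norm_num)
  have hk : s0 * κ ^ 2 + t0 = 0 := by
    rw [hκ]; field_simp; ring
  have hκ0 : κ ≠ 0 := by
    rintro rfl
    apply ht
    simpa using hk
  have hw' : (C 0 * x + C (-κ) * y + C 0 * z + C 1 * w : S).IsHomogeneous 1 :=
    h.hom_comb 0 (-κ) 0 1
  obtain ⟨w', hwd⟩ : ∃ w' : S, w' = w - C κ * y := ⟨_, rfl⟩
  have hwh : w'.IsHomogeneous 1 := by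
    have e0 : w' = C 0 * x + C (-κ) * y + C 0 * z + C 1 * w := by
      rw [hwd, C_0, C_1, C_neg]; ring
    rw [e0]; exact hw'
  have hww : w = w' + C κ * y := by rw [hwd]; ring
  have hL : Lin4 x z w' y := by
    refine h.of_span hx hz hwh hy
      ![![1, 0, 0, 0], ![0, 0, 0, 1], ![0, 1, 0, 0], ![0, 0, 1, κ]] ?_
    intro i
    fin_cases i
    · simp
    · simp
    · simp
    · simp [hww]
  have hR' : InF 4 z w' y R := by
    refine InF.change ?_ ?_ ?_ hR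
    · exact InF.v2 z w' y
    · exact InF.v0 z w' y
    · have h5 := InF.lin z w' y 0 1 κ
      have e5 : (C 0 * z + C 1 * w' + C κ * y : S) = w := by
        rw [hww, C_0, C_1]; ring
      rw [e5] at h5
      exact h5
  have hd : (2 * s0 * κ) ^ 2 - 4 * (α * κ + β) * 0 ≠ 0 := by
    have : (2 * s0 * κ) ^ 2 - 4 * (α * κ + β) * 0 = (2 * s0 * κ) ^ 2 := by ring
    rw [this]
    exact pow_ne_zero _ (mul_ne_zero (mul_ne_zero (by norm_num) hs) hκ0)
  have h6 := node hL (α * κ + β) (2 * s0 * κ) 0 hd γ α s0 0 R hR'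
  have c1 : (C s0 * C κ ^ 2 + C t0 : S) = 0 := by
    have := congrArg (C : ℂ → S) hk
    simpa only [C_add, C_mul, C_pow, C_0] using this
  have e6 : x * (y * (C (α * κ + β) * z ^ 2 + C (2 * s0 * κ) * (z * w') + C 0 * w' ^ 2) +
      (C γ * z ^ 3 + C α * (z ^ 2 * w') + C s0 * (z * w' ^ 2) + C 0 * w' ^ 3)) + R =
      x * (z * (C s0 * w ^ 2 + C t0 * y ^ 2 +
      z * (C α * w + C β * y + C γ * z))) + R := by
    have e3 : (C (2 * s0 * κ) : S) = 2 * C s0 * C κ := by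
      simp only [C_mul]
      rfl
    rw [e3, C_0, C_add, C_mul, hww]
    linear_combination (-(x * z * y ^ 2)) * c1
  rw [e6] at h6
  exact h6

end Pool.Agent.CLA
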