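import Pool.Agent.CLA.HesC
import Pool.Agent.CLA.Sym

/-!
# CLA / Qz: the quadratic form `q`

Apply `hB` and `hDich` to `HP.tw` (`t^3 = 1`) and `HP.cyc`.

PROOFS.
* `q_polar`: `hB` for `q.tw t`: `m (t^2 q2 - t q3) + 2 (t q12 - t^2 q13) = 0`, i.e.
  `t^2 (m q2 - 2 q13) + t (2 q12 - m q3) = 0`; for `t = 1` and `t = w` (a primitive cube root of unity, `exists_om`):
  both brackets vanish.  The third relation from `HP.cyc`.
* `dich_tw`: with `q` polar, `2 q23 = m q1`, `2 q13 = m q2`, `2 q12 = m q3`; `s = t^2 q2 + t q3`: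
  `hDich` for `q.tw t`, `r.tw t` says `(4 + m^3) q1 + 3 m^2 s = 0` (and a condition on `r`), or `s = m q1` and
  `(r.tw t).fr = 0`.
* `q_zero` (`Gen m`).  Let `s1, s2, s3` be the values of `s` for `t = 1, w, w^2`, sum `0`; each of them is `m q1` or
  `b q1` with `b = -(4+m^3)/(3 m^2)`.  Let `j` be the number of those of the first kind.  `j = 3`: `m q1 = 0`, `q1 = 0`, all
  `s = 0`, so `q2 = q3 = 0`.  `j = 0`: `b q1 = 0`, all `s = 0`, `q2 = q3 = 0`; then the same alternative for the cyclic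
  permutation (first coefficient `q2 = 0`) gives `t^2 q3 + t q1 = 0` for all `t`, so `q1 = 0`.  `j = 1`: `(m + 2 b) q1 = 0`,
  `3 m^2 (m + 2 b) = m^3 - 8 ≠ 0`, so `q1 = 0`, all `s = 0`, `q2 = q3 = 0`.  `j = 2`: `(2 m + b) q1 = 0`,
  `3 m^2 (2 m + b) = 5 m^3 - 4`; if `q1 = 0` again all are `0`.  So it remains `5 m^3 = 4`, `q1 ≠ 0`, and
  `(q2, q3) = - m q1 (t0, t0^2)` for some `t0^3 = 1` (the three values of `s` are `m q1 (1 - 3 δ)`), so `q2^3 = - m^3 q1^3`.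
  By cyclic permutation (`q2 ≠ 0` is its first coefficient) also `q3^3 = - m^3 q2^3`, `q1^3 = - m^3 q3^3`, so
  `(-m^3)^3 = 1`; but `m^3 = 4/5`: contradiction.
* `q_fermat` (`m = 0`): `q12 = q13 = q23 = 0` from `q_polar`; `dich_tw`: `4 q1 = 0` or `t^2 q2 + t q3 = 0`; so if `q1 ≠ 0` then
  `t q2 + q3 = 0` for all `t`, `q2 = q3 = 0`; cyclic.
-/

set_option autoImplicit false

namespace Pool.Agent.CLA

open MvPolynomial Pool.Agent.CLU

variable {m : ℂ} {q : Qf} {r : Cf}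

private theorem hB_HP (hD : 1 + m ^ 3 ≠ 0) (h : HP m q r) :
    m * (q.q2 - q.q3) + 2 * (q.q12 - q.q13) = 0 := by
  obtain ⟨X, Y, Z, W, hL, hP⟩ := h
  exact hB hD hL hP.nod

theorem q_polar (hD : 1 + m ^ 3 ≠ 0) (h : HP m q r) :
    2 * q.q13 = m * q.q2 ∧ 2 * q.q12 = m * q.q3 ∧ 2 * q.q23 = m * q.q1 := by
  obtain ⟨w, hw, hw3, hw1⟩ := exists_om
  have key : ∀ {q : Qf} {r : Cf}, HP m q r → 2 * q.q13 = m * q.q2 ∧ 2 * q.q12 = m * q.q3 := by
    intro q r h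
    have h1 := hB_HP hD (h.tw 1 (by norm_num))
    have h2 := hB_HP hD (h.tw w hw3)
    simp only [Qf.tw] at h1 h2
    have h3 : (w - 1) * (m * q.q2 - 2 * q.q13) = 0 := by
      linear_combination w ^ 2 * h2 - h1 - (m * w * q.q2 - m * q.q3 + 2 * q.q12 - 2 * w * q.q13) * hw3
    have h4 : m * q.q2 - 2 * q.q13 = 0 := (mul_eq_zero.1 h3).resolve_left (sub_ne_zero.2 hw1)
    exact ⟨by linear_combination -h4, by linear_combination h1 - h4⟩
  have h1 := key h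
  have h2 := key h.cyc
  simp only [Qf.cyc] at h2
  exact ⟨h1.1, h1.2, h2.2⟩

theorem dich_tw (hD : 1 + m ^ 3 ≠ 0) (h : HP m q r) (t : ℂ) (ht : t ^ 3 = 1) :
    ((4 + m ^ 3) * q.q1 + 3 * m ^ 2 * (t ^ 2 * q.q2 + t * q.q3) = 0 ∧
      4 * (r.tw t).fa + 4 * m * (r.tw t).fb + m ^ 2 * (r.tw t).fc = 0) ∨
    (t ^ 2 * q.q2 + t * q.q3 = m * q.q1 ∧ (r.tw t).fr = 0) := by
  obtain ⟨p1, p2, p3⟩ := q_polar hD h
  obtain ⟨X, Y, Z, W, hL, hP⟩ := h.tw t ht
  rcases hDich hD hL hP.nod with ⟨h1, h2⟩ | ⟨h1, h2⟩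
  · left
    refine ⟨?_, h2⟩
    simp only [Qf.tw] at h1
    linear_combination h1 - m ^ 2 * p3 - 2 * m * t * p2 - 2 * m * t ^ 2 * p1
  · right
    refine ⟨?_, h2⟩
    simp only [Qf.tw] at h1
    linear_combination h1 + p3

theorem q_fermat (h : HP 0 q r) : q.q12 = 0 ∧ q.q13 = 0 ∧ q.q23 = 0 ∧
    (q.q1 = 0 ∨ q.q2 = 0 ∧ q.q3 = 0) ∧ (q.q2 = 0 ∨ q.q3 = 0 ∧ q.q1 = 0) ∧
    (q.q3 = 0 ∨ q.q1 = 0 ∧ q.q2 = 0) := by
  have hD : (1 : ℂ) + 0 ^ 3 ≠ 0 := by norm_num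
  obtain ⟨p1, p2, p3⟩ := q_polar hD h
  have key : ∀ {q : Qf} {r : Cf}, HP 0 q r → q.q1 = 0 ∨ q.q2 = 0 ∧ q.q3 = 0 := by
    intro q r h
    by_cases h1 : q.q1 = 0
    · exact Or.inl h1
    · right
      obtain ⟨w, hw, hw3, hw1⟩ := exists_om
      have hs : ∀ t : ℂ, t ^ 3 = 1 → t ^ 2 * q.q2 + t * q.q3 = 0 := by
        intro t ht
        rcases dich_tw hD h t ht with ⟨h2, _⟩ | ⟨h2, _⟩
        · exact absurd (by linear_combination h2 / 4) h1
        · linear_combination h2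
      have e1 := hs 1 (by norm_num)
      have e2 := hs w hw3
      have h3 : (w - 1) * q.q2 = 0 := by
        linear_combination w ^ 2 * e2 - e1 - (w * q.q2 + q.q3) * hw3
      have h4 : q.q2 = 0 := (mul_eq_zero.1 h3).resolve_left (sub_ne_zero.2 hw1)
      exact ⟨h4, by linear_combination e1 - h4⟩
  refine ⟨by linear_combination p2 / 2, by linear_combination p1 / 2, by linear_combination p3 / 2, key h, ?_, ?_⟩
  · have h1 := key h.cyc
    simpa only [Qf.cyc] using h1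
  · have h1 := key h.cyc.cyc
    simpa only [Qf.cyc] using h1

end Pool.Agent.CLA
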