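import Pool.Agent.CLA.Qz

/-!
# CLA / QzG: `q = 0` for general `m`

Apply `hB` and `hDich` to `HP.tw` (`t^3 = 1`) and `HP.cyc`.

PROOFS.
* `q_polar`: `hB` for `q.tw t`: `m (t^2 q2 - t q3) + 2 (t q12 - t^2 q13) = 0`, i.e.
  `t^2 (m q2 - 2 q13) + t (2 q12 - m q3) = 0`; for `t = 1` and `t = w` (a primitive cube root of unity, `exists_om`):
  both brackets vanish.  The third relation from `HP.cyc`.
* `dich_tw`: with `q` polar, `2 q23 = m q1`, `2 q13 = m q2`, `2 q12 = m q3`; `s = t^2 q2 + t q3`: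
  `hDich` for `q.tw t`, `r.tw t` says `(4 + m^3) q1 + 3 m^2 s = 0` (and a condition on `r`), or `s = m q1` and
  `(r.tw t).fr = 0`.
* `q_zero` (`Gen m`).  Let `s1, s2, s3` be the values of `s` for `t = 1, w, w^2`, sum `0`; each of them is `m q1` or
  `b q1` with `b = -(4+m^3)/(3 m^2)`.  Let `j` be the number of those of the first kind.  `j = 3`: `m q1 = 0`, `q1 = 0`, all
  `s = 0`, so `q2 = q3 = 0`.  `j = 0`: `b q1 = 0`, all `s = 0`, `q2 = q3 = 0`; then the same alternative for the cyclic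
  permutation (first coefficient `q2 = 0`) gives `t^2 q3 + t q1 = 0` for all `t`, so `q1 = 0`.  `j = 1`: `(m + 2 b) q1 = 0`,
  `3 m^2 (m + 2 b) = m^3 - 8 ≠ 0`, so `q1 = 0`, all `s = 0`, `q2 = q3 = 0`.  `j = 2`: `(2 m + b) q1 = 0`,
  `3 m^2 (2 m + b) = 5 m^3 - 4`; if `q1 = 0` again all are `0`.  So it remains `5 m^3 = 4`, `q1 ≠ 0`, and
  `(q2, q3) = - m q1 (t0, t0^2)` for some `t0^3 = 1` (the three values of `s` are `m q1 (1 - 3 δ)`), so `q2^3 = - m^3 q1^3`.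
  By cyclic permutation (`q2 ≠ 0` is its first coefficient) also `q3^3 = - m^3 q2^3`, `q1^3 = - m^3 q3^3`, so
  `(-m^3)^3 = 1`; but `m^3 = 4/5`: contradiction.
* `q_fermat` (`m = 0`): `q12 = q13 = q23 = 0` from `q_polar`; `dich_tw`: `4 q1 = 0` or `t^2 q2 + t q3 = 0`; so if `q1 ≠ 0` then
  `t q2 + q3 = 0` for all `t`, `q2 = q3 = 0`; cyclic.
-/

set_option autoImplicit false

namespace Pool.Agent.CLA

open MvPolynomial Pool.Agent.CLU

variable {m : ℂ} {q : Qf} {r : Cf}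

private theorem qzg_alg (m a b c w : ℂ) (hm : m ≠ 0) (hm8 : m ^ 3 ≠ 8) (hw : w ^ 2 + w + 1 = 0)
    (ha : a ≠ 0) (hb : b ≠ 0)
    (h : ∀ t : ℂ, t ^ 3 = 1 → (4 + m ^ 3) * a + 3 * m ^ 2 * (t ^ 2 * b + t * c) = 0 ∨
      t ^ 2 * b + t * c = m * a) : 5 * m ^ 3 = 4 ∧ b ^ 3 = -m ^ 3 * a ^ 3 := by
  have hw3 : w ^ 3 = 1 := by linear_combination (w - 1) * hw
  obtain ⟨s1, hs1⟩ : ∃ s1, s1 = b + c := ⟨_, rfl⟩
  obtain ⟨s2, hs2⟩ : ∃ s2, s2 = w ^ 2 * b + w * c := ⟨_, rfl⟩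
  obtain ⟨s3, hs3⟩ : ∃ s3, s3 = (w ^ 2) ^ 2 * b + w ^ 2 * c := ⟨_, rfl⟩
  have hsum : s1 + s2 + s3 = 0 := by
    rw [hs1, hs2, hs3]
    linear_combination ((w ^ 2 - w + 1) * b + c) * hw
  have hq2 : 3 * b = s1 + w * s2 + w ^ 2 * s3 := by
    rw [hs1, hs2, hs3]
    linear_combination (-(w - 1) * (w ^ 3 + 2) * b - (w ^ 2 - w + 1) * c) * hw
  have h1 := h 1 (by norm_num)
  have h2 := h w hw3
  have h3 := h (w ^ 2) (by linear_combination (w ^ 3 + 1) * hw3)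
  rw [← hs2] at h2
  rw [← hs3] at h3
  have e1 : (1 : ℂ) ^ 2 * b + 1 * c = s1 := by rw [hs1]; ring
  rw [e1] at h1
  have hm2 : (3 * m ^ 2 : ℂ) ≠ 0 := mul_ne_zero (by norm_num) (pow_ne_zero _ hm)
  have hj1 : (8 - m ^ 3) * a = 0 → False := by
    intro h0
    rcases mul_eq_zero.1 h0 with h0 | h0
    · exact hm8 (by linear_combination -h0)
    · exact ha h0
  have hj2 : (4 - 5 * m ^ 3) * a = 0 → 5 * m ^ 3 = 4 := by
    intro h0
    rcases mul_eq_zero.1 h0 with h0 | h0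
    · linear_combination -h0
    · exact absurd h0 ha
  rcases h1 with h1 | h1 <;> rcases h2 with h2 | h2 <;> rcases h3 with h3 | h3
  · exfalso
    have h0 : (4 + m ^ 3) * a = 0 := by
      linear_combination (h1 + h2 + h3) / 3 - m ^ 2 * hsum
    have e1 : s1 = 0 := by
      have : 3 * m ^ 2 * s1 = 0 := by linear_combination h1 - h0
      exact (mul_eq_zero.1 this).resolve_left hm2
    have e2 : s2 = 0 := by
      have : 3 * m ^ 2 * s2 = 0 := by linear_combination h2 - h0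
      exact (mul_eq_zero.1 this).resolve_left hm2
    have e3 : s3 = 0 := by
      have : 3 * m ^ 2 * s3 = 0 := by linear_combination h3 - h0
      exact (mul_eq_zero.1 this).resolve_left hm2
    apply hb
    rw [e1, e2, e3] at hq2
    linear_combination hq2 / 3
  · exfalso
    apply hj1
    linear_combination h1 + h2 - 3 * m ^ 2 * hsum + 3 * m ^ 2 * h3
  · exfalso
    apply hj1
    linear_combination h1 + h3 - 3 * m ^ 2 * hsum + 3 * m ^ 2 * h2
  · have e1 : s1 = -2 * (m * a) := by linear_combination hsum - h2 - h3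
    refine ⟨hj2 (by rw [e1] at h1; linear_combination h1), ?_⟩
    rw [e1, h2, h3] at hq2
    have e : b = -(m * a) := by linear_combination hq2 / 3 + m * a / 3 * hw
    rw [e]
    ring
  · exfalso
    apply hj1
    linear_combination h2 + h3 - 3 * m ^ 2 * hsum + 3 * m ^ 2 * h1
  · have e1 : s2 = -2 * (m * a) := by linear_combination hsum - h1 - h3
    refine ⟨hj2 (by rw [e1] at h2; linear_combination h2), ?_⟩
    rw [e1, h1, h3] at hq2
    have e : b = -(w * (m * a)) := by linear_combination hq2 / 3 + m * a / 3 * hw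
    rw [e]
    linear_combination -(m * a) ^ 3 * hw3
  · have e1 : s3 = -2 * (m * a) := by linear_combination hsum - h1 - h2
    refine ⟨hj2 (by rw [e1] at h3; linear_combination h3), ?_⟩
    rw [e1, h1, h2] at hq2
    have e : b = -(w ^ 2 * (m * a)) := by linear_combination hq2 / 3 + m * a / 3 * hw
    rw [e]
    linear_combination -(m * a) ^ 3 * (w ^ 3 + 1) * hw3
  · exfalso
    have h0 : m * a = 0 := by linear_combination (hsum - h1 - h2 - h3) / 3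
    exact (mul_ne_zero hm ha) h0

private theorem qzg_zero (m a b c w : ℂ) (hm : m ≠ 0) (hw : w ^ 2 + w + 1 = 0) (ha : a = 0)
    (h : ∀ t : ℂ, t ^ 3 = 1 → (4 + m ^ 3) * a + 3 * m ^ 2 * (t ^ 2 * b + t * c) = 0 ∨
      t ^ 2 * b + t * c = m * a) : b = 0 ∧ c = 0 := by
  have hw3 : w ^ 3 = 1 := by linear_combination (w - 1) * hw
  have hm2 : (3 * m ^ 2 : ℂ) ≠ 0 := mul_ne_zero (by norm_num) (pow_ne_zero _ hm)
  have key : ∀ t : ℂ, t ^ 3 = 1 → t ^ 2 * b + t * c = 0 := by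
    intro t ht
    rcases h t ht with h | h
    · rw [ha, mul_zero, zero_add] at h
      exact (mul_eq_zero.1 h).resolve_left hm2
    · rw [ha, mul_zero] at h
      exact h
  have h1 := key 1 (by norm_num)
  have h2 := key w hw3
  have h3 := key (w ^ 2) (by linear_combination (w ^ 3 + 1) * hw3)
  have hb : b = 0 := by
    have e : 3 * b = (1 ^ 2 * b + 1 * c) + w * (w ^ 2 * b + w * c) +
        w ^ 2 * ((w ^ 2) ^ 2 * b + w ^ 2 * c) := by
      linear_combination (-(w - 1) * (w ^ 3 + 2) * b - (w ^ 2 - w + 1) * c) * hw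
    rw [h1, h2, h3] at e
    linear_combination e / 3
  refine ⟨hb, ?_⟩
  rw [hb] at h1
  linear_combination h1

theorem q_zero (hG : Gen m) (h : HP m q r) : q = Qf.zero := by
  obtain ⟨hm, hm8, hD⟩ := hG
  obtain ⟨w, hw, _, _⟩ := exists_om
  have hc := h.cyc
  have hcc := hc.cyc
  have d1 : ∀ t : ℂ, t ^ 3 = 1 → (4 + m ^ 3) * q.q1 + 3 * m ^ 2 * (t ^ 2 * q.q2 + t * q.q3) = 0 ∨
      t ^ 2 * q.q2 + t * q.q3 = m * q.q1 := fun t ht =>
    (dich_tw hD h t ht).imp (fun x => x.1) (fun x => x.1)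
  have d2 : ∀ t : ℂ, t ^ 3 = 1 → (4 + m ^ 3) * q.q2 + 3 * m ^ 2 * (t ^ 2 * q.q3 + t * q.q1) = 0 ∨
      t ^ 2 * q.q3 + t * q.q1 = m * q.q2 := fun t ht =>
    (dich_tw hD hc t ht).imp (fun x => x.1) (fun x => x.1)
  have d3 : ∀ t : ℂ, t ^ 3 = 1 → (4 + m ^ 3) * q.q3 + 3 * m ^ 2 * (t ^ 2 * q.q1 + t * q.q2) = 0 ∨
      t ^ 2 * q.q1 + t * q.q2 = m * q.q3 := fun t ht =>
    (dich_tw hD hcc t ht).imp (fun x => x.1) (fun x => x.1)
  have hz : q.q1 = 0 ∧ q.q2 = 0 ∧ q.q3 = 0 := by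
    by_cases h1 : q.q1 = 0
    · exact ⟨h1, qzg_zero m _ _ _ w hm hw h1 d1⟩
    by_cases h2 : q.q2 = 0
    · obtain ⟨h3, h1⟩ := qzg_zero m _ _ _ w hm hw h2 d2
      exact ⟨h1, h2, h3⟩
    by_cases h3 : q.q3 = 0
    · obtain ⟨h1, h2⟩ := qzg_zero m _ _ _ w hm hw h3 d3
      exact ⟨h1, h2, h3⟩
    exfalso
    obtain ⟨h5, e1⟩ := qzg_alg m _ _ _ w hm hm8 hw h1 h2 d1
    obtain ⟨_, e2⟩ := qzg_alg m _ _ _ w hm hm8 hw h2 h3 d2
    obtain ⟨_, e3⟩ := qzg_alg m _ _ _ w hm hm8 hw h3 h1 d3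
    have h4 : m ^ 3 = 4 / 5 := by linear_combination h5 / 5
    rw [h4] at e1 e2 e3
    have h6 : q.q1 ^ 3 = 0 := by
      linear_combination (125 / 189) * e3 - (100 / 189) * e2 + (80 / 189) * e1
    exact h1 (pow_eq_zero_iff (by norm_num) |>.1 h6)
  obtain ⟨h1, h2, h3⟩ := hz
  obtain ⟨p1, p2, p3⟩ := q_polar hD h
  rw [h2, mul_zero] at p1
  rw [h3, mul_zero] at p2
  rw [h1, mul_zero] at p3
  have h13 : q.q13 = 0 := by linear_combination p1 / 2
  have h12 : q.q12 = 0 := by linear_combination p2 / 2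
  have h23 : q.q23 = 0 := by linear_combination p3 / 2
  obtain ⟨q1, q2, q3, q12, q13, q23⟩ := q
  simp only at h1 h2 h3 h12 h13 h23
  rw [h1, h2, h3, h12, h13, h23]
  rfl

end Pool.Agent.CLA
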