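import Pool.Agent.CLA.Lin

/-!
# CLA / Sub: substitution of linear forms

PROOFS.
* `sub_q`, `sub_r`: substitute and expand; the coefficients of the new form are found by expanding (`q.ev` of three linear
  forms in `X', Y', Z'` is a combination of the six monomials of degree two, etc.).
* `equi`: `t = m / 2`, `t^3 = 1`, `Y1 = t Y`: `hes m X Y Z = X^3 + Y1^3 + Z^3 + 6 X Y1 Z = (1/3) ∑_{i=0,1,2} (X + w^i Y1 + w^{2i} Z)^3`
  (`w^2 + w + 1 = 0`).  With `k^3 = 1/3`: `X' = k (X + Y1 + Z)`, `Y' = k (X + w Y1 + w^2 Z)`, `Z' = k (X + w^2 Y1 + w Z)`;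
  inverse: `3 k X = X' + Y' + Z'`, `3 k Y1 = X' + w^2 Y' + w Z'`, `3 k Z = X' + w Y' + w^2 Z'`, `Y = t^2 Y1`.
-/

set_option autoImplicit false

namespace Pool.Agent.CLA

open MvPolynomial Pool.Agent.CLU

/-- `X, Y, Z` are combinations of `X', Y', Z'` -/
def Cmb (X Y Z X' Y' Z' : S) : Prop :=
  ∃ M : Fin 3 → Fin 3 → ℂ, ∀ i, ![X, Y, Z] i = C (M i 0) * X' + C (M i 1) * Y' + C (M i 2) * Z'

section auxSub

variable {X Y Z : S}

private theorem hC2 (a : ℂ) : (C (2 * (a / 2)) : S) = C a := by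
  congr 1
  ring

private theorem q_add (q q' : Qf) : ∃ q'' : Qf, q.ev X Y Z + q'.ev X Y Z = q''.ev X Y Z := by
  refine ⟨⟨q.q1 + q'.q1, q.q2 + q'.q2, q.q3 + q'.q3, q.q12 + q'.q12, q.q13 + q'.q13,
    q.q23 + q'.q23⟩, ?_⟩
  simp only [Qf.ev, mul_add, C_add]
  ring

private theorem q_smul (a : ℂ) (q : Qf) : ∃ q'' : Qf, C a * q.ev X Y Z = q''.ev X Y Z := by
  refine ⟨⟨a * q.q1, a * q.q2, a * q.q3, a * q.q12, a * q.q13, a * q.q23⟩, ?_⟩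
  simp only [Qf.ev, C_mul]
  ring

private theorem q_mul (m n : Fin 3 → ℂ) : ∃ q'' : Qf,
    (C (m 0) * X + C (m 1) * Y + C (m 2) * Z) * (C (n 0) * X + C (n 1) * Y + C (n 2) * Z) =
      q''.ev X Y Z := by
  refine ⟨⟨m 0 * n 0, m 1 * n 1, m 2 * n 2, (m 0 * n 1 + m 1 * n 0) / 2,
    (m 0 * n 2 + m 2 * n 0) / 2, (m 1 * n 2 + m 2 * n 1) / 2⟩, ?_⟩
  simp only [Qf.ev, hC2]
  simp only [C_mul, C_add]
  ring

private theorem r_add (q q' : Cf) : ∃ q'' : Cf, q.ev X Y Z + q'.ev X Y Z = q''.ev X Y Z := by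
  refine ⟨⟨q.a1 + q'.a1, q.a2 + q'.a2, q.a3 + q'.a3, q.b12 + q'.b12, q.b13 + q'.b13,
    q.b21 + q'.b21, q.b23 + q'.b23, q.b31 + q'.b31, q.b32 + q'.b32, q.d + q'.d⟩, ?_⟩
  simp only [Cf.ev, C_add]
  ring

private theorem r_smul (a : ℂ) (q : Cf) : ∃ q'' : Cf, C a * q.ev X Y Z = q''.ev X Y Z := by
  refine ⟨⟨a * q.a1, a * q.a2, a * q.a3, a * q.b12, a * q.b13, a * q.b21, a * q.b23,
    a * q.b31, a * q.b32, a * q.d⟩, ?_⟩
  simp only [Cf.ev, C_mul]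
  ring

private theorem r_mul (m : Fin 3 → ℂ) (q : Qf) : ∃ q'' : Cf,
    (C (m 0) * X + C (m 1) * Y + C (m 2) * Z) * q.ev X Y Z = q''.ev X Y Z := by
  refine ⟨⟨m 0 * q.q1, m 1 * q.q2, m 2 * q.q3, m 0 * (2 * q.q12) + m 1 * q.q1,
    m 0 * (2 * q.q13) + m 2 * q.q1, m 0 * q.q2 + m 1 * (2 * q.q12),
    m 1 * (2 * q.q23) + m 2 * q.q2, m 0 * q.q3 + m 2 * (2 * q.q13),
    m 1 * q.q3 + m 2 * (2 * q.q23),
    m 0 * (2 * q.q23) + m 1 * (2 * q.q13) + m 2 * (2 * q.q12)⟩, ?_⟩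
  simp only [Qf.ev, Cf.ev, C_mul, C_add]
  ring

end auxSub

theorem sub_q {X Y Z X' Y' Z' : S} (h : Cmb X Y Z X' Y' Z') (q : Qf) :
    ∃ q' : Qf, q.ev X Y Z = q'.ev X' Y' Z' := by
  obtain ⟨M, hM⟩ := h
  have h0 : X = C (M 0 0) * X' + C (M 0 1) * Y' + C (M 0 2) * Z' := hM 0
  have h1 : Y = C (M 1 0) * X' + C (M 1 1) * Y' + C (M 1 2) * Z' := hM 1
  have h2 : Z = C (M 2 0) * X' + C (M 2 1) * Y' + C (M 2 2) * Z' := hM 2
  obtain ⟨p00, e00⟩ := q_mul (X := X') (Y := Y') (Z := Z') (M 0) (M 0)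
  obtain ⟨p11, e11⟩ := q_mul (X := X') (Y := Y') (Z := Z') (M 1) (M 1)
  obtain ⟨p22, e22⟩ := q_mul (X := X') (Y := Y') (Z := Z') (M 2) (M 2)
  obtain ⟨p01, e01⟩ := q_mul (X := X') (Y := Y') (Z := Z') (M 0) (M 1)
  obtain ⟨p02, e02⟩ := q_mul (X := X') (Y := Y') (Z := Z') (M 0) (M 2)
  obtain ⟨p12, e12⟩ := q_mul (X := X') (Y := Y') (Z := Z') (M 1) (M 2)
  rw [← h0] at e00
  rw [← h1] at e11
  rw [← h2] at e22
  rw [← h0, ← h1] at e01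
  rw [← h0, ← h2] at e02
  rw [← h1, ← h2] at e12
  have hq : q.ev X Y Z = C q.q1 * (X * X) + C q.q2 * (Y * Y) + C q.q3 * (Z * Z) +
      C (2 * q.q12) * (X * Y) + C (2 * q.q13) * (X * Z) + C (2 * q.q23) * (Y * Z) := by
    simp only [Qf.ev]
    ring
  obtain ⟨s1, f1⟩ := q_smul (X := X') (Y := Y') (Z := Z') q.q1 p00
  obtain ⟨s2, f2⟩ := q_smul (X := X') (Y := Y') (Z := Z') q.q2 p11
  obtain ⟨s3, f3⟩ := q_smul (X := X') (Y := Y') (Z := Z') q.q3 p22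
  obtain ⟨s4, f4⟩ := q_smul (X := X') (Y := Y') (Z := Z') (2 * q.q12) p01
  obtain ⟨s5, f5⟩ := q_smul (X := X') (Y := Y') (Z := Z') (2 * q.q13) p02
  obtain ⟨s6, f6⟩ := q_smul (X := X') (Y := Y') (Z := Z') (2 * q.q23) p12
  rw [hq, e00, e11, e22, e01, e02, e12, f1, f2, f3, f4, f5, f6]
  obtain ⟨u1, g1⟩ := q_add (X := X') (Y := Y') (Z := Z') s1 s2
  obtain ⟨u2, g2⟩ := q_add (X := X') (Y := Y') (Z := Z') u1 s3
  obtain ⟨u3, g3⟩ := q_add (X := X') (Y := Y') (Z := Z') u2 s4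
  obtain ⟨u4, g4⟩ := q_add (X := X') (Y := Y') (Z := Z') u3 s5
  obtain ⟨u5, g5⟩ := q_add (X := X') (Y := Y') (Z := Z') u4 s6
  exact ⟨u5, by rw [g1, g2, g3, g4, g5]⟩

theorem sub_r {X Y Z X' Y' Z' : S} (h : Cmb X Y Z X' Y' Z') (r : Cf) :
    ∃ r' : Cf, r.ev X Y Z = r'.ev X' Y' Z' := by
  obtain ⟨M, hM⟩ := h
  have h0 : X = C (M 0 0) * X' + C (M 0 1) * Y' + C (M 0 2) * Z' := hM 0
  have h1 : Y = C (M 1 0) * X' + C (M 1 1) * Y' + C (M 1 2) * Z' := hM 1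
  have h2 : Z = C (M 2 0) * X' + C (M 2 1) * Y' + C (M 2 2) * Z' := hM 2
  obtain ⟨p00, e00⟩ := q_mul (X := X') (Y := Y') (Z := Z') (M 0) (M 0)
  obtain ⟨p11, e11⟩ := q_mul (X := X') (Y := Y') (Z := Z') (M 1) (M 1)
  obtain ⟨p22, e22⟩ := q_mul (X := X') (Y := Y') (Z := Z') (M 2) (M 2)
  obtain ⟨p01, e01⟩ := q_mul (X := X') (Y := Y') (Z := Z') (M 0) (M 1)
  rw [← h0] at e00
  rw [← h1] at e11
  rw [← h2] at e22
  rw [← h0, ← h1] at e01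
  obtain ⟨v000, k000⟩ := r_mul (X := X') (Y := Y') (Z := Z') (M 0) p00
  rw [← h0, ← e00] at k000
  obtain ⟨s000, f000⟩ := r_smul (X := X') (Y := Y') (Z := Z') r.a1 v000
  rw [← k000] at f000
  obtain ⟨v111, k111⟩ := r_mul (X := X') (Y := Y') (Z := Z') (M 1) p11
  rw [← h1, ← e11] at k111
  obtain ⟨s111, f111⟩ := r_smul (X := X') (Y := Y') (Z := Z') r.a2 v111
  rw [← k111] at f111
  obtain ⟨v222, k222⟩ := r_mul (X := X') (Y := Y') (Z := Z') (M 2) p22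
  rw [← h2, ← e22] at k222
  obtain ⟨s222, f222⟩ := r_smul (X := X') (Y := Y') (Z := Z') r.a3 v222
  rw [← k222] at f222
  obtain ⟨v100, k100⟩ := r_mul (X := X') (Y := Y') (Z := Z') (M 1) p00
  rw [← h1, ← e00] at k100
  obtain ⟨s100, f100⟩ := r_smul (X := X') (Y := Y') (Z := Z') r.b12 v100
  rw [← k100] at f100
  obtain ⟨v200, k200⟩ := r_mul (X := X') (Y := Y') (Z := Z') (M 2) p00
  rw [← h2, ← e00] at k200
  obtain ⟨s200, f200⟩ := r_smul (X := X') (Y := Y') (Z := Z') r.b13 v200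
  rw [← k200] at f200
  obtain ⟨v011, k011⟩ := r_mul (X := X') (Y := Y') (Z := Z') (M 0) p11
  rw [← h0, ← e11] at k011
  obtain ⟨s011, f011⟩ := r_smul (X := X') (Y := Y') (Z := Z') r.b21 v011
  rw [← k011] at f011
  obtain ⟨v211, k211⟩ := r_mul (X := X') (Y := Y') (Z := Z') (M 2) p11
  rw [← h2, ← e11] at k211
  obtain ⟨s211, f211⟩ := r_smul (X := X') (Y := Y') (Z := Z') r.b23 v211
  rw [← k211] at f211
  obtain ⟨v022, k022⟩ := r_mul (X := X') (Y := Y') (Z := Z') (M 0) p22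
  rw [← h0, ← e22] at k022
  obtain ⟨s022, f022⟩ := r_smul (X := X') (Y := Y') (Z := Z') r.b31 v022
  rw [← k022] at f022
  obtain ⟨v122, k122⟩ := r_mul (X := X') (Y := Y') (Z := Z') (M 1) p22
  rw [← h1, ← e22] at k122
  obtain ⟨s122, f122⟩ := r_smul (X := X') (Y := Y') (Z := Z') r.b32 v122
  rw [← k122] at f122
  obtain ⟨v201, k201⟩ := r_mul (X := X') (Y := Y') (Z := Z') (M 2) p01
  rw [← h2, ← e01] at k201
  obtain ⟨s201, f201⟩ := r_smul (X := X') (Y := Y') (Z := Z') r.d v201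
  rw [← k201] at f201
  have hr : r.ev X Y Z = C r.a1 * (X * (X * X)) +
      C r.a2 * (Y * (Y * Y)) +
      C r.a3 * (Z * (Z * Z)) +
      C r.b12 * (Y * (X * X)) +
      C r.b13 * (Z * (X * X)) +
      C r.b21 * (X * (Y * Y)) +
      C r.b23 * (Z * (Y * Y)) +
      C r.b31 * (X * (Z * Z)) +
      C r.b32 * (Y * (Z * Z)) +
      C r.d * (Z * (X * Y)) := by
    simp only [Cf.ev]
    ring
  rw [hr, f000, f111, f222, f100, f200, f011, f211, f022, f122, f201]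
  obtain ⟨u0, g0⟩ := r_add (X := X') (Y := Y') (Z := Z') s000 s111
  obtain ⟨u1, g1⟩ := r_add (X := X') (Y := Y') (Z := Z') u0 s222
  obtain ⟨u2, g2⟩ := r_add (X := X') (Y := Y') (Z := Z') u1 s100
  obtain ⟨u3, g3⟩ := r_add (X := X') (Y := Y') (Z := Z') u2 s200
  obtain ⟨u4, g4⟩ := r_add (X := X') (Y := Y') (Z := Z') u3 s011
  obtain ⟨u5, g5⟩ := r_add (X := X') (Y := Y') (Z := Z') u4 s211
  obtain ⟨u6, g6⟩ := r_add (X := X') (Y := Y') (Z := Z') u5 s022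
  obtain ⟨u7, g7⟩ := r_add (X := X') (Y := Y') (Z := Z') u6 s122
  obtain ⟨u8, g8⟩ := r_add (X := X') (Y := Y') (Z := Z') u7 s201
  exact ⟨u8, by rw [g0, g1, g2, g3, g4, g5, g6, g7, g8]⟩

end Pool.Agent.CLA
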