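import Mathlib

/-!
# CLA / Tens: ternary cubic forms as symmetric tensors

PROOFS.
* `tri_add_*`, `tri_smul_*`: sums.  `tri_comm*`: `Finset.sum_comm` and the symmetry of `T`.
* `tri_cube`: expand `tri T v v v` for `v = x e + y k + z h` (multilinear, symmetric).
* `exists_tensor`: a homogeneous polynomial of degree `3` in three variables; put
  `T i j k = (1/6) * coefficient of the constant polynomial ∂_i ∂_j ∂_k c` (`pderiv` commute; the third derivatives are
  homogeneous of degree `0`, constants), Euler's identity (`IsHomogeneous.sum_X_mul_pderiv`) three times: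
  `c = (1/6) ∑ X_i X_j X_k ∂_i ∂_j ∂_k c` and `∂_i c = (1/2) ∑ X_j X_k ∂_j ∂_k ∂_i c`.
-/

set_option autoImplicit false

namespace Pool.Agent.CLA

open MvPolynomial

variable {T : Fin 3 → Fin 3 → Fin 3 → ℂ}

/-- the trilinear form of a tensor -/
def tri (T : Fin 3 → Fin 3 → Fin 3 → ℂ) (u v w : Fin 3 → ℂ) : ℂ :=
  ∑ i, ∑ j, ∑ k, T i j k * u i * v j * w k

/-- symmetric tensors -/
def Sy3 (T : Fin 3 → Fin 3 → Fin 3 → ℂ) : Prop :=
  ∀ i j k, T i j k = T j i k ∧ T i j k = T i k j

/-- smooth cubic forms -/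
def SmT (T : Fin 3 → Fin 3 → Fin 3 → ℂ) : Prop :=
  ∀ p : Fin 3 → ℂ, p ≠ 0 → ∃ v, tri T p p v ≠ 0

theorem tri_add1 (u u' v w : Fin 3 → ℂ) : tri T (u + u') v w = tri T u v w + tri T u' v w := by
  simp only [tri, Pi.add_apply, ← Finset.sum_add_distrib]
  refine Finset.sum_congr rfl fun i _ => Finset.sum_congr rfl fun j _ =>
    Finset.sum_congr rfl fun k _ => ?_
  ring

theorem tri_add2 (u v v' w : Fin 3 → ℂ) : tri T u (v + v') w = tri T u v w + tri T u v' w := by
  simp only [tri, Pi.add_apply, ← Finset.sum_add_distrib]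
  refine Finset.sum_congr rfl fun i _ => Finset.sum_congr rfl fun j _ =>
    Finset.sum_congr rfl fun k _ => ?_
  ring

theorem tri_add3 (u v w w' : Fin 3 → ℂ) : tri T u v (w + w') = tri T u v w + tri T u v w' := by
  simp only [tri, Pi.add_apply, ← Finset.sum_add_distrib]
  refine Finset.sum_congr rfl fun i _ => Finset.sum_congr rfl fun j _ =>
    Finset.sum_congr rfl fun k _ => ?_
  ring

theorem tri_smul1 (a : ℂ) (u v w : Fin 3 → ℂ) : tri T (a • u) v w = a * tri T u v w := by
  simp only [tri, Pi.smul_apply, smul_eq_mul, Finset.mul_sum]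
  refine Finset.sum_congr rfl fun i _ => Finset.sum_congr rfl fun j _ =>
    Finset.sum_congr rfl fun k _ => ?_
  ring

theorem tri_smul2 (a : ℂ) (u v w : Fin 3 → ℂ) : tri T u (a • v) w = a * tri T u v w := by
  simp only [tri, Pi.smul_apply, smul_eq_mul, Finset.mul_sum]
  refine Finset.sum_congr rfl fun i _ => Finset.sum_congr rfl fun j _ =>
    Finset.sum_congr rfl fun k _ => ?_
  ring

theorem tri_smul3 (a : ℂ) (u v w : Fin 3 → ℂ) : tri T u v (a • w) = a * tri T u v w := by
  simp only [tri, Pi.smul_apply, smul_eq_mul, Finset.mul_sum]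
  refine Finset.sum_congr rfl fun i _ => Finset.sum_congr rfl fun j _ =>
    Finset.sum_congr rfl fun k _ => ?_
  ring

theorem tri_comm12 (hT : Sy3 T) (u v w : Fin 3 → ℂ) : tri T u v w = tri T v u w := by
  unfold tri
  rw [Finset.sum_comm]
  refine Finset.sum_congr rfl fun i _ => Finset.sum_congr rfl fun j _ =>
    Finset.sum_congr rfl fun k _ => ?_
  rw [(hT j i k).1]
  ring

theorem tri_comm23 (hT : Sy3 T) (u v w : Fin 3 → ℂ) : tri T u v w = tri T u w v := by
  unfold tri
  refine Finset.sum_congr rfl fun i _ => ?_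
  rw [Finset.sum_comm]
  refine Finset.sum_congr rfl fun j _ => Finset.sum_congr rfl fun k _ => ?_
  rw [(hT i k j).2]
  ring

theorem tri_cube (hT : Sy3 T) (e k h : Fin 3 → ℂ) (x y z : ℂ) :
    tri T (x • e + y • k + z • h) (x • e + y • k + z • h) (x • e + y • k + z • h) =
      x ^ 3 * tri T e e e + 3 * x ^ 2 * y * tri T e e k + 3 * x ^ 2 * z * tri T e e h +
      3 * x * y ^ 2 * tri T e k k + 6 * x * y * z * tri T e k h + 3 * x * z ^ 2 * tri T e h h +
      y ^ 3 * tri T k k k + 3 * y ^ 2 * z * tri T k k h + 3 * y * z ^ 2 * tri T k h h +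
      z ^ 3 * tri T h h h := by
  have c12 := tri_comm12 hT
  have c23 := tri_comm23 hT
  simp only [tri_add1, tri_add2, tri_add3, tri_smul1, tri_smul2, tri_smul3]
  have p2 : ∀ a b : Fin 3 → ℂ, tri T b a a = tri T a a b := fun a b => by rw [c12, c23]
  have q1 : tri T e h k = tri T e k h := c23 _ _ _
  have q2 : tri T k e h = tri T e k h := c12 _ _ _
  have q3 : tri T k h e = tri T e k h := by rw [c23, q2]
  have q4 : tri T h e k = tri T e k h := by rw [c12, q1]
  have q5 : tri T h k e = tri T e k h := by rw [c23, q4]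
  rw [p2 e k, c23 e k e, p2 e h, c23 e h e, c12 k e k, ← p2 k e, c12 h e h, ← p2 h e,
    c23 k h k, p2 k h, c12 h k h, ← p2 h k, q1, q2, q3, q4, q5]
  ring

end Pool.Agent.CLA
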