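import Pool.Agent.CLA.Sub
import Pool.Agent.CLA.Roots

/-!
# CLA / WeiH: from the Weierstrass form to the Hesse form

PROOF.  Write `c(y) = y^3 + ε y + ζ`.  Let `L` be a root of `3 L^4 + 6 ε L^2 + 12 ζ L - ε^2` (`exists_root4`).  `c(L) ≠ 0`:
the equation says `(3 L^2 + ε)^2 = 12 L c(L)`; if `c(L) = 0` then `3 L^2 + ε = 0` too, so the discriminant is `0`.  Let
`2 s^3 = c(L)`, `s ≠ 0`, `μ = (3 L^2 + ε)/(6 s^2)`, `t^2 = 1/(6 s)`, and `u = y - L z`, `M = (μ/2) u + s z`.  Identity (using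
`(3L^2+ε)^2 = 24 L s^3`):
`y^3 + ε y z^2 + ζ z^3 = (1 - μ^3) u^3 + 2 M^3 + 3 μ u M^2` and `x^2 z = 6 t^2 x^2 M - 3 μ t^2 x^2 u` (as
`6 M - 3 μ u = 6 s z`).  `1 - μ^3 ≠ 0`: otherwise `y0 = L - 2 s/μ` satisfies `c(y0) = 0`, `c'(y0) = 0` (at `z = 1`, `u = -2s/μ`:
`μ u = -2 s`, `c = μ^3u^3 + (9/2) μ^2 s u^2 + 6 μ s^2 u + 2 s^3 = (-8 + 18 - 12 + 2) s^3 = 0`, and
`c' = 3 μ^3 u^2 + 9 μ^2 s u + 6 μ s^2 = μ s^2 (12 - 18 + 6) = 0`), so the discriminant vanishes.  Let `κ^3 = 1 - μ^3`,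
`m = μ/κ`, `X = κ u`, `Y = M + t x`, `Z = M - t x`: `X^3 + Y^3 + Z^3 + 3 m X Y Z = κ^3 u^3 + 2 M^3 + 6 t^2 x^2 M +
3 μ u (M^2 - t^2 x^2)`.  `1 + m^3 = 1/κ^3 ≠ 0`.  Inverse: `x = (Y - Z)/(2t)`, `u = X/κ`, `z = ((Y+Z)/2 - (μ/2) u)/s`,
`y = u + L z` (`Lin4.of_span`, `Cmb`).
-/

set_option autoImplicit false

namespace Pool.Agent.CLA

open MvPolynomial Pool.Agent.CLU

theorem wei_hes {ε ζ : ℂ} (hd : 4 * ε ^ 3 + 27 * ζ ^ 2 ≠ 0) {x y z w : S} (h : Lin4 x y z w) :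
    ∃ (X Y Z : S) (m : ℂ), Lin4 X Y Z w ∧ 1 + m ^ 3 ≠ 0 ∧ Cmb x y z X Y Z ∧
      wei 1 ε ζ x y z = hes m X Y Z := by
  obtain ⟨L, hL0⟩ := exists_root4 3 0 (6 * ε) (12 * ζ) (-ε ^ 2)
    (fun h' => (by norm_num : (3 : ℂ) ≠ 0) h'.1)
  have hq : (3 * L ^ 2 + ε) ^ 2 = 12 * L * (L ^ 3 + ε * L + ζ) := by
    linear_combination -hL0
  have hc : L ^ 3 + ε * L + ζ ≠ 0 := by
    intro hc
    rw [hc, mul_zero] at hq
    have h1 : 3 * L ^ 2 + ε = 0 := by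
      rcases pow_eq_zero_iff (two_ne_zero) |>.1 hq with h1
      exact h1
    apply hd
    have h2 : ε = -(3 * L ^ 2) := by linear_combination h1
    have h3 : ζ = 2 * L ^ 3 := by
      rw [h2] at hc
      linear_combination hc
    rw [h2, h3]
    ring
  obtain ⟨s, hs⟩ := exists_cube ((L ^ 3 + ε * L + ζ) / 2)
  have hcs : L ^ 3 + ε * L + ζ = 2 * s ^ 3 := by
    rw [hs]
    ring
  have hs0 : s ≠ 0 := by
    rintro rfl
    apply hc
    rw [hcs]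
    ring
  obtain ⟨μ, hμ⟩ : ∃ μ : ℂ, μ = (3 * L ^ 2 + ε) / (6 * s ^ 2) := ⟨_, rfl⟩
  have h6 : 3 * L ^ 2 + ε = 6 * s ^ 2 * μ := by
    rw [hμ]
    field_simp
  have hL : 2 * L = 3 * s * μ ^ 2 := by
    rw [h6, hcs] at hq
    have h1 : s ^ 3 * (2 * L - 3 * s * μ ^ 2) = 0 := by
      linear_combination -(1 / 12) * hq
    rcases mul_eq_zero.1 h1 with h2 | h2
    · exact absurd h2 (pow_ne_zero 3 hs0)
    · exact sub_eq_zero.1 h2
  obtain ⟨t, ht'⟩ := exists_sq (1 / (6 * s))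
  have ht : 6 * s * t ^ 2 = 1 := by
    rw [ht']
    field_simp
  have ht0 : t ≠ 0 := by
    rintro rfl
    norm_num at ht
  have hμ1 : 1 - μ ^ 3 ≠ 0 := by
    intro h1
    apply hd
    have hL' : L = 3 * s * μ ^ 2 / 2 := by linear_combination hL / 2
    have hε : ε = 6 * s ^ 2 * μ - 3 * L ^ 2 := by linear_combination h6
    have hζ : ζ = 2 * s ^ 3 - L ^ 3 - ε * L := by linear_combination hcs
    have e1 : ε = -(3 / 4) * s ^ 2 * μ := by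
      rw [hε, hL']
      linear_combination (27 / 4 * s ^ 2 * μ) * h1
    have e2 : ζ = -(1 / 4) * s ^ 3 := by
      rw [hζ, e1, hL']
      linear_combination (27 / 8 * s ^ 3 * (1 + μ ^ 3) - 9 / 8 * s ^ 3) * h1
    rw [e1, e2]
    linear_combination (27 / 16 * s ^ 6) * h1
  obtain ⟨κ, hκ⟩ := exists_cube (1 - μ ^ 3)
  have hκ0 : κ ≠ 0 := by
    rintro rfl
    apply hμ1
    rw [← hκ]
    norm_num
  obtain ⟨m, hm'⟩ : ∃ m : ℂ, m = μ / κ := ⟨_, rfl⟩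
  have hm : m * κ = μ := by
    rw [hm']
    field_simp
  obtain ⟨X, hX⟩ : ∃ X : S, X = C 0 * x + C κ * y + C (-(κ * L)) * z + C 0 * w := ⟨_, rfl⟩
  obtain ⟨Y, hY⟩ : ∃ Y : S, Y = C t * x + C (μ / 2) * y + C (s - μ / 2 * L) * z + C 0 * w :=
    ⟨_, rfl⟩
  obtain ⟨Z, hZ⟩ : ∃ Z : S, Z = C (-t) * x + C (μ / 2) * y + C (s - μ / 2 * L) * z + C 0 * w :=
    ⟨_, rfl⟩
  have ex : x = C 0 * X + C (1 / (2 * t)) * Y + C (-(1 / (2 * t))) * Z := by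
    apply MvPolynomial.funext
    intro v
    rw [hX, hY, hZ]
    simp only [map_add, map_mul, eval_C]
    field_simp
    ring
  have ey : y = C (1 / κ - L * μ / (2 * s * κ)) * X + C (L / (2 * s)) * Y +
      C (L / (2 * s)) * Z := by
    apply MvPolynomial.funext
    intro v
    rw [hX, hY, hZ]
    simp only [map_add, map_mul, eval_C]
    field_simp
    ring
  have ez : z = C (-(μ / (2 * s * κ))) * X + C (1 / (2 * s)) * Y + C (1 / (2 * s)) * Z := by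
    apply MvPolynomial.funext
    intro v
    rw [hX, hY, hZ]
    simp only [map_add, map_mul, eval_C]
    field_simp
    ring
  refine ⟨X, Y, Z, m, ?_, ?_, ?_, ?_⟩
  · refine h.of_span (by rw [hX]; exact h.hom_comb _ _ _ _) (by rw [hY]; exact h.hom_comb _ _ _ _)
      (by rw [hZ]; exact h.hom_comb _ _ _ _) h.hom.2.2.2
      ![![0, 1 / (2 * t), -(1 / (2 * t)), 0],
        ![1 / κ - L * μ / (2 * s * κ), L / (2 * s), L / (2 * s), 0],
        ![-(μ / (2 * s * κ)), 1 / (2 * s), 1 / (2 * s), 0], ![0, 0, 0, 1]] ?_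
    intro i
    fin_cases i
    · change x = C 0 * X + C (1 / (2 * t)) * Y + C (-(1 / (2 * t))) * Z + C 0 * w
      rw [← ex, C_0, zero_mul, add_zero]
    · change y = C (1 / κ - L * μ / (2 * s * κ)) * X + C (L / (2 * s)) * Y +
        C (L / (2 * s)) * Z + C 0 * w
      rw [← ey, C_0, zero_mul, add_zero]
    · change z = C (-(μ / (2 * s * κ))) * X + C (1 / (2 * s)) * Y + C (1 / (2 * s)) * Z + C 0 * w
      rw [← ez, C_0, zero_mul, add_zero]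
    · change w = C 0 * X + C 0 * Y + C 0 * Z + C 1 * w
      rw [C_0, C_1, zero_mul, zero_mul, zero_mul, one_mul, add_zero, add_zero, zero_add]
  · have h1 : κ ^ 3 * (1 + m ^ 3) = 1 := by
      have h2 : κ ^ 3 * (1 + m ^ 3) = κ ^ 3 + (m * κ) ^ 3 := by ring
      rw [h2, hm, hκ]
      ring
    intro h2
    rw [h2, mul_zero] at h1
    exact zero_ne_one h1
  · refine ⟨![![0, 1 / (2 * t), -(1 / (2 * t))],
        ![1 / κ - L * μ / (2 * s * κ), L / (2 * s), L / (2 * s)],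
        ![-(μ / (2 * s * κ)), 1 / (2 * s), 1 / (2 * s)]], ?_⟩
    intro i
    fin_cases i
    · exact ex
    · exact ey
    · exact ez
  · apply MvPolynomial.funext
    intro v
    rw [hX, hY, hZ]
    simp only [wei, hes, map_add, map_mul, map_pow, eval_C]
    obtain ⟨x', hx'⟩ : ∃ x', x' = eval v x := ⟨_, rfl⟩
    obtain ⟨y', hy'⟩ : ∃ y', y' = eval v y := ⟨_, rfl⟩
    obtain ⟨z', hz'⟩ : ∃ z', z' = eval v z := ⟨_, rfl⟩
    obtain ⟨w', hw'⟩ : ∃ w', w' = eval v w := ⟨_, rfl⟩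
    rw [← hx', ← hy', ← hz', ← hw']
    linear_combination (-(x' ^ 2 * z')) * ht - (y' - L * z') ^ 3 * hκ +
      (3 / 2) * (y' - L * z') ^ 2 * z' * hL + (y' - L * z') * z' ^ 2 * h6 + z' ^ 3 * hcs -
      3 * (y' - L * z') * ((μ / 2 * (y' - L * z') + s * z') ^ 2 - t ^ 2 * x' ^ 2) * hm

end Pool.Agent.CLA
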